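import Pool.Agent.Helper882.Density

set_option autoImplicit false
set_option linter.unusedSectionVars false

open MeasureTheory Set Topology Filter
open scoped NNReal ENNReal

namespace Pool.Agent.Helper882.UniformAlgebra

section bipolar

variable {S : Type} [TopologicalSpace S] [CompactSpace S] [MeasurableSpace S] [BorelSpace S]
  (μ : Measure S)

lemma integrable_pair (u : Lp ℂ ∞ μ) (h : Lp ℂ 1 μ) : Integrable (fun s => u s * h s) μ := by
  have h1 : MemLp u ∞ μ := Lp.memLp u
  have h2 : MemLp h 1 μ := Lp.memLp h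
  exact MemLp.integrable_mul h1 h2

/-- The pairing of `L^∞` and `L^1`. -/
noncomputable def pair : Lp ℂ ∞ μ →ₗ[ℂ] Lp ℂ 1 μ →ₗ[ℂ] ℂ :=
  LinearMap.mk₂ ℂ (fun u h => ∫ s, u s * h s ∂μ)
    (by
      intro u v h
      rw [← integral_add (integrable_pair μ u h) (integrable_pair μ v h)]
      apply integral_congr_ae
      filter_upwards [Lp.coeFn_add u v] with s hs
      rw [hs, Pi.add_apply, add_mul])
    (by
      intro c u h
      rw [smul_eq_mul, ← integral_const_mul]
      apply integral_congr_ae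
      filter_upwards [Lp.coeFn_smul c u] with s hs
      rw [hs, Pi.smul_apply, smul_eq_mul, mul_assoc])
    (by
      intro u h k
      rw [← integral_add (integrable_pair μ u h) (integrable_pair μ u k)]
      apply integral_congr_ae
      filter_upwards [Lp.coeFn_add h k] with s hs
      rw [hs, Pi.add_apply, mul_add])
    (by
      intro c u h
      rw [smul_eq_mul, ← integral_const_mul]
      apply integral_congr_ae
      filter_upwards [Lp.coeFn_smul c h] with s hs
      rw [hs, Pi.smul_apply, smul_eq_mul]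
      ring)

lemma pair_apply (u : Lp ℂ ∞ μ) (h : Lp ℂ 1 μ) : pair μ u h = ∫ s, u s * h s ∂μ := rfl

lemma ae_norm_le (u : Lp ℂ ∞ μ) : ∀ᵐ s ∂μ, ‖u s‖ ≤ ‖u‖ := by
  have h2 : eLpNorm u ∞ μ ≠ ⊤ := (Lp.memLp u).2.ne
  filter_upwards [ae_le_eLpNormEssSup (f := u) (μ := μ)] with s hs
  rw [Lp.norm_def]
  rw [← eLpNorm_exponent_top] at hs
  have h3 := ENNReal.toReal_mono h2 hs
  rwa [toReal_enorm] at h3

lemma pair_norm (u : Lp ℂ ∞ μ) (h : Lp ℂ 1 μ) : ‖pair μ u h‖ ≤ ‖u‖ * ‖h‖ := by
  rw [pair_apply, L1.norm_eq_integral_norm, ← integral_const_mul]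
  apply norm_integral_le_of_norm_le
  · exact (L1.integrable_coeFn h).norm.const_mul _
  · filter_upwards [ae_norm_le μ u] with s hs
    rw [norm_mul]
    gcongr

/-- The bipolar theorem for the weak-star closure of a subspace. -/
lemma mem_closure_iff_pair (M : Submodule ℂ (Lp ℂ ∞ μ)) (u : Lp ℂ ∞ μ) :
    u ∈ @closure _ (weakStar μ) (M : Set (Lp ℂ ∞ μ)) ↔
      ∀ h : Lp ℂ 1 μ, (∀ v ∈ M, pair μ v h = 0) → pair μ u h = 0 := by
  constructor
  · intro hu h hh
    have hcl : @IsClosed _ (weakStar μ) {u : Lp ℂ ∞ μ | pair μ u h = 0} :=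
      @isClosed_eq _ _ _ (weakStar μ) _ _ _ (weakStar_cont μ h)
        (@continuous_const _ _ (weakStar μ) _ (0 : ℂ))
    exact (@closure_minimal _ (weakStar μ) _ _ hh hcl) hu
  · intro H
    have h1 : u ∈ @closure _ (weakStar μ) (M : Set (Lp ℂ ∞ μ)) ↔
        (fun h => pair μ u h) ∈ closure ((fun (v : Lp ℂ ∞ μ) (h : Lp ℂ 1 μ) => pair μ v h) '' M) := by
      exact closure_induced
    rw [h1, mem_closure_iff]
    intro o ho huo
    obtain ⟨I, U, hU1, hU2⟩ := isOpen_pi_iff.mp ho _ huo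
    classical
    -- exact solution on the finite set
    let T : Lp ℂ ∞ μ →ₗ[ℂ] (I → ℂ) := LinearMap.pi (fun i => (pair μ).flip i.1)
    have hT : T u ∈ M.map T := by
      by_contra hne
      obtain ⟨f, hf1, hf2⟩ := Submodule.exists_le_ker_of_notMem hne
      apply hf1
      have hrep : ∀ v : Lp ℂ ∞ μ, f (T v) = pair μ v (∑ i : I, f (Pi.single i 1) • (i : Lp ℂ 1 μ)) := by
        intro v
        rw [map_sum]
        rw [LinearMap.pi_apply_eq_sum_univ f (T v)]
        apply Finset.sum_congr rfl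
        intro i _
        rw [map_smul, smul_eq_mul, smul_eq_mul, mul_comm]
        congr 1
        congr 1
        funext j
        simp [Pi.single_apply, eq_comm]
      rw [hrep]
      apply H
      intro v hv
      rw [← hrep]
      exact hf2 (Submodule.mem_map_of_mem hv)
    obtain ⟨v, hv, hvu⟩ := hT
    refine ⟨fun h => pair μ v h, hU2 ?_, v, hv, rfl⟩
    intro h hh
    have h2 : pair μ v h = pair μ u h := congrFun hvu ⟨h, hh⟩
    show pair μ v h ∈ U h
    rw [h2]
    exact (hU1 h hh).2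

/-- The weak-star closure of a subspace, as a subspace. -/
noncomputable def wcl (M : Submodule ℂ (Lp ℂ ∞ μ)) : Submodule ℂ (Lp ℂ ∞ μ) where
  carrier := @closure _ (weakStar μ) (M : Set (Lp ℂ ∞ μ))
  add_mem' := by
    intro u v hu hv
    rw [mem_closure_iff_pair] at hu hv ⊢
    intro h hh
    rw [map_add, LinearMap.add_apply, hu h hh, hv h hh, add_zero]
  zero_mem' := by
    rw [mem_closure_iff_pair]
    intro h _
    rw [map_zero, LinearMap.zero_apply]
  smul_mem' := by
    intro c u hu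
    rw [mem_closure_iff_pair] at hu ⊢
    intro h hh
    rw [map_smul, LinearMap.smul_apply, hu h hh, smul_zero]

lemma mem_wcl (M : Submodule ℂ (Lp ℂ ∞ μ)) (u : Lp ℂ ∞ μ) :
    u ∈ wcl μ M ↔ ∀ h : Lp ℂ 1 μ, (∀ v ∈ M, pair μ v h = 0) → pair μ u h = 0 :=
  mem_closure_iff_pair μ M u

lemma wcl_closed (M : Submodule ℂ (Lp ℂ ∞ μ)) : IsClosed (wcl μ M : Set (Lp ℂ ∞ μ)) := by
  have h1 : (wcl μ M : Set (Lp ℂ ∞ μ)) =
      ⋂ (h : Lp ℂ 1 μ) (_ : ∀ v ∈ M, pair μ v h = 0), {u | pair μ u h = 0} := by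
    ext u
    simp only [mem_iInter, SetLike.mem_coe, mem_wcl, Set.mem_ofPred_eq]
  rw [h1]
  apply isClosed_iInter
  intro h
  apply isClosed_iInter
  intro _
  apply isClosed_eq _ continuous_const
  have := (LinearMap.mkContinuous ((pair μ).flip h) ‖h‖ (fun u => by
    rw [mul_comm]; exact pair_norm μ u h)).continuous
  exact this

end bipolar

end Pool.Agent.Helper882.UniformAlgebra
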