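import Pool.Agent.Helper882.UniformAlgebra

set_option autoImplicit false
set_option linter.unusedSectionVars false

open MeasureTheory Set Topology Filter
open scoped NNReal ENNReal

namespace Pool.Agent.Helper882.UniformAlgebra

/-- The circle, parametrized by the reals modulo 1. -/
abbrev TT := UnitAddCircle

lemma integral_fourier (n : ℤ) (hn : n ≠ 0) : ∫ x : TT, fourier n x = 0 := by
  have h1 := integral_add_right_eq_self (μ := (volume : Measure TT)) (fun x : TT => (fourier n x : ℂ))
    (((1 / 2 / n : ℝ)) : TT)
  have h2 : ∀ x : TT, (fourier n (x + (((1 / 2 / n : ℝ)) : TT)) : ℂ) = - fourier n x := by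
    intro x
    exact fourier_add_half_inv_index hn one_pos x
  simp_rw [h2] at h1
  rw [integral_neg] at h1
  have h3 : (2 : ℂ) * ∫ x : TT, fourier n x = 0 := by linear_combination (-1 : ℂ) * h1
  rcases mul_eq_zero.mp h3 with h | h
  · norm_num at h
  · exact h

/-- uniqueness of measures on the circle from Fourier coefficients -/
lemma fourier_ext (ρ ρ' : Measure TT) [IsFiniteMeasure ρ] [IsFiniteMeasure ρ']
    (h : ∀ n : ℤ, ∫ x, fourier n x ∂ρ = ∫ x, fourier n x ∂ρ') : ρ = ρ' := by
  have hint : ∀ (g : C(TT, ℂ)) (m : Measure TT) [IsFiniteMeasure m], Integrable (fun x => g x) m := by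
    intro g m _
    exact (BoundedContinuousFunction.mkOfCompact g).integrable m
  have hlin : ∀ (m : Measure TT) [IsFiniteMeasure m], Continuous (fun g : C(TT, ℂ) => ∫ x, g x ∂m) := by
    intro m _
    have : ∀ g g' : C(TT, ℂ), dist (∫ x, g x ∂m) (∫ x, g' x ∂m) ≤ (m.real univ) * dist g g' := by
      intro g g'
      rw [dist_eq_norm, ← integral_sub (hint g m) (hint g' m)]
      refine le_trans (norm_integral_le_of_norm_le_const (C := dist g g') ?_) ?_
      · apply Eventually.of_forall
        intro x
        rw [← dist_eq_norm]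
        exact ContinuousMap.dist_apply_le_dist x
      · rw [mul_comm]
    apply (LipschitzWith.of_dist_le_mul (K := (m.real univ).toNNReal) ?_).continuous
    intro g g'
    rw [Real.coe_toNNReal _ measureReal_nonneg]
    exact this g g'
  have hall : ∀ g : C(TT, ℂ), ∫ x, g x ∂ρ = ∫ x, g x ∂ρ' := by
    intro g
    have hclosed : IsClosed {g : C(TT, ℂ) | ∫ x, g x ∂ρ = ∫ x, g x ∂ρ'} :=
      isClosed_eq (hlin ρ) (hlin ρ')
    have hspan : (Submodule.span ℂ (Set.range (fourier (T := 1))) : Set C(TT, ℂ)) ⊆
        {g : C(TT, ℂ) | ∫ x, g x ∂ρ = ∫ x, g x ∂ρ'} := by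
      intro g hg
      induction hg using Submodule.span_induction with
      | mem x hx => obtain ⟨n, rfl⟩ := hx; exact h n
      | zero => simp
      | add x y _ _ hx hy =>
        show ∫ t, x t + y t ∂ρ = ∫ t, x t + y t ∂ρ'
        rw [integral_add (hint x ρ) (hint y ρ), integral_add (hint x ρ') (hint y ρ')]
        rw [show ∫ t, x t ∂ρ = ∫ t, x t ∂ρ' from hx, show ∫ t, y t ∂ρ = ∫ t, y t ∂ρ' from hy]
      | smul c x _ hx =>
        show ∫ t, c * x t ∂ρ = ∫ t, c * x t ∂ρ'
        rw [integral_const_mul, integral_const_mul]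
        rw [show ∫ t, x t ∂ρ = ∫ t, x t ∂ρ' from hx]
    have hg : g ∈ (Submodule.span ℂ (Set.range (fourier (T := 1)))).topologicalClosure := by
      rw [span_fourier_closure_eq_top]; trivial
    exact closure_minimal hspan hclosed hg
  apply ext_of_forall_integral_eq_of_IsFiniteMeasure
  intro f
  let g : C(TT, ℂ) := ⟨fun x => (f x : ℂ), Complex.continuous_ofReal.comp f.continuous⟩
  have h1 := hall g
  have h2 : ∀ m : Measure TT, ∫ x, g x ∂m = ((∫ x, f x ∂m : ℝ) : ℂ) := by
    intro m
    exact integral_ofReal
  rw [h2, h2] at h1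
  exact_mod_cast h1

/-- measures with the same positive Fourier coefficients differ by a multiple of Lebesgue measure -/
lemma fourier_ext_pos (ρ ρ' : Measure TT) [IsFiniteMeasure ρ] [IsFiniteMeasure ρ']
    (h : ∀ n : ℕ, 1 ≤ n → ∫ x, fourier (n : ℤ) x ∂ρ = ∫ x, fourier (n : ℤ) x ∂ρ') :
    ρ + ENNReal.ofReal (ρ'.real univ - ρ.real univ) • (volume : Measure TT) =
      ρ' + ENNReal.ofReal (ρ.real univ - ρ'.real univ) • (volume : Measure TT) := by
  have hint : ∀ (n : ℤ) (m : Measure TT) [IsFiniteMeasure m],
      Integrable (fun x => (fourier n x : ℂ)) m := by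
    intro n m _
    exact (BoundedContinuousFunction.mkOfCompact (fourier n)).integrable m
  have : ∀ c : ℝ, IsFiniteMeasure (ENNReal.ofReal c • (volume : Measure TT)) := by
    intro c
    constructor
    rw [Measure.smul_apply, smul_eq_mul]
    exact ENNReal.mul_lt_top ENNReal.ofReal_lt_top (measure_lt_top _ _)
  have h1 := this (ρ'.real univ - ρ.real univ)
  have h2 := this (ρ.real univ - ρ'.real univ)
  apply fourier_ext
  intro n
  rw [integral_add_measure (hint n _) (hint n _), integral_add_measure (hint n _) (hint n _)]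
  rw [integral_smul_measure, integral_smul_measure]
  rcases lt_trichotomy n 0 with hn | hn | hn
  · rw [integral_fourier n hn.ne, smul_zero, smul_zero, add_zero, add_zero]
    obtain ⟨k, hk⟩ : ∃ k : ℕ, n = -(k : ℤ) := ⟨n.natAbs, by omega⟩
    have hk1 : 1 ≤ k := by omega
    have h3 : ∀ m : Measure TT, ∫ x, (fourier n x : ℂ) ∂m
        = (starRingEnd ℂ) (∫ x, (fourier (k : ℤ) x : ℂ) ∂m) := by
      intro m
      rw [← integral_conj]
      congr 1
      ext x
      rw [hk]
      exact fourier_neg
    rw [h3, h3, h k hk1]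
  · subst hn
    have h3 : ∀ m : Measure TT, ∫ x, (fourier 0 x : ℂ) ∂m = m.real univ := by
      intro m
      simp
    rw [h3, h3, h3]
    have h4 : (volume : Measure TT).real univ = 1 := by
      rw [measureReal_def, UnitAddCircle.measure_univ]; rfl
    rw [h4]
    simp only [Complex.real_smul, Complex.ofReal_one, mul_one]
    rw [ENNReal.toReal_ofReal', ENNReal.toReal_ofReal']
    norm_cast
    rcases le_total (ρ'.real univ) (ρ.real univ) with h5 | h5
    · rw [max_eq_right (by linarith), max_eq_left (by linarith)]; ring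
    · rw [max_eq_left (by linarith), max_eq_right (by linarith)]; ring
  · rw [integral_fourier n hn.ne', smul_zero, smul_zero, add_zero, add_zero]
    obtain ⟨k, hk⟩ : ∃ k : ℕ, n = (k : ℤ) := ⟨n.natAbs, by omega⟩
    rw [hk]
    exact h k (by omega)


section circles

variable {ι : Type} [DecidableEq ι]

/-- The `i`-th coordinate circle in the polydisc: the point whose `i`-th coordinate is
`exp (2 π i x)` and whose other coordinates vanish. -/
noncomputable def circ (i : ι) (x : TT) : PolyDisc ι := fun j =>
  if j = i then ⟨fourier 1 x, by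
    rw [mem_closedBall_zero_iff, fourier_apply]; exact (Circle.norm_coe _).le⟩
  else ⟨0, by simp⟩

lemma coord_circ (k i : ι) (x : TT) : coord k (circ i x) = if k = i then fourier 1 x else 0 := by
  show ((circ i x k : Metric.closedBall (0 : ℂ) 1) : ℂ) = _
  unfold circ
  split_ifs <;> rfl

lemma circ_continuous (i : ι) : Continuous (circ i) := by
  apply continuous_pi
  intro j
  rw [continuous_induced_rng]
  have : (Subtype.val ∘ fun a => circ i a j) = fun x => if j = i then (fourier 1 x : ℂ) else 0 := by
    funext x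
    exact coord_circ j i x
  rw [this]
  split_ifs
  · exact (fourier 1).continuous
  · exact continuous_const

lemma circ_injective (i : ι) : Function.Injective (circ i) := by
  intro x y hxy
  have h1 : coord i (circ i x) = coord i (circ i y) := by rw [hxy]
  rw [coord_circ, coord_circ, if_pos rfl, if_pos rfl, fourier_apply, fourier_apply, one_zsmul,
    one_zsmul] at h1
  exact AddCircle.injective_toCircle one_ne_zero (Subtype.ext h1)

lemma fourier_one_ne_zero (x : TT) : (fourier 1 x : ℂ) ≠ 0 := by
  rw [fourier_apply]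
  exact Circle.coe_ne_zero _

lemma circ_disjoint {i j : ι} (hij : i ≠ j) : Disjoint (range (circ i)) (range (circ j)) := by
  rw [Set.disjoint_left]
  rintro _ ⟨x, rfl⟩ ⟨y, hy⟩
  have h1 : coord i (circ j y) = coord i (circ i x) := by rw [hy]
  rw [coord_circ, coord_circ, if_neg hij, if_pos rfl] at h1
  exact fourier_one_ne_zero x h1.symm

lemma coord_circ_pow (k i : ι) (n : ℕ) (hn : 1 ≤ n) (x : TT) :
    (coord k ^ n : C(PolyDisc ι, ℂ)) (circ i x) = if k = i then fourier (n : ℤ) x else 0 := by
  show (coord k (circ i x)) ^ n = _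
  rw [coord_circ]
  split_ifs
  · clear hn
    induction n with
    | zero => simp
    | succ n ih =>
      rw [pow_succ, ih]
      push_cast
      rw [fourier_add]
  · exact zero_pow (by omega)

/-- mean value property -/
lemma mean_value (i : ι) (f : C(PolyDisc ι, ℂ)) (hf : f ∈ polyAlg ι) :
    ∫ x : TT, f (circ i x) = f (fun _ => ⟨0, by simp⟩) := by
  set o : PolyDisc ι := fun _ => ⟨0, by simp⟩ with ho
  let c : C(TT, PolyDisc ι) := ⟨circ i, circ_continuous i⟩
  have hint : ∀ g : C(TT, ℂ), Integrable (fun x => g x) (volume : Measure TT) := fun g =>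
    (BoundedContinuousFunction.mkOfCompact g).integrable _
  have hclosed : IsClosed {f : C(PolyDisc ι, ℂ) | ∫ x : TT, f (circ i x) = f o} := by
    apply isClosed_eq
    · have h1 : Continuous (fun f : C(PolyDisc ι, ℂ) => f.comp c) := ContinuousMap.continuous_precomp c
      have h2 : Continuous (fun g : C(TT, ℂ) => ∫ x : TT, g x) := by
        have : ∀ g g' : C(TT, ℂ), dist (∫ x : TT, g x) (∫ x : TT, g' x) ≤
            ((volume : Measure TT).real univ) * dist g g' := by
          intro g g'
          rw [dist_eq_norm, ← integral_sub (hint g) (hint g')]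
          refine le_trans (norm_integral_le_of_norm_le_const (C := dist g g') ?_) ?_
          · apply Eventually.of_forall
            intro x
            rw [← dist_eq_norm]
            exact ContinuousMap.dist_apply_le_dist x
          · rw [mul_comm]
        apply (LipschitzWith.of_dist_le_mul (K := ((volume : Measure TT).real univ).toNNReal) ?_).continuous
        intro g g'
        rw [Real.coe_toNNReal _ measureReal_nonneg]
        exact this g g'
      exact h2.comp h1
    · exact (ContinuousMap.evalCLM ℂ o).continuous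
  have hpoly : ∀ p : Polynomial ℂ, ∫ x : TT, p.eval (fourier 1 x : ℂ) = p.eval 0 := by
    intro p
    have hpi : ∀ p : Polynomial ℂ, Integrable (fun x : TT => p.eval (fourier 1 x : ℂ)) volume := by
      intro p
      exact hint ⟨fun x => p.eval (fourier 1 x : ℂ), p.continuous.comp (fourier 1).continuous⟩
    induction p using Polynomial.induction_on' with
    | add p q hp hq =>
      simp only [Polynomial.eval_add]
      rw [integral_add (hpi p) (hpi q), hp, hq]
    | monomial n a =>
      simp only [Polynomial.eval_monomial]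
      rw [integral_const_mul]
      rcases Nat.eq_zero_or_pos n with h0 | h0
      · subst h0
        have h5 : (volume : Measure TT).real univ = 1 := by
          rw [measureReal_def, UnitAddCircle.measure_univ]; rfl
        simp [h5]
      · have h2 : ∀ x : TT, (fourier 1 x : ℂ) ^ n = fourier (n : ℤ) x := by
          intro x
          have := coord_circ_pow i i n h0 x
          rw [if_pos rfl] at this
          rw [← this]
          show _ = (coord i (circ i x)) ^ n
          rw [coord_circ, if_pos rfl]
        simp_rw [h2]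
        rw [integral_fourier _ (by omega), mul_zero, zero_pow (by omega), mul_zero]
  have hadj : ∀ f, f ∈ Algebra.adjoin ℂ (Set.range (coord (ι := ι))) →
      ∃ p : Polynomial ℂ, (∀ x, f (circ i x) = p.eval (fourier 1 x : ℂ)) ∧ f o = p.eval 0 := by
    intro f hf
    induction hf using Algebra.adjoin_induction with
    | mem x hx =>
      obtain ⟨k, rfl⟩ := hx
      by_cases h : k = i
      · refine ⟨Polynomial.X, fun x => ?_, ?_⟩
        · rw [coord_circ, if_pos h, Polynomial.eval_X]
        · rw [Polynomial.eval_X]; rfl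
      · refine ⟨0, fun x => ?_, ?_⟩
        · rw [coord_circ, if_neg h, Polynomial.eval_zero]
        · rw [Polynomial.eval_zero]; rfl
    | algebraMap r =>
      refine ⟨Polynomial.C r, fun x => ?_, ?_⟩
      · rw [Polynomial.eval_C]; rfl
      · rw [Polynomial.eval_C]; rfl
    | add x y _ _ hx hy =>
      obtain ⟨p, hp1, hp2⟩ := hx
      obtain ⟨q, hq1, hq2⟩ := hy
      refine ⟨p + q, fun t => ?_, ?_⟩
      · rw [Polynomial.eval_add, ← hp1, ← hq1]; rfl
      · rw [Polynomial.eval_add, ← hp2, ← hq2]; rfl
    | mul x y _ _ hx hy =>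
      obtain ⟨p, hp1, hp2⟩ := hx
      obtain ⟨q, hq1, hq2⟩ := hy
      refine ⟨p * q, fun t => ?_, ?_⟩
      · rw [Polynomial.eval_mul, ← hp1, ← hq1]; rfl
      · rw [Polynomial.eval_mul, ← hp2, ← hq2]; rfl
  have hsub : (Algebra.adjoin ℂ (Set.range (coord (ι := ι))) : Set C(PolyDisc ι, ℂ)) ⊆
      {f : C(PolyDisc ι, ℂ) | ∫ x : TT, f (circ i x) = f o} := by
    intro f hf
    obtain ⟨p, hp1, hp2⟩ := hadj f hf
    show ∫ x : TT, f (circ i x) = f o
    simp_rw [hp1]
    rw [hp2, hpoly]
  exact closure_minimal hsub hclosed hf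

variable [Countable ι]

lemma circ_embedding (i : ι) : MeasurableEmbedding (circ i) :=
  ((circ_continuous i).isClosedEmbedding (circ_injective i)).measurableEmbedding

/-- The measure on the polydisc obtained by putting the measure `ω i` on the `i`-th circle. -/
noncomputable def PP (ω : ι → Measure TT) : Measure (PolyDisc ι) :=
  Measure.sum fun i => (ω i).map (circ i)

lemma PP_apply (ω : ι → Measure TT) (E : Set (PolyDisc ι)) (hE : MeasurableSet E) :
    PP ω E = ∑' i, ω i (circ i ⁻¹' E) := by
  unfold PP
  rw [Measure.sum_apply _ hE]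
  congr 1
  funext i
  rw [(circ_embedding i).map_apply]

lemma PP_comap (ω : ι → Measure TT) (k : ι) : (PP ω).comap (circ k) = ω k := by
  ext E hE
  rw [(circ_embedding k).comap_apply, PP_apply _ _ ((circ_embedding k).measurableSet_image.mpr hE)]
  rw [tsum_eq_single k]
  · rw [Set.preimage_image_eq _ (circ_injective k)]
  · intro j hj
    have : circ j ⁻¹' (circ k '' E) = ∅ := by
      rw [Set.eq_empty_iff_forall_notMem]
      rintro x ⟨y, _, hy⟩
      exact Set.disjoint_left.mp (circ_disjoint hj) ⟨x, rfl⟩ ⟨y, hy⟩
    rw [this, measure_empty]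

lemma PP_compl (ω : ι → Measure TT) : PP ω (⋃ i, range (circ i))ᶜ = 0 := by
  rw [PP_apply]
  · rw [ENNReal.tsum_eq_zero]
    intro i
    have : circ i ⁻¹' (⋃ i, range (circ (ι := ι) i))ᶜ = ∅ := by
      rw [Set.eq_empty_iff_forall_notMem]
      intro x hx
      exact hx (mem_iUnion.mpr ⟨i, ⟨x, rfl⟩⟩)
    rw [this, measure_empty]
  · exact (MeasurableSet.iUnion fun i => (circ_embedding i).measurableSet_range).compl

lemma eq_PP (ν : Measure (PolyDisc ι)) (h : ν (⋃ i, range (circ i))ᶜ = 0) :
    ν = PP (fun k => ν.comap (circ k)) := by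
  have h1 : ν.restrict (⋃ i, range (circ i)) = ν := by
    apply Measure.restrict_eq_self_of_ae_mem
    rw [ae_iff]
    exact h
  have h2 := Measure.restrict_iUnion (μ := ν) (s := fun i : ι => range (circ i))
    (fun i j hij => circ_disjoint hij) (fun i => (circ_embedding i).measurableSet_range)
  rw [h1] at h2
  conv_lhs => rw [h2]
  unfold PP
  congr 1
  funext i
  rw [(circ_embedding i).map_comap]

lemma finite_comap (ν : Measure (PolyDisc ι)) [IsFiniteMeasure ν] (k : ι) :
    IsFiniteMeasure (ν.comap (circ k)) := by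
  constructor
  rw [(circ_embedding k).comap_apply]
  exact measure_lt_top _ _

lemma integral_PP (ω : ι → Measure TT) [IsFiniteMeasure (PP ω)] (f : C(PolyDisc ι, ℂ)) :
    ∫ s, f s ∂(PP ω) = ∑' i, ∫ x, f (circ i x) ∂(ω i) := by
  unfold PP
  rw [integral_sum_measure]
  · congr 1
    funext i
    rw [(circ_embedding i).integral_map]
  · exact (BoundedContinuousFunction.mkOfCompact f).integrable (PP ω)

lemma integral_PP_pow (ω : ι → Measure TT) [IsFiniteMeasure (PP ω)] (k : ι) (n : ℕ) (hn : 1 ≤ n) :
    ∫ s, (coord k ^ n : C(PolyDisc ι, ℂ)) s ∂(PP ω) = ∫ x, fourier (n : ℤ) x ∂(ω k) := by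
  rw [integral_PP, tsum_eq_single k]
  · congr 1
    funext x
    rw [coord_circ_pow k k n hn x, if_pos rfl]
  · intro j hj
    have : ∀ x, (coord k ^ n : C(PolyDisc ι, ℂ)) (circ j x) = 0 := by
      intro x
      rw [coord_circ_pow k j n hn x, if_neg (Ne.symm hj)]
    simp_rw [this]
    exact integral_zero _ _

/-- Two measures on the union of the circles which agree on the polydisc algebra have circle
components which differ by multiples of Lebesgue measure. -/
lemma coef (ω : ι → Measure TT) [IsFiniteMeasure (PP ω)] (ν : Measure (PolyDisc ι))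
    [IsFiniteMeasure ν] (hac : ν ≪ PP ω)
    (heq : ∀ f ∈ polyAlg ι, ∫ s, f s ∂ν = ∫ s, f s ∂(PP ω)) (k : ι) :
    ν.comap (circ k) + ENNReal.ofReal ((ω k).real univ - (ν.comap (circ k)).real univ) •
        (volume : Measure TT) =
      ω k + ENNReal.ofReal ((ν.comap (circ k)).real univ - (ω k).real univ) •
        (volume : Measure TT) := by
  have h0 : ν = PP (fun k => ν.comap (circ k)) := eq_PP ν (hac (PP_compl ω))
  have hf1 := finite_comap ν k
  have hf2 : IsFiniteMeasure (ω k) := by
    rw [← PP_comap ω k]; exact finite_comap _ k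
  apply fourier_ext_pos
  intro n hn
  have h1 := heq (coord k ^ n) (Subalgebra.pow_mem _ (coord_mem k) n)
  rw [integral_PP_pow ω k n hn] at h1
  have hfin : IsFiniteMeasure (PP (fun k => ν.comap (circ k))) := by rw [← h0]; infer_instance
  have h2 := integral_PP_pow (fun k => ν.comap (circ k)) k n hn
  rw [← h0] at h2
  rw [← h2, h1]

end circles

end Pool.Agent.Helper882.UniformAlgebra
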