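import Pool.Agent.Helper882.Circles

set_option autoImplicit false
set_option linter.unusedSectionVars false

open MeasureTheory Set Topology Filter
open scoped NNReal ENNReal

namespace Pool.Agent.Helper882.UniformAlgebra

section defs

variable {S : Type} [TopologicalSpace S] [CompactSpace S] [MeasurableSpace S] [BorelSpace S]

/-- Two finite measures are equivalent relative to `A` if they have the same integrals against
every function in `A`. -/
def Equivalent (A : Subalgebra ℂ C(S, ℂ)) (μ ν : FiniteMeasure S) : Prop :=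
  ∀ f ∈ A, ∫ s, f s ∂(μ : Measure S) = ∫ s, f s ∂(ν : Measure S)

/-- The set `E(μ)` of regular measures which are absolutely continuous with respect to `μ` and
equivalent to `μ`. -/
def EE (A : Subalgebra ℂ C(S, ℂ)) (μ : FiniteMeasure S) : Set (FiniteMeasure S) :=
  {ν | (ν : Measure S).Regular ∧ (ν : Measure S) ≪ (μ : Measure S) ∧ Equivalent A ν μ}

/-- The closure `K(μ)` of `E(μ)` in the space of regular measures with the weak topology induced
by the continuous functions. -/
def KK (A : Subalgebra ℂ C(S, ℂ)) (μ : FiniteMeasure S) : Set (FiniteMeasure S) :=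
  {ν | (ν : Measure S).Regular ∧ ν ∈ closure (EE A μ)}

/-- `μ` is extremal if it is an extreme point of `K(μ)`. -/
def Extremal (A : Subalgebra ℂ C(S, ℂ)) (μ : FiniteMeasure S) : Prop :=
  μ ∈ Set.extremePoints ℝ≥0 (KK A μ)

/-- The functions `f + conj g` with `f, g` in `A`, as elements of `L^p(μ)`. -/
def sumSet (A : Subalgebra ℂ C(S, ℂ)) (μ : Measure S) (p : ℝ≥0∞) : Set (Lp ℂ p μ) :=
  {u | ∃ f ∈ A, ∃ g ∈ A, ⇑u =ᵐ[μ] fun s => f s + (starRingEnd ℂ) (g s)}

/-- The weak-star topology on `L^∞(μ)` induced by `L^1(μ)`. -/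
@[reducible] noncomputable def weakStar (μ : Measure S) : TopologicalSpace (Lp ℂ ∞ μ) :=
  TopologicalSpace.induced (fun u (h : Lp ℂ 1 μ) => ∫ s, u s * h s ∂μ) inferInstance

lemma induced_pi_cont {X Y : Type*} (F : X → Y → ℂ) (k : Y) :
    @Continuous X ℂ (TopologicalSpace.induced F inferInstance) _ (fun u => F u k) := by
  let _ : TopologicalSpace X := TopologicalSpace.induced F inferInstance
  have h1 : Continuous F := continuous_induced_dom
  have h2 : Continuous (fun g : Y → ℂ => g k) := continuous_apply k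
  exact h2.comp h1

lemma weakStar_cont (μ : Measure S) (k : Lp ℂ 1 μ) :
    @Continuous (Lp ℂ ∞ μ) ℂ (weakStar μ) _ (fun u => ∫ s, u s * k s ∂μ) :=
  induced_pi_cont (fun (u : Lp ℂ ∞ μ) (h : Lp ℂ 1 μ) => ∫ s, u s * h s ∂μ) k

lemma equiv_of_KK (A : Subalgebra ℂ C(S, ℂ)) (μ ν : FiniteMeasure S) (h : ν ∈ KK A μ) :
    Equivalent A ν μ := by
  intro f hf
  have hcl : IsClosed {ν : FiniteMeasure S | ∫ s, f s ∂(ν : Measure S) = ∫ s, f s ∂(μ : Measure S)} := by
    apply isClosed_eq _ continuous_const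
    let fr : BoundedContinuousFunction S ℝ := BoundedContinuousFunction.mkOfCompact
      ⟨fun s => (f s).re, Complex.continuous_re.comp f.continuous⟩
    let fi : BoundedContinuousFunction S ℝ := BoundedContinuousFunction.mkOfCompact
      ⟨fun s => (f s).im, Complex.continuous_im.comp f.continuous⟩
    have h1 : ∀ ν : FiniteMeasure S, ∫ s, f s ∂(ν : Measure S) =
        ((∫ s, fr s ∂(ν : Measure S) : ℝ) : ℂ) + ((∫ s, fi s ∂(ν : Measure S) : ℝ) : ℂ) * Complex.I := by
      intro ν
      have hint : Integrable (fun s => f s) (ν : Measure S) :=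
        (BoundedContinuousFunction.mkOfCompact f).integrable _
      exact (integral_re_add_im hint).symm
    simp_rw [h1]
    apply Continuous.add
    · exact Complex.continuous_ofReal.comp
        (FiniteMeasure.continuous_integral_boundedContinuousFunction fr)
    · exact (Complex.continuous_ofReal.comp
        (FiniteMeasure.continuous_integral_boundedContinuousFunction fi)).mul continuous_const
  have hsub : EE A μ ⊆ {ν : FiniteMeasure S | ∫ s, f s ∂(ν : Measure S) = ∫ s, f s ∂(μ : Measure S)} :=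
    fun ν hν => hν.2.2 f hf
  exact closure_minimal hsub hcl h.2

lemma self_mem_EE (A : Subalgebra ℂ C(S, ℂ)) (μ : FiniteMeasure S) (hr : (μ : Measure S).Regular) :
    μ ∈ EE A μ := ⟨hr, Measure.AbsolutelyContinuous.refl _, fun _ _ => rfl⟩

lemma self_mem_KK (A : Subalgebra ℂ C(S, ℂ)) (μ : FiniteMeasure S) (hr : (μ : Measure S).Regular) :
    μ ∈ KK A μ := ⟨hr, subset_closure (self_mem_EE A μ hr)⟩

/-- Criterion for extremality. -/
lemma extremal_of (A : Subalgebra ℂ C(S, ℂ)) (μ : FiniteMeasure S) (hr : (μ : Measure S).Regular)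
    (h : ∀ ν : FiniteMeasure S, Equivalent A ν μ → ∀ C : ℝ≥0, (ν : Measure S) ≤ C • (μ : Measure S) →
      ν = μ) : Extremal A μ := by
  refine ⟨self_mem_KK A μ hr, ?_⟩
  have key : ∀ x₁ ∈ KK A μ, ∀ x₂ : FiniteMeasure S, ∀ a b : ℝ≥0, 0 < a → a • x₁ + b • x₂ = μ → x₁ = μ := by
    intro x₁ h1 x₂ a b ha hab
    apply h x₁ (equiv_of_KK A μ x₁ h1) a⁻¹
    have h2 : (a : ℝ≥0) • (x₁ : Measure S) ≤ (μ : Measure S) := by
      rw [← hab, FiniteMeasure.toMeasure_add, FiniteMeasure.toMeasure_smul]
      exact Measure.le_add_right le_rfl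
    calc (x₁ : Measure S) = a⁻¹ • (a • (x₁ : Measure S)) := by
          rw [smul_smul, inv_mul_cancel₀ ha.ne', one_smul]
      _ ≤ a⁻¹ • (μ : Measure S) := by
          gcongr
  intro x₁ h1 x₂ h2 hseg
  obtain ⟨a, b, ha, hb, _, hab⟩ := hseg
  exact key x₁ h1 x₂ a b ha hab

end defs

/-- Hahn-Banach for a subspace and a point outside its closure. -/
lemma hahn_banach_sub {E : Type*} [NormedAddCommGroup E] [NormedSpace ℂ E] (M : Submodule ℂ E)
    (x : E) (hx : x ∉ closure (M : Set E)) : ∃ φ : StrongDual ℂ E, (∀ m ∈ M, φ m = 0) ∧ φ x ≠ 0 := by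
  let _ : NormedSpace ℝ E := NormedSpace.restrictScalars ℝ ℂ E
  have hconv : Convex ℝ (closure (M : Set E)) := by
    apply Convex.closure
    exact (M.restrictScalars ℝ).convex
  obtain ⟨f, u, h1, h2⟩ := RCLike.geometric_hahn_banach_closed_point (𝕜 := ℂ) hconv isClosed_closure hx
  have h0 : ∀ m ∈ M, f m = 0 := by
    intro m hm
    by_contra hne
    -- choose a multiple with large real part
    have h3 : ∀ c : ℂ, (f (c • m)).re < u := fun c => h1 _ (subset_closure (M.smul_mem c hm))
    have h4 := h3 ((|u| + 1 : ℝ) * (f m)⁻¹)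
    rw [map_smul, smul_eq_mul, mul_assoc, inv_mul_cancel₀ hne, mul_one, Complex.ofReal_re] at h4
    have := le_abs_self u
    linarith
  refine ⟨f, h0, ?_⟩
  intro hfx
  have h5 : RCLike.re (f 0) < u := h1 0 (subset_closure M.zero_mem)
  rw [map_zero] at h5
  have h6 : u < RCLike.re (f x) := h2
  rw [hfx] at h6
  exact lt_irrefl _ (h5.trans h6)

end Pool.Agent.Helper882.UniformAlgebra
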