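import Pool.Agent.Helper882.Small

set_option autoImplicit false
set_option linter.unusedSectionVars false

open MeasureTheory Set Topology Filter
open scoped NNReal ENNReal

namespace Pool.Agent.Helper882.UniformAlgebra

section density

variable {S : Type} [TopologicalSpace S] [CompactSpace S] [MeasurableSpace S] [BorelSpace S]

/-- The set of functions `f + conj g` as a linear subspace. -/
def sumSub (A : Subalgebra ℂ C(S, ℂ)) (μ : Measure S) (p : ℝ≥0∞) :
    Submodule ℂ (Lp ℂ p μ) where
  carrier := sumSet A μ p
  add_mem' := by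
    rintro u v ⟨f, hf, g, hg, h1⟩ ⟨f', hf', g', hg', h2⟩
    refine ⟨f + f', A.add_mem hf hf', g + g', A.add_mem hg hg', ?_⟩
    filter_upwards [h1, h2, Lp.coeFn_add u v] with s hs1 hs2 hs3
    rw [hs3, Pi.add_apply, hs1, hs2]
    simp only [ContinuousMap.add_apply, map_add]
    ring
  zero_mem' := by
    refine ⟨0, A.zero_mem, 0, A.zero_mem, ?_⟩
    filter_upwards [Lp.coeFn_zero ℂ p μ] with s hs
    rw [hs]
    simp
  smul_mem' := by
    rintro c u ⟨f, hf, g, hg, h1⟩
    refine ⟨c • f, A.smul_mem hf c, (starRingEnd ℂ c) • g, A.smul_mem hg _, ?_⟩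
    filter_upwards [h1, Lp.coeFn_smul c u] with s hs1 hs2
    rw [hs2, Pi.smul_apply, hs1]
    simp only [ContinuousMap.smul_apply, smul_eq_mul, map_mul, Complex.conj_conj]
    ring

end density

section circles

lemma continuous_integral (m : Measure TT) [IsFiniteMeasure m] :
    Continuous (fun g : C(TT, ℂ) => ∫ x, g x ∂m) := by
  have hint : ∀ g : C(TT, ℂ), Integrable (fun x => g x) m := fun g =>
    (BoundedContinuousFunction.mkOfCompact g).integrable m
  have : ∀ g g' : C(TT, ℂ), dist (∫ x, g x ∂m) (∫ x, g' x ∂m) ≤ (m.real univ) * dist g g' := by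
    intro g g'
    rw [dist_eq_norm, ← integral_sub (hint g) (hint g')]
    refine le_trans (norm_integral_le_of_norm_le_const (C := dist g g') ?_) ?_
    · apply Eventually.of_forall
      intro x
      rw [← dist_eq_norm]
      exact ContinuousMap.dist_apply_le_dist x
    · rw [mul_comm]
  apply (LipschitzWith.of_dist_le_mul (K := (m.real univ).toNNReal) ?_).continuous
  intro g g'
  rw [Real.coe_toNNReal _ measureReal_nonneg]
  exact this g g'

variable {ι : Type} [DecidableEq ι]

/-- extension by zero of a function on the i-th circle -/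
noncomputable def extz (i : ι) (a : C(TT, ℂ)) : PolyDisc ι → ℂ := Function.extend (circ i) a 0

lemma extz_circ (i : ι) (a : C(TT, ℂ)) (x : TT) : extz i a (circ i x) = a x :=
  (circ_injective i).extend_apply a 0 x

lemma extz_circ_ne (i j : ι) (hij : j ≠ i) (a : C(TT, ℂ)) (x : TT) : extz i a (circ j x) = 0 := by
  have : ¬ ∃ y, circ i y = circ j x := by
    rintro ⟨y, hy⟩
    exact Set.disjoint_left.mp (circ_disjoint hij) ⟨x, rfl⟩ ⟨y, hy⟩
  exact Function.extend_apply' a (0 : PolyDisc ι → ℂ) (circ j x) this

lemma extz_bound (i : ι) (a : C(TT, ℂ)) (s : PolyDisc ι) : ‖extz i a s‖ ≤ ‖a‖ := by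
  by_cases h : ∃ y, circ i y = s
  · obtain ⟨y, rfl⟩ := h
    rw [extz_circ]
    exact a.norm_coe_le_norm y
  · have : extz i a s = 0 := Function.extend_apply' a (0 : PolyDisc ι → ℂ) s h
    rw [this, norm_zero]
    exact norm_nonneg _

variable [Countable ι]

lemma extz_measurable (i : ι) (a : C(TT, ℂ)) : Measurable (extz i a) :=
  (circ_embedding i).measurable_extend a.continuous.measurable measurable_const

/-- a property holds almost everywhere for PP ω if it holds on all circles -/
lemma ae_PP (ω : ι → Measure TT) (p : PolyDisc ι → Prop) (h : ∀ i x, p (circ i x)) :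
    ∀ᵐ s ∂(PP ω), p s := by
  rw [ae_iff]
  apply measure_mono_null _ (PP_compl ω)
  intro s hs hmem
  obtain ⟨i, x, rfl⟩ := mem_iUnion.mp hmem
  exact hs (h i x)

lemma extz_memLp (ω : ι → Measure TT) [IsFiniteMeasure (PP ω)] (i : ι) (a : C(TT, ℂ)) :
    MemLp (extz i a) 1 (PP ω) :=
  MemLp.of_bound (extz_measurable i a).aestronglyMeasurable ‖a‖
    (Eventually.of_forall (extz_bound i a))

/-- If the densities of the circle components are small then the functions `f + conj g` are dense
in `L^1`. -/
lemma dense_sum [Finite ι] (ω : ι → Measure TT) [IsFiniteMeasure (PP ω)]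
    (c : ι → ℝ≥0) (hω : ∀ i, ω i = c i • WW) :
    Dense (sumSet (polyAlg ι) (PP ω) 1) := by
  have hωf : ∀ i, IsFiniteMeasure (ω i) := by
    intro i; rw [← PP_comap ω i]; exact finite_comap _ i
  intro x
  by_contra hx
  obtain ⟨φ, hφ0, hφx⟩ := hahn_banach_sub (sumSub (polyAlg ι) (PP ω) 1) x hx
  apply hφx
  -- the functional on each circle
  let e : (i : ι) → C(TT, ℂ) → Lp ℂ 1 (PP ω) := fun i a => (extz_memLp ω i a).toLp (extz i a)
  have he_add : ∀ i a b, e i (a + b) = e i a + e i b := by
    intro i a b
    rw [← MemLp.toLp_add]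
    apply MemLp.toLp_congr
    apply ae_PP
    intro j x
    rw [Pi.add_apply]
    by_cases h : j = i
    · subst h
      rw [extz_circ, extz_circ, extz_circ]; rfl
    · rw [extz_circ_ne i j h, extz_circ_ne i j h, extz_circ_ne i j h, add_zero]
  have he_smul : ∀ i (r : ℂ) a, e i (r • a) = r • e i a := by
    intro i r a
    rw [← MemLp.toLp_const_smul]
    apply MemLp.toLp_congr
    apply ae_PP
    intro j x
    rw [Pi.smul_apply]
    by_cases h : j = i
    · subst h
      rw [extz_circ, extz_circ]; rfl
    · rw [extz_circ_ne i j h, extz_circ_ne i j h, smul_zero]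
  have hnorm : ∀ i a, ‖e i a‖ = ∫ x, ‖a x‖ ∂(ω i) := by
    intro i a
    rw [L1.norm_eq_integral_norm]
    have h1 : ∫ s, ‖(e i a) s‖ ∂(PP ω) = ∫ s, ‖extz i a s‖ ∂(PP ω) := by
      apply integral_congr_ae
      filter_upwards [(extz_memLp ω i a).coeFn_toLp] with s hs
      rw [hs]
    rw [h1]
    unfold PP
    rw [integral_sum_measure]
    · rw [tsum_eq_single i]
      · rw [(circ_embedding i).integral_map]
        congr 1
        funext x
        rw [extz_circ]
      · intro j hj
        rw [(circ_embedding j).integral_map]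
        have : ∀ x, ‖extz i a (circ j x)‖ = 0 := by
          intro x
          rw [extz_circ_ne i j hj, norm_zero]
        simp_rw [this]
        exact integral_zero _ _
    · have h2 := ((extz_memLp ω i a).integrable le_rfl).norm
      exact h2
  -- vanishing on nonconstant exponentials
  have hvan : ∀ i (n : ℤ), n ≠ 0 → φ (e i (fourier n)) = 0 := by
    intro i n hn
    apply hφ0
    obtain ⟨k, hk1, hk⟩ : ∃ k : ℕ, 1 ≤ k ∧ (n = k ∨ n = -(k : ℤ)) := ⟨n.natAbs, by omega, by omega⟩
    have hpow : ∀ j x, (coord i ^ k : C(PolyDisc ι, ℂ)) (circ j x) =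
        if i = j then fourier (k : ℤ) x else 0 := fun j x => coord_circ_pow i j k hk1 x
    rcases hk with hk | hk
    · refine ⟨coord i ^ k, Subalgebra.pow_mem _ (coord_mem i) k, 0, Subalgebra.zero_mem _, ?_⟩
      have h1 : ∀ᵐ s ∂(PP ω), extz i (fourier n) s =
          (coord i ^ k : C(PolyDisc ι, ℂ)) s + (starRingEnd ℂ) ((0 : C(PolyDisc ι, ℂ)) s) := by
        apply ae_PP
        intro j x
        rw [hpow j x]
        by_cases h : j = i
        · subst h
          rw [extz_circ, if_pos rfl, hk]
          simp
        · rw [extz_circ_ne i j h, if_neg (Ne.symm h)]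
          simp
      filter_upwards [h1, (extz_memLp ω i (fourier n)).coeFn_toLp] with s hs1 hs2
      show (e i (fourier n)) s = _
      rw [hs2, hs1]
    · refine ⟨0, Subalgebra.zero_mem _, coord i ^ k, Subalgebra.pow_mem _ (coord_mem i) k, ?_⟩
      have h1 : ∀ᵐ s ∂(PP ω), extz i (fourier n) s =
          (0 : C(PolyDisc ι, ℂ)) s + (starRingEnd ℂ) ((coord i ^ k : C(PolyDisc ι, ℂ)) s) := by
        apply ae_PP
        intro j x
        rw [hpow j x]
        by_cases h : j = i
        · subst h
          rw [extz_circ, if_pos rfl, hk, fourier_neg]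
          simp
        · rw [extz_circ_ne i j h, if_neg (Ne.symm h)]
          simp
      filter_upwards [h1, (extz_memLp ω i (fourier n)).coeFn_toLp] with s hs1 hs2
      show (e i (fourier n)) s = _
      rw [hs2, hs1]
  -- formula on each circle
  have hcont : ∀ i, Continuous (fun a => φ (e i a)) := by
    intro i
    apply φ.continuous.comp
    have : ∀ a b, dist (e i a) (e i b) ≤ ((ω i).real univ) * dist a b := by
      intro a b
      have h1 : e i a - e i b = e i (a - b) := by
        have := he_add i (a - b) b
        rw [sub_add_cancel] at this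
        rw [this, add_sub_cancel_right]
      rw [dist_eq_norm, h1, hnorm]
      have h2 : ∀ x, ‖(a - b) x‖ ≤ dist a b := by
        intro x
        rw [dist_eq_norm]
        exact (a - b).norm_coe_le_norm x
      calc ∫ x, ‖(a - b) x‖ ∂(ω i) ≤ ∫ x, dist a b ∂(ω i) := by
            apply integral_mono
            · exact ((BoundedContinuousFunction.mkOfCompact (a - b)).integrable (ω i)).norm
            · exact integrable_const _
            · exact h2
        _ = ((ω i).real univ) * dist a b := by rw [integral_const, smul_eq_mul]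
    apply (LipschitzWith.of_dist_le_mul (K := ((ω i).real univ).toNNReal) ?_).continuous
    intro g g'
    rw [Real.coe_toNNReal _ measureReal_nonneg]
    exact this g g'
  have hint : ∀ g : C(TT, ℂ), Integrable (fun x => g x) (volume : Measure TT) := fun g =>
    (BoundedContinuousFunction.mkOfCompact g).integrable _
  have hform : ∀ i a, φ (e i a) = φ (e i 1) * ∫ x : TT, a x := by
    intro i a
    have hclosed : IsClosed {a : C(TT, ℂ) | φ (e i a) = φ (e i 1) * ∫ x : TT, a x} :=
      isClosed_eq (hcont i) (continuous_const.mul (continuous_integral volume))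
    have hspan : (Submodule.span ℂ (Set.range (fourier (T := 1))) : Set C(TT, ℂ)) ⊆
        {a : C(TT, ℂ) | φ (e i a) = φ (e i 1) * ∫ x : TT, a x} := by
      intro g hg
      induction hg using Submodule.span_induction with
      | mem x hx =>
        obtain ⟨n, rfl⟩ := hx
        show φ (e i (fourier n)) = φ (e i 1) * ∫ x : TT, fourier n x
        by_cases hn : n = 0
        · subst hn
          have h5 : (volume : Measure TT).real univ = 1 := by
            rw [measureReal_def, UnitAddCircle.measure_univ]; rfl
          have h6 : (fourier 0 : C(TT, ℂ)) = 1 := by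
            ext x; simp
          rw [h6]
          simp [h5]
        · rw [hvan i n hn, integral_fourier n hn, mul_zero]
      | zero =>
        have h0 : e i 0 = 0 := by
          have := he_add i 0 0
          rw [add_zero] at this
          exact left_eq_add.mp this
        show φ (e i 0) = φ (e i 1) * ∫ x : TT, (0 : C(TT, ℂ)) x
        rw [h0, map_zero]
        simp
      | add x y _ _ hx hy =>
        show φ (e i (x + y)) = φ (e i 1) * ∫ t : TT, x t + y t
        rw [integral_add (hint x) (hint y), he_add, map_add, mul_add]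
        rw [show φ (e i x) = _ from hx, show φ (e i y) = _ from hy]
      | smul r x _ hx =>
        show φ (e i (r • x)) = φ (e i 1) * ∫ t : TT, r * x t
        rw [integral_const_mul, he_smul, map_smul, smul_eq_mul]
        rw [show φ (e i x) = _ from hx]
        ring
    have hg : a ∈ (Submodule.span ℂ (Set.range (fourier (T := 1)))).topologicalClosure := by
      rw [span_fourier_closure_eq_top]; trivial
    exact closure_minimal hspan hclosed hg
  -- the constant vanishes
  have hconst : ∀ i, φ (e i 1) = 0 := by
    intro i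
    by_contra hne
    have hpos : 0 < ‖φ (e i 1)‖ := norm_pos_iff.mpr hne
    obtain ⟨ε, hε0, hε⟩ : ∃ ε : ℝ, 0 < ε ∧ ‖φ‖ * c i * ε < ‖φ (e i 1)‖ := by
      refine ⟨‖φ (e i 1)‖ / (‖φ‖ * c i + 1), by positivity, ?_⟩
      rw [← mul_div_assoc, div_lt_iff₀ (by positivity)]
      nlinarith [mul_nonneg (norm_nonneg φ) (c i).2]
    let b : TT → ℝ := fun x => max 0 (1 - ‖x‖ / ε)
    have hbc : Continuous b := by fun_prop
    have hb0 : ∀ x, 0 ≤ b x := fun x => le_max_left _ _
    let a : C(TT, ℂ) := ⟨fun x => (b x : ℂ), Complex.continuous_ofReal.comp hbc⟩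
    have hna : ∀ x, ‖a x‖ = b x := by
      intro x
      show ‖((b x : ℝ) : ℂ)‖ = b x
      rw [Complex.norm_real, Real.norm_eq_abs, abs_of_nonneg (hb0 x)]
    have hIa : ∫ x : TT, a x = ((∫ x : TT, b x : ℝ) : ℂ) := integral_ofReal
    have hbi : Integrable b (volume : Measure TT) := by
      have := (BoundedContinuousFunction.mkOfCompact (⟨b, hbc⟩ : C(TT, ℝ))).integrable
        (volume : Measure TT)
      exact this
    have hIb : 0 < ∫ x : TT, b x := by
      apply hbc.integral_pos_of_hasCompactSupport_nonneg_nonzero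
      · exact HasCompactSupport.of_compactSpace _
      · exact hb0
      · show b 0 ≠ 0
        simp [b]
    have h1 := φ.le_opNorm (e i a)
    rw [hnorm, hform i a, hIa, norm_mul, Complex.norm_real, Real.norm_eq_abs, abs_of_pos hIb] at h1
    have h2 : ∫ x, ‖a x‖ ∂(ω i) ≤ (c i * ε) * ∫ x : TT, b x := by
      simp_rw [hna]
      rw [hω i]
      rw [integral_smul_nnreal_measure]
      have h3 : ∫ x, b x ∂WW = ∫ x : TT, ‖x‖ * b x := by
        unfold WW
        rw [integral_withDensity_eq_integral_toReal_smul]
        · apply integral_congr_ae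
          apply Eventually.of_forall
          intro x
          simp
        · fun_prop
        · exact Eventually.of_forall (fun x => enorm_lt_top)
      rw [h3]
      have h4 : ∫ x : TT, ‖x‖ * b x ≤ ∫ x : TT, ε * b x := by
        apply integral_mono
        · have := (BoundedContinuousFunction.mkOfCompact
            (⟨fun x => ‖x‖ * b x, continuous_norm.mul hbc⟩ : C(TT, ℝ))).integrable
            (volume : Measure TT)
          exact this
        · exact hbi.const_mul ε
        · intro x
          show ‖x‖ * b x ≤ ε * b x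
          by_cases hx : ‖x‖ ≤ ε
          · exact mul_le_mul_of_nonneg_right hx (hb0 x)
          · have : b x = 0 := by
              apply max_eq_left
              have : 1 < ‖x‖ / ε := (one_lt_div hε0).mpr (not_le.mp hx)
              linarith
            rw [this, mul_zero, mul_zero]
      rw [integral_const_mul] at h4
      rw [NNReal.smul_def, smul_eq_mul, mul_assoc]
      exact mul_le_mul_of_nonneg_left h4 (c i).2
    have h5 : ‖φ (e i 1)‖ * ∫ x : TT, b x ≤ (‖φ‖ * c i * ε) * ∫ x : TT, b x := by
      calc ‖φ (e i 1)‖ * ∫ x : TT, b x ≤ ‖φ‖ * ∫ x, ‖a x‖ ∂(ω i) := h1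
        _ ≤ ‖φ‖ * ((c i * ε) * ∫ x : TT, b x) := by gcongr
        _ = (‖φ‖ * c i * ε) * ∫ x : TT, b x := by ring
    have h6 := le_of_mul_le_mul_right h5 hIb
    linarith
  have hzero : ∀ i a, φ (e i a) = 0 := by
    intro i a
    rw [hform, hconst, zero_mul]
  -- conclusion on continuous functions
  have hcf : ∀ g : C(PolyDisc ι, ℂ), φ (ContinuousMap.toLp 1 (PP ω) ℂ g) = 0 := by
    intro g
    have := Fintype.ofFinite ι
    have h1 : ContinuousMap.toLp 1 (PP ω) ℂ g =
        ∑ i, e i (g.comp ⟨circ i, circ_continuous i⟩) := by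
      apply Lp.ext
      have h2 : ∀ᵐ s ∂(PP ω), g s = ∑ i, extz i (g.comp ⟨circ i, circ_continuous i⟩) s := by
        apply ae_PP
        intro j x
        rw [Finset.sum_eq_single j]
        · rw [extz_circ]; rfl
        · intro i _ hij
          exact extz_circ_ne i j (Ne.symm hij) _ x
        · intro h; exact absurd (Finset.mem_univ j) h
      have h3 : ∀ᵐ s ∂(PP ω), ∀ i, (e i (g.comp ⟨circ i, circ_continuous i⟩)) s =
          extz i (g.comp ⟨circ i, circ_continuous i⟩) s := by
        rw [ae_all_iff]
        intro i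
        exact (extz_memLp ω i _).coeFn_toLp
      filter_upwards [h2, h3, ContinuousMap.coeFn_toLp (p := 1) (𝕜 := ℂ) (PP ω) g,
        Lp.coeFn_fun_finsetSum (E := ℂ) (p := 1) (μ := PP ω) Finset.univ
          (fun i => e i (g.comp ⟨circ i, circ_continuous i⟩))] with s hs1 hs2 hs3 hs4
      rw [hs3, hs4, hs1]
      apply Finset.sum_congr rfl
      intro i _
      rw [hs2 i]
    rw [h1, map_sum]
    exact Finset.sum_eq_zero (fun i _ => hzero i _)
  have hdense := ContinuousMap.toLp_denseRange (α := PolyDisc ι) ℂ (PP ω) (p := 1) ℂ ENNReal.one_ne_top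
  have hcl : IsClosed {x : Lp ℂ 1 (PP ω) | φ x = 0} := isClosed_eq φ.continuous continuous_const
  have : x ∈ closure (Set.range (ContinuousMap.toLp 1 (PP ω) ℂ)) := hdense x
  exact closure_minimal (by rintro _ ⟨g, rfl⟩; exact hcf g) hcl this

end circles

end Pool.Agent.Helper882.UniformAlgebra
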