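import Pool.Agent.Helper882.Small

set_option autoImplicit false
set_option linter.unusedSectionVars false

open MeasureTheory Set Topology Filter
open scoped NNReal ENNReal

namespace Pool.Agent.Helper882.UniformAlgebra

section defs

variable {S : Type} [TopologicalSpace S] [CompactSpace S] [MeasurableSpace S] [BorelSpace S]

/-- The integral of `log |f|`, a value in `[-∞, ∞)`: the integral of the positive part of
`log |f|` minus the integral of its negative part, where `log 0 = -∞`. -/
noncomputable def logInt (μ : Measure S) (f : C(S, ℂ)) : EReal :=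
  ((∫⁻ s, ENNReal.ofReal (Real.log ‖f s‖) ∂μ : ℝ≥0∞) : EReal) -
    ((∫⁻ s, (if f s = 0 then ⊤ else ENNReal.ofReal (-Real.log ‖f s‖)) ∂μ : ℝ≥0∞) : EReal)

/-- The log-modulus order. -/
def LogLe (A : Subalgebra ℂ C(S, ℂ)) (μ ν : FiniteMeasure S) : Prop :=
  ∀ f ∈ A, logInt (μ : Measure S) f ≤ logInt (ν : Measure S) f

end defs

/-- The weights on the two circles. -/
noncomputable def wts (b : ℝ≥0) : Bool → Measure TT
  | false => (1 - b) • (volume : Measure TT)
  | true => WW + b • (volume : Measure TT)

instance (b : ℝ≥0) (i : Bool) : IsFiniteMeasure (wts b i) := by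
  cases i
  · show IsFiniteMeasure ((1 - b) • (volume : Measure TT))
    infer_instance
  · show IsFiniteMeasure (WW + b • (volume : Measure TT))
    infer_instance

instance finite_PP_bool (ω : Bool → Measure TT) [∀ i, IsFiniteMeasure (ω i)] :
    IsFiniteMeasure (PP ω) := by
  constructor
  rw [PP_apply _ _ MeasurableSet.univ, tsum_bool]
  simp only [preimage_univ]
  exact ENNReal.add_lt_top.mpr ⟨measure_lt_top _ _, measure_lt_top _ _⟩

/-- The family of measures `μ_b`. -/
noncomputable def fam (b : ℝ≥0) : FiniteMeasure (PolyDisc Bool) := PPf (wts b) inferInstance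

lemma fam_coe (b : ℝ≥0) : (fam b : Measure (PolyDisc Bool)) = PP (wts b) := rfl

noncomputable def fmf (ρ : Measure TT) [IsFiniteMeasure ρ] (i : Bool) :
    FiniteMeasure (PolyDisc Bool) := ⟨ρ.map (circ i), Measure.isFiniteMeasure_map _ _⟩

lemma fam_eq (b : ℝ≥0) : fam b = (1 - b) • fmf volume false + (fmf WW true + b • fmf volume true) := by
  apply FiniteMeasure.toMeasure_injective
  rw [FiniteMeasure.toMeasure_add, FiniteMeasure.toMeasure_add, FiniteMeasure.toMeasure_smul,
    FiniteMeasure.toMeasure_smul]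
  show PP (wts b) = (1 - b) • (volume : Measure TT).map (circ false) +
    (WW.map (circ true) + b • (volume : Measure TT).map (circ true))
  unfold PP
  rw [Measure.sum_bool, add_comm]
  show ((1 - b) • (volume : Measure TT)).map (circ false) +
    (WW + b • (volume : Measure TT)).map (circ true) = _
  rw [Measure.map_smul, Measure.map_add _ _ (circ_embedding true).measurable, Measure.map_smul]

lemma fam_cont : Continuous fam := by
  have : fam = fun b => (1 - b) • fmf volume false + (fmf WW true + b • fmf volume true) := by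
    funext b; exact fam_eq b
  rw [this]
  fun_prop

lemma closed_fam : IsClosed (fam '' (Set.Icc (0 : ℝ≥0) 1)) :=
  (isCompact_Icc.image fam_cont).isClosed

lemma vol_univ : (volume : Measure TT) univ = 1 := UnitAddCircle.measure_univ

/-- classification of the measures equivalent to and absolutely continuous w.r.t. `fam 0` -/
lemma class_fam (ν : FiniteMeasure (PolyDisc Bool))
    (hac : (ν : Measure (PolyDisc Bool)) ≪ (fam 0 : Measure (PolyDisc Bool)))
    (heq : Equivalent (polyAlg Bool) ν (fam 0)) :
    ∃ b : ℝ≥0, b ≤ 1 ∧ ν = fam b ∧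
      (ν : Measure (PolyDisc Bool)).comap (circ true) = WW + b • (volume : Measure TT) := by
  have hac' : (ν : Measure (PolyDisc Bool)) ≪ PP (wts 0) := hac
  have h0 : (ν : Measure (PolyDisc Bool)) =
      PP (fun k => (ν : Measure (PolyDisc Bool)).comap (circ k)) := eq_PP _ (hac (PP_compl (wts 0)))
  have hw : wts 0 true = (1 : ℝ≥0) • WW := by
    show WW + (0 : ℝ≥0) • (volume : Measure TT) = _
    rw [zero_smul, add_zero, one_smul]
  have hwf : wts 0 false = volume := by
    show (1 - 0 : ℝ≥0) • (volume : Measure TT) = _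
    rw [tsub_zero, one_smul]
  have h1 := comap_eq_of_small (wts 0) (ν : Measure (PolyDisc Bool)) hac' heq true (by
    rw [hw]; exact small_WW 1)
  have hf := finite_comap (ν : Measure (PolyDisc Bool)) false
  have ht := finite_comap (ν : Measure (PolyDisc Bool)) true
  set ρf := (ν : Measure (PolyDisc Bool)).comap (circ false) with hρf
  set ρt := (ν : Measure (PolyDisc Bool)).comap (circ true) with hρt
  rw [hw, one_smul] at h1
  set b : ℝ≥0 := (ρt.real univ - WW.real univ).toNNReal with hb
  have hbo : ENNReal.ofReal (ρt.real univ - WW.real univ) = (b : ℝ≥0∞) := rfl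
  rw [hbo] at h1
  have h1' : ρt = WW + b • (volume : Measure TT) := h1
  -- total mass
  have hmass : ρt univ + ρf univ = WW univ + 1 := by
    have h2 := univ_eq_of_equiv (PP (wts 0)) (ν : Measure (PolyDisc Bool)) heq
    rw [h0, PP_apply _ _ MeasurableSet.univ, PP_apply _ _ MeasurableSet.univ, tsum_bool,
      tsum_bool] at h2
    simp only [preimage_univ] at h2
    rw [hw, hwf, one_smul, vol_univ] at h2
    rw [add_comm, add_comm (WW univ)]
    exact h2
  have hρt_univ : ρt univ = WW univ + b := by
    rw [h1', Measure.add_apply, Measure.smul_apply, vol_univ, ENNReal.smul_def, smul_eq_mul, mul_one]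
  have hρf_univ : (b : ℝ≥0∞) + ρf univ = 1 := by
    rw [hρt_univ, add_assoc] at hmass
    exact (ENNReal.add_right_inj (measure_ne_top _ _)).mp hmass
  have hb1 : b ≤ 1 := by
    have : (b : ℝ≥0∞) ≤ 1 := by rw [← hρf_univ]; exact le_self_add
    exact_mod_cast this
  have hρf_real : ρf.real univ = 1 - b := by
    have h3 : ((b : ℝ≥0∞) + ρf univ).toReal = 1 := by rw [hρf_univ]; rfl
    rw [ENNReal.toReal_add ENNReal.coe_ne_top (measure_ne_top _ _)] at h3
    have h4 : ((b : ℝ≥0∞)).toReal = b := rfl
    rw [h4] at h3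
    rw [measureReal_def]
    linarith
  have h5 := coef (wts 0) (ν : Measure (PolyDisc Bool)) hac' heq false
  rw [hwf, ← hρf] at h5
  have h6 : (volume : Measure TT).real univ = 1 := by rw [measureReal_def, vol_univ]; rfl
  rw [h6, hρf_real] at h5
  have h7 : ENNReal.ofReal (1 - b - 1) = 0 := by
    apply ENNReal.ofReal_eq_zero.mpr
    have := b.2
    have h8 : (0 : ℝ) ≤ b := this
    linarith
  have h8 : ENNReal.ofReal (1 - (1 - (b : ℝ))) = b := by
    rw [sub_sub_cancel, ENNReal.ofReal_coe_nnreal]
  rw [h7, h8, zero_smul, add_zero] at h5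
  have h9 : ρf = (1 - b) • (volume : Measure TT) := by
    ext E hE
    have h10 : ρf E + (b : ℝ≥0∞) * volume E = volume E := by
      have := congrArg (fun m : Measure TT => m E) h5
      simpa using this
    have h11 : (1 - b : ℝ≥0) • (volume : Measure TT) E + (b : ℝ≥0∞) * volume E = volume E := by
      rw [ENNReal.smul_def, smul_eq_mul, ← add_mul, ← ENNReal.coe_add, tsub_add_cancel_of_le hb1]
      simp
    rw [Measure.smul_apply]
    have h12 : (b : ℝ≥0∞) * volume E ≠ ⊤ := ENNReal.mul_ne_top ENNReal.coe_ne_top (measure_ne_top _ _)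
    exact (ENNReal.add_left_inj h12).mp (h10.trans h11.symm)
  refine ⟨b, hb1, ?_, h1'⟩
  apply FiniteMeasure.toMeasure_injective
  rw [h0, fam_coe]
  congr 1
  funext k
  cases k
  · exact h9
  · exact h1'

lemma fam_one_mem : fam 1 ∈ EE (polyAlg Bool) (fam 0) := by
  have hw : wts 0 true = WW := by
    show WW + (0 : ℝ≥0) • (volume : Measure TT) = _
    rw [zero_smul, add_zero]
  have hwf : wts 0 false = volume := by
    show (1 - 0 : ℝ≥0) • (volume : Measure TT) = _
    rw [tsub_zero, one_smul]
  have hw1 : wts 1 true = WW + (volume : Measure TT) := by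
    show WW + (1 : ℝ≥0) • (volume : Measure TT) = _
    rw [one_smul]
  have hwf1 : wts 1 false = 0 := by
    show (1 - 1 : ℝ≥0) • (volume : Measure TT) = _
    rw [tsub_self, zero_smul]
  refine ⟨regular_all _, ?_, ?_⟩
  · rw [fam_coe, fam_coe]
    apply Measure.AbsolutelyContinuous.mk
    intro E hE h
    rw [PP_apply _ _ hE, tsum_bool] at h ⊢
    rw [hw, hwf, add_eq_zero] at h
    rw [hw1, hwf1, Measure.add_apply, h.2, vol_ac_WW h.2]
    simp
  · intro f hf
    rw [fam_coe, fam_coe, integral_PP, integral_PP, tsum_bool, tsum_bool, hw, hwf, hw1, hwf1]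
    have hi : ∀ (m : Measure TT) [IsFiniteMeasure m], Integrable (fun x => f (circ true x)) m := by
      intro m _
      exact (BoundedContinuousFunction.mkOfCompact
            (f.comp ⟨circ true, circ_continuous true⟩)).integrable _
    rw [integral_add_measure (hi WW) (hi volume), integral_zero_measure, mean_value true f hf,
      mean_value false f hf]
    ring

lemma extremal_fam : Extremal (polyAlg Bool) (fam 0) := by
  apply extremal_of _ _ (regular_all _)
  intro ν heq C hle
  have hac : (ν : Measure (PolyDisc Bool)) ≪ (fam 0 : Measure (PolyDisc Bool)) := by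
    intro E hE
    have h1 : (ν : Measure (PolyDisc Bool)) E ≤ (C • (fam 0 : Measure (PolyDisc Bool))) E := hle E
    rw [Measure.smul_apply, hE, smul_zero] at h1
    exact le_antisymm h1 bot_le
  obtain ⟨b, hb1, hb2, hb3⟩ := class_fam ν hac heq
  have h2 : (ν : Measure (PolyDisc Bool)).comap (circ true) ≤ C • ((1 : ℝ≥0) • WW) := by
    intro E
    have h4 : PP (wts 0) (circ true '' E) = WW E := by
      rw [← (circ_embedding true).comap_apply, PP_comap]
      show (WW + (0 : ℝ≥0) • (volume : Measure TT)) E = _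
      rw [zero_smul, add_zero]
    rw [(circ_embedding true).comap_apply, Measure.smul_apply, one_smul, ← h4]
    exact hle _
  rw [hb3] at h2
  have h3 := small_zero _ WW (b : ℝ≥0∞) C (small_WW 1) h2
  have h4 : b = 0 := by exact_mod_cast h3
  rw [hb2, h4]

/-- the function 1 + 2 z_i -/
noncomputable def test (i : Bool) : C(PolyDisc Bool, ℂ) := 1 + (2 : ℂ) • coord i

lemma test_mem (i : Bool) : test i ∈ polyAlg Bool :=
  Subalgebra.add_mem _ (Subalgebra.one_mem _) (Subalgebra.smul_mem _ (coord_mem i) _)

lemma test_circ (i j : Bool) (x : TT) :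
    test i (circ j x) = if i = j then 1 + 2 * fourier 1 x else 1 := by
  show 1 + (2 : ℂ) * coord i (circ j x) = _
  rw [coord_circ]
  split_ifs <;> simp

lemma norm_test (x : TT) : 1 ≤ ‖(1 + 2 * fourier 1 x : ℂ)‖ := by
  have h1 : ‖(2 * fourier 1 x : ℂ)‖ = 2 := by
    rw [norm_mul, fourier_apply, Circle.norm_coe]; norm_num
  have h2 := norm_sub_norm_le (2 * fourier 1 x : ℂ) (-1)
  rw [h1, norm_neg, norm_one, sub_neg_eq_add, add_comm] at h2
  have h3 : ‖(2 * fourier 1 x : ℂ) + 1‖ = ‖(1 + 2 * fourier 1 x : ℂ)‖ := by rw [add_comm]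
  rw [add_comm] at h2
  linarith

lemma norm_test_circ (i j : Bool) (x : TT) : 1 ≤ ‖test i (circ j x)‖ := by
  rw [test_circ]
  split_ifs
  · exact norm_test x
  · simp

/-- the integral of log |1 + 2 z| over the circle with respect to a measure -/
noncomputable def ell (ρ : Measure TT) : ℝ≥0∞ :=
  ∫⁻ x, ENNReal.ofReal (Real.log ‖(1 + 2 * fourier 1 x : ℂ)‖) ∂ρ

lemma logInt_test (ω : Bool → Measure TT) (i : Bool) :
    logInt (PP ω) (test i) = ((ell (ω i) : ℝ≥0∞) : EReal) := by
  have hpos : ∫⁻ s, ENNReal.ofReal (Real.log ‖test i s‖) ∂(PP ω) = ell (ω i) := by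
    unfold PP
    rw [lintegral_sum_measure, tsum_bool, (circ_embedding false).lintegral_map,
      (circ_embedding true).lintegral_map]
    cases i
    · have h1 : ∀ x, ENNReal.ofReal (Real.log ‖test false (circ true x)‖) = 0 := by
        intro x
        rw [test_circ, if_neg (by simp)]
        simp
      simp_rw [h1]
      rw [lintegral_zero, add_zero]
      unfold ell
      congr 1
    · have h1 : ∀ x, ENNReal.ofReal (Real.log ‖test true (circ false x)‖) = 0 := by
        intro x
        rw [test_circ, if_neg (by simp)]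
        simp
      simp_rw [h1]
      rw [lintegral_zero, zero_add]
      unfold ell
      congr 1
  have hneg : ∫⁻ s, (if test i s = 0 then ⊤ else ENNReal.ofReal (-Real.log ‖test i s‖)) ∂(PP ω) = 0 := by
    unfold PP
    rw [lintegral_sum_measure, tsum_bool, (circ_embedding false).lintegral_map,
      (circ_embedding true).lintegral_map]
    have h1 : ∀ j x, (if test i (circ j x) = 0 then (⊤ : ℝ≥0∞) else
        ENNReal.ofReal (-Real.log ‖test i (circ j x)‖)) = 0 := by
      intro j x
      have h2 := norm_test_circ i j x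
      rw [if_neg]
      · apply ENNReal.ofReal_eq_zero.mpr
        have := Real.log_nonneg h2
        linarith
      · intro h
        rw [h, norm_zero] at h2
        linarith
    simp_rw [h1]
    simp
  unfold logInt
  rw [hpos, hneg]
  simp

lemma ell_cont : Continuous (fun x : TT => Real.log ‖(1 + 2 * fourier 1 x : ℂ)‖) := by
  apply Continuous.log
  · have := (fourier (T := 1) 1).continuous
    fun_prop
  · intro x
    have := norm_test x
    positivity

lemma ell_finite (ρ : Measure TT) [IsFiniteMeasure ρ] : ell ρ ≠ ⊤ := by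
  have hi : Integrable (fun x : TT => Real.log ‖(1 + 2 * fourier 1 x : ℂ)‖) ρ :=
    (BoundedContinuousFunction.mkOfCompact (⟨_, ell_cont⟩ : C(TT, ℝ))).integrable _
  unfold ell
  rw [← ofReal_integral_eq_lintegral_ofReal hi
    (Eventually.of_forall (fun x => Real.log_nonneg (norm_test x)))]
  exact ENNReal.ofReal_ne_top

lemma ell_pos : ell volume ≠ 0 := by
  have hi : Integrable (fun x : TT => Real.log ‖(1 + 2 * fourier 1 x : ℂ)‖) volume :=
    (BoundedContinuousFunction.mkOfCompact (⟨_, ell_cont⟩ : C(TT, ℝ))).integrable _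
  have h1 : 0 < ∫ x : TT, Real.log ‖(1 + 2 * fourier 1 x : ℂ)‖ := by
    apply ell_cont.integral_pos_of_hasCompactSupport_nonneg_nonzero (x := 0)
    · exact HasCompactSupport.of_compactSpace _
    · exact fun x => Real.log_nonneg (norm_test x)
    · have h2 : (fourier 1 (0 : TT) : ℂ) = 1 := by simp
      rw [h2]
      have h3 : ‖(1 + 2 * 1 : ℂ)‖ = 3 := by norm_num
      rw [h3]
      exact (Real.log_pos (by norm_num)).ne'
  unfold ell
  rw [← ofReal_integral_eq_lintegral_ofReal hi
    (Eventually.of_forall (fun x => Real.log_nonneg (norm_test x)))]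
  exact (ENNReal.ofReal_pos.mpr h1).ne'

lemma ell_smul (b : ℝ≥0) (ρ : Measure TT) : ell (b • ρ) = b * ell ρ := by
  unfold ell
  rw [lintegral_smul_measure, ENNReal.smul_def, smul_eq_mul]

lemma ell_add (ρ ρ' : Measure TT) : ell (ρ + ρ') = ell ρ + ell ρ' := by
  unfold ell
  rw [lintegral_add_measure]

/-- No measure of the family dominates both ends of the family. -/
lemma no_greatest (σ : FiniteMeasure (PolyDisc Bool)) (hσ : σ ∈ fam '' (Set.Icc (0 : ℝ≥0) 1))
    (h0 : LogLe (polyAlg Bool) (fam 0) σ) (h1 : LogLe (polyAlg Bool) (fam 1) σ) : False := by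
  obtain ⟨b, hb, rfl⟩ := hσ
  have hfin := ell_finite (volume : Measure TT)
  have e0 := h0 (test false) (test_mem false)
  rw [fam_coe, fam_coe, logInt_test, logInt_test, EReal.coe_ennreal_le_coe_ennreal_iff] at e0
  have e1 := h1 (test true) (test_mem true)
  rw [fam_coe, fam_coe, logInt_test, logInt_test, EReal.coe_ennreal_le_coe_ennreal_iff] at e1
  have a0 : ell (wts 0 false) = ell volume := by
    show ell ((1 - 0 : ℝ≥0) • (volume : Measure TT)) = _
    rw [tsub_zero, one_smul]
  have ab : ell (wts b false) = (1 - b : ℝ≥0) * ell volume := by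
    show ell ((1 - b : ℝ≥0) • (volume : Measure TT)) = _
    rw [ell_smul]
  have b1 : ell (wts 1 true) = ell WW + ell volume := by
    show ell (WW + (1 : ℝ≥0) • (volume : Measure TT)) = _
    rw [one_smul, ell_add]
  have bb : ell (wts b true) = ell WW + b * ell volume := by
    show ell (WW + b • (volume : Measure TT)) = _
    rw [ell_add, ell_smul]
  rw [a0, ab] at e0
  rw [b1, bb, ENNReal.add_le_add_iff_left (ell_finite WW)] at e1
  have c0 : (1 : ℝ≥0∞) ≤ (1 - b : ℝ≥0) := by
    have : 1 * ell volume ≤ (1 - b : ℝ≥0) * ell volume := by rw [one_mul]; exact e0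
    exact (ENNReal.mul_le_mul_iff_left ell_pos hfin).mp this
  have c1 : (1 : ℝ≥0∞) ≤ b := by
    have : 1 * ell volume ≤ b * ell volume := by rw [one_mul]; exact e1
    exact (ENNReal.mul_le_mul_iff_left ell_pos hfin).mp this
  have d0 : (1 : ℝ≥0) ≤ 1 - b := by exact_mod_cast c0
  have d1 : (1 : ℝ≥0) ≤ b := by exact_mod_cast c1
  have : (1 : ℝ≥0) - b = 0 := tsub_eq_zero_of_le d1
  rw [this] at d0
  exact absurd d0 (by norm_num)

lemma EE_sub : EE (polyAlg Bool) (fam 0) ⊆ fam '' (Set.Icc (0 : ℝ≥0) 1) := by
  rintro ν ⟨_, hac, heq⟩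
  obtain ⟨b, hb1, hb2, _⟩ := class_fam ν hac heq
  exact ⟨b, ⟨bot_le, hb1⟩, hb2.symm⟩

lemma KK_sub : KK (polyAlg Bool) (fam 0) ⊆ fam '' (Set.Icc (0 : ℝ≥0) 1) :=
  fun _ hν => closure_minimal EE_sub closed_fam hν.2

end Pool.Agent.Helper882.UniformAlgebra
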