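import Mathlib

set_option autoImplicit false

/-! Counterexample for the Nesetril-Rodl problem on large critical subgraphs (k = 4).
A hub clique `K_4` and a chain of triangles. -/

namespace H882NR

/-- a periodic walk on `K_4` that uses every pair in each window of eight steps -/
def p (i : ℕ) : Fin 4 := ![0, 1, 2, 3, 0, 2, 1, 3] ⟨i % 8, Nat.mod_lt _ (by norm_num)⟩

abbrev V := Fin 4 ⊕ (ℕ × Fin 3)

lemma p_ne (i : ℕ) : p i ≠ p (i + 1) := by
  have key : ∀ r : Fin 8, (![0, 1, 2, 3, 0, 2, 1, 3] : Fin 8 → Fin 4) r ≠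
      (![0, 1, 2, 3, 0, 2, 1, 3] : Fin 8 → Fin 4) (r + 1) := by decide
  have h1 : (⟨i % 8, Nat.mod_lt _ (by norm_num)⟩ : Fin 8) + 1 =
      ⟨(i + 1) % 8, Nat.mod_lt _ (by norm_num)⟩ := by
    apply Fin.ext
    rw [Fin.val_add]
    simp
  have := key ⟨i % 8, Nat.mod_lt _ (by norm_num)⟩
  rw [h1] at this
  exact this

/-- every 3-colouring of the hubs repeats a colour on some consecutive pair, in each window -/
lemma barrier (π : Fin 4 → Fin 3) (n : ℕ) : ∃ j, n ≤ j ∧ j < n + 8 ∧ π (p j) = π (p (j + 1)) := by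
  have key : ∀ π : Fin 4 → Fin 3, ∃ r : Fin 8,
      π (![0, 1, 2, 3, 0, 2, 1, 3] r) = π (![1, 2, 3, 0, 2, 1, 3, 0] r) := by decide
  obtain ⟨r, hr⟩ := key π
  have hr8 : r.val < 8 := r.isLt
  refine ⟨n + (r.val + 8 - n % 8) % 8, by omega, by omega, ?_⟩
  have h1 : (n + (r.val + 8 - n % 8) % 8) % 8 = r.val := by omega
  have h2 : (n + (r.val + 8 - n % 8) % 8 + 1) % 8 = (r.val + 1) % 8 := by omega
  unfold p
  simp only [h1, h2]
  revert hr
  fin_cases r <;> (intro hr; simpa using hr)

/-- the (oriented) adjacency relation of the chain graph with units `0..m` -/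
def R (m : ℕ) : V → V → Prop
  | Sum.inl a, Sum.inl b => a ≠ b
  | Sum.inr (i, s), Sum.inl h => (s ≠ 0 ∧ i ≤ m ∧ (h = p i ∨ h = p (i + 1))) ∨
      (s = 0 ∧ i = 0 ∧ h = p 0) ∨ (s = 0 ∧ i = m ∧ h = p (m + 1))
  | Sum.inr (i, s), Sum.inr (j, t) => (i = j ∧ i ≤ m ∧ s ≠ t) ∨
      (s = 0 ∧ t = 0 ∧ j = i + 1 ∧ j ≤ m)
  | Sum.inl _, Sum.inr _ => False

/-- the chain graph -/
def G (m : ℕ) : SimpleGraph V := SimpleGraph.fromRel (R m)

lemma G_adj_of {m : ℕ} {u v : V} (h : R m u v) (hne : u ≠ v) : (G m).Adj u v := by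
  rw [G, SimpleGraph.fromRel_adj]; exact ⟨hne, Or.inl h⟩

lemma R_of_adj {m : ℕ} {u v : V} (h : (G m).Adj u v) : R m u v ∨ R m v u := by
  rw [G, SimpleGraph.fromRel_adj] at h; exact h.2

/-- `c` is proper for `H` on the set `A` -/
def Prp (q : ℕ) (H : SimpleGraph V) (c : V → Fin q) (A : Set V) : Prop :=
  ∀ u ∈ A, ∀ v ∈ A, H.Adj u v → c u ≠ c v

lemma Prp_of_R {q m : ℕ} {H : SimpleGraph V} (hH : H ≤ G m) {c : V → Fin q} {A : Set V}
    (h : ∀ u ∈ A, ∀ v ∈ A, R m u v → H.Adj u v → c u ≠ c v) : Prp q H c A := by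
  intro u hu v hv huv
  rcases R_of_adj (hH huv) with h1 | h1
  · exact h u hu v hv h1 huv
  · exact (h v hv u hu h1 huv.symm).symm

/-- hubs and the units `i..j` -/
def Blk (i j : ℕ) : Set V := fun x => match x with
  | Sum.inl _ => True
  | Sum.inr (k, _) => i ≤ k ∧ k ≤ j

@[simp] lemma mem_Blk_inl (i j : ℕ) (a : Fin 4) : (Sum.inl a : V) ∈ Blk i j := by
  show True; trivial

@[simp] lemma mem_Blk_inr (i j k : ℕ) (s : Fin 3) : (Sum.inr (k, s) : V) ∈ Blk i j ↔ i ≤ k ∧ k ≤ j :=
  Iff.rfl

lemma unit_cases (α : Fin 3) (e1 e2 e3 gy gz : Bool) :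
    (∀ x y z : Fin 3, (e1 = true → x ≠ y) → (e2 = true → x ≠ z) → (e3 = true → y ≠ z) →
      (gy = true → y ≠ α) → (gz = true → z ≠ α) → x = α) ∨
    (∀ x : Fin 3, ∃ y z : Fin 3, (e1 = true → x ≠ y) ∧ (e2 = true → x ≠ z) ∧ (e3 = true → y ≠ z) ∧
      (gy = true → y ≠ α) ∧ (gz = true → z ≠ α)) := by
  cases e1 <;> cases e2 <;> cases e3 <;> cases gy <;> cases gz <;>
    simp only [Bool.false_eq_true, forall_const, true_and, and_true,
      IsEmpty.forall_iff] <;>
    first
      | (right; revert α; decide)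
      | (left; intro x y z; fin_cases x <;> fin_cases y <;> fin_cases z <;> revert α <;> decide)

lemma unit_casesP (α : Fin 3) (e1 e2 e3 gy gz : Prop) :
    (∀ x y z : Fin 3, (e1 → x ≠ y) → (e2 → x ≠ z) → (e3 → y ≠ z) →
      (gy → y ≠ α) → (gz → z ≠ α) → x = α) ∨
    (∀ x : Fin 3, ∃ y z : Fin 3, (e1 → x ≠ y) ∧ (e2 → x ≠ z) ∧ (e3 → y ≠ z) ∧
      (gy → y ≠ α) ∧ (gz → z ≠ α)) := by
  classical
  have := unit_cases α (decide e1) (decide e2) (decide e3) (decide gy) (decide gz)
  simpa only [decide_eq_true_eq] using this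

lemma avoid2 : ∀ a b : Fin 3, ∃ x : Fin 3, a ≠ x ∧ x ≠ b := by decide

/-- gluing at a barrier -/
lemma glue {m : ℕ} {H : SimpleGraph V} (hH : H ≤ G m) (π : Fin 4 → Fin 3) (j n : ℕ) (hj : 1 ≤ j)
    (hjn : j ≤ n) (hn : n + 1 ≤ m) (hnj : n + 1 ≤ j + 8) (hp : π (p j) = π (p (j + 1)))
    (c1 c2 : V → Fin 3) (h1π : ∀ a, c1 (Sum.inl a) = π a) (h2π : ∀ a, c2 (Sum.inl a) = π a)
    (h1 : Prp 3 H c1 (Blk 0 j)) (h2 : Prp 3 H c2 (Blk j (j + 8))) :
    ∃ c : V → Fin 3, (∀ a, c (Sum.inl a) = π a) ∧ Prp 3 H c (Blk 0 (n + 1)) := by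
  obtain ⟨k0, rfl⟩ : ∃ k0, j = k0 + 1 := ⟨j - 1, by omega⟩
  rcases unit_casesP (π (p (k0 + 1))) (H.Adj (Sum.inr (k0 + 1, 0)) (Sum.inr (k0 + 1, 1)))
    (H.Adj (Sum.inr (k0 + 1, 0)) (Sum.inr (k0 + 1, 2))) (H.Adj (Sum.inr (k0 + 1, 1)) (Sum.inr (k0 + 1, 2)))
    (H.Adj (Sum.inr (k0 + 1, 1)) (Sum.inl (p (k0 + 1))) ∨
      H.Adj (Sum.inr (k0 + 1, 1)) (Sum.inl (p (k0 + 1 + 1))))
    (H.Adj (Sum.inr (k0 + 1, 2)) (Sum.inl (p (k0 + 1))) ∨
      H.Adj (Sum.inr (k0 + 1, 2)) (Sum.inl (p (k0 + 1 + 1)))) with hfull | hnf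
  · -- the unit forces `v_j`
    have e1 : c1 (Sum.inr (k0 + 1, 0)) = π (p (k0 + 1)) := by
      refine hfull _ (c1 (Sum.inr (k0 + 1, 1))) (c1 (Sum.inr (k0 + 1, 2))) ?_ ?_ ?_ ?_ ?_
      · intro h; exact h1 _ (by simp) _ (by simp) h
      · intro h; exact h1 _ (by simp) _ (by simp) h
      · intro h; exact h1 _ (by simp) _ (by simp) h
      · rintro (h | h)
        · have := h1 _ (by simp) _ (by simp) h; rwa [h1π] at this
        · have := h1 _ (by simp) _ (by simp) h; rwa [h1π, ← hp] at this
      · rintro (h | h)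
        · have := h1 _ (by simp) _ (by simp) h; rwa [h1π] at this
        · have := h1 _ (by simp) _ (by simp) h; rwa [h1π, ← hp] at this
    have e2 : c2 (Sum.inr (k0 + 1, 0)) = π (p (k0 + 1)) := by
      refine hfull _ (c2 (Sum.inr (k0 + 1, 1))) (c2 (Sum.inr (k0 + 1, 2))) ?_ ?_ ?_ ?_ ?_
      · intro h; exact h2 _ (by simp) _ (by simp) h
      · intro h; exact h2 _ (by simp) _ (by simp) h
      · intro h; exact h2 _ (by simp) _ (by simp) h
      · rintro (h | h)
        · have := h2 _ (by simp) _ (by simp) h; rwa [h2π] at this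
        · have := h2 _ (by simp) _ (by simp) h; rwa [h2π, ← hp] at this
      · rintro (h | h)
        · have := h2 _ (by simp) _ (by simp) h; rwa [h2π] at this
        · have := h2 _ (by simp) _ (by simp) h; rwa [h2π, ← hp] at this
    refine ⟨fun x => match x with
      | Sum.inl a => π a
      | Sum.inr (k, s) => if k ≤ k0 + 1 then c1 (Sum.inr (k, s)) else c2 (Sum.inr (k, s)),
      fun a => rfl, ?_⟩
    apply Prp_of_R hH
    rintro (a | ⟨i, s⟩) hu (b | ⟨i', t⟩) hv hR hadj
    · have := h1 _ (by simp) _ (by simp) hadj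
      rwa [h1π, h1π] at this
    · exact absurd hR (by simp [R])
    · simp only [mem_Blk_inr] at hu
      by_cases hi : i ≤ k0 + 1
      · have := h1 _ (by simp [hi]) _ (by simp) hadj
        rw [h1π] at this
        simpa only [if_pos hi] using this
      · have := h2 (Sum.inr (i, s)) (by simp only [mem_Blk_inr]; omega) _ (by simp) hadj
        rw [h2π] at this
        simpa only [if_neg hi] using this
    · simp only [mem_Blk_inr] at hu hv
      simp only [R] at hR
      rcases hR with ⟨rfl, -, -⟩ | ⟨rfl, rfl, rfl, -⟩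
      · by_cases hi : i ≤ k0 + 1
        · have := h1 _ (by simp [hi]) _ (by simp [hi]) hadj
          simpa only [if_pos hi] using this
        · have := h2 (Sum.inr (i, s)) (by simp only [mem_Blk_inr]; omega) (Sum.inr (i, t))
            (by simp only [mem_Blk_inr]; omega) hadj
          simpa only [if_neg hi] using this
      · rcases lt_trichotomy i (k0 + 1) with hlt | heq | hgt
        · have hi : i ≤ k0 + 1 := by omega
          have hi' : i + 1 ≤ k0 + 1 := by omega
          have := h1 (Sum.inr (i, 0)) (by simp [hi]) (Sum.inr (i + 1, 0)) (by simp only [mem_Blk_inr]; omega) hadj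
          simpa only [if_pos hi, if_pos hi'] using this
        · subst heq
          have hi' : ¬ (k0 + 1 + 1 ≤ k0 + 1) := by omega
          have := h2 (Sum.inr (k0 + 1, 0)) (by simp) (Sum.inr (k0 + 1 + 1, 0))
            (by simp only [mem_Blk_inr]; omega) hadj
          simp only [le_refl, if_true, if_neg hi']
          rw [e1, ← e2]; exact this
        · have hi : ¬ i ≤ k0 + 1 := by omega
          have hi' : ¬ i + 1 ≤ k0 + 1 := by omega
          have := h2 (Sum.inr (i, 0)) (by simp only [mem_Blk_inr]; omega) (Sum.inr (i + 1, 0))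
            (by simp only [mem_Blk_inr]; omega) hadj
          simpa only [if_neg hi, if_neg hi'] using this
  · -- the unit puts no constraint on `v_j`
    obtain ⟨x, hx1, hx2⟩ := avoid2 (c1 (Sum.inr (k0, 0))) (c2 (Sum.inr (k0 + 1 + 1, 0)))
    obtain ⟨y, z, hxy, hxz, hyz, hy, hz⟩ := hnf x
    refine ⟨fun w => match w with
      | Sum.inl a => π a
      | Sum.inr (k, s) => if k < k0 + 1 then c1 (Sum.inr (k, s)) else
          if k = k0 + 1 then ![x, y, z] s else c2 (Sum.inr (k, s)),
      fun a => rfl, ?_⟩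
    apply Prp_of_R hH
    rintro (a | ⟨i, s⟩) hu (b | ⟨i', t⟩) hv hR hadj
    · have := h1 _ (by simp) _ (by simp) hadj
      rwa [h1π, h1π] at this
    · exact absurd hR (by simp [R])
    · simp only [mem_Blk_inr] at hu
      rcases lt_trichotomy i (k0 + 1) with hlt | heq | hgt
      · have := h1 (Sum.inr (i, s)) (by simp only [mem_Blk_inr]; omega) _ (by simp) hadj
        rw [h1π] at this
        simpa only [if_pos hlt] using this
      · subst heq
        simp only [lt_irrefl, if_false, if_true]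
        simp only [R] at hR
        fin_cases s
        · exfalso
          rcases hR with ⟨h, -⟩ | ⟨-, h, -⟩ | ⟨-, h, -⟩
          · exact h rfl
          · omega
          · omega
        · show y ≠ π b
          rcases hR with ⟨-, -, h | h⟩ | ⟨h, -⟩ | ⟨h, -⟩
          · subst h; exact hy (Or.inl hadj)
          · subst h; rw [← hp]; exact hy (Or.inr hadj)
          · exact absurd h (by decide)
          · exact absurd h (by decide)
        · show z ≠ π b
          rcases hR with ⟨-, -, h | h⟩ | ⟨h, -⟩ | ⟨h, -⟩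
          · subst h; exact hz (Or.inl hadj)
          · subst h; rw [← hp]; exact hz (Or.inr hadj)
          · exact absurd h (by decide)
          · exact absurd h (by decide)
      · have hn1 : ¬ i < k0 + 1 := by omega
        have hn2 : ¬ i = k0 + 1 := by omega
        have := h2 (Sum.inr (i, s)) (by simp only [mem_Blk_inr]; omega) _ (by simp) hadj
        rw [h2π] at this
        simpa only [if_neg hn1, if_neg hn2] using this
    · simp only [mem_Blk_inr] at hu hv
      simp only [R] at hR
      rcases hR with ⟨rfl, -, hst⟩ | ⟨rfl, rfl, rfl, -⟩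
      · rcases lt_trichotomy i (k0 + 1) with hlt | heq | hgt
        · have := h1 (Sum.inr (i, s)) (by simp only [mem_Blk_inr]; omega) (Sum.inr (i, t))
            (by simp only [mem_Blk_inr]; omega) hadj
          simpa only [if_pos hlt] using this
        · subst heq
          simp only [lt_irrefl, if_false, if_true]
          fin_cases s <;> fin_cases t
          · exact absurd rfl hst
          · exact hxy hadj
          · exact hxz hadj
          · exact (hxy hadj.symm).symm
          · exact absurd rfl hst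
          · exact hyz hadj
          · exact (hxz hadj.symm).symm
          · exact (hyz hadj.symm).symm
          · exact absurd rfl hst
        · have hn1 : ¬ i < k0 + 1 := by omega
          have hn2 : ¬ i = k0 + 1 := by omega
          have := h2 (Sum.inr (i, s)) (by simp only [mem_Blk_inr]; omega) (Sum.inr (i, t))
            (by simp only [mem_Blk_inr]; omega) hadj
          simpa only [if_neg hn1, if_neg hn2] using this
      · by_cases ha : i + 1 < k0 + 1
        · have hi : i < k0 + 1 := by omega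
          have := h1 (Sum.inr (i, 0)) (by simp only [mem_Blk_inr]; omega) (Sum.inr (i + 1, 0))
            (by simp only [mem_Blk_inr]; omega) hadj
          simpa only [if_pos ha, if_pos hi] using this
        · by_cases hb : i = k0
          · subst hb
            have hi : i < i + 1 := by omega
            simp only [if_pos hi, lt_irrefl, if_false, if_true]
            exact hx1
          · by_cases hc : i = k0 + 1
            · subst hc
              have hn1 : ¬ (k0 + 1 + 1 < k0 + 1) := by omega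
              have hn2 : ¬ (k0 + 1 + 1 = k0 + 1) := by omega
              simp only [lt_irrefl, if_false, if_true, if_neg hn1, if_neg hn2]
              exact hx2
            · have hn1 : ¬ i < k0 + 1 := by omega
              have hn2 : ¬ i = k0 + 1 := by omega
              have hn3 : ¬ i + 1 = k0 + 1 := by omega
              have := h2 (Sum.inr (i, 0)) (by simp only [mem_Blk_inr]; omega) (Sum.inr (i + 1, 0))
                (by simp only [mem_Blk_inr]; omega) hadj
              simpa only [if_neg hn1, if_neg hn2, if_neg ha, if_neg hn3] using this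

end H882NR
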