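import Pool.Agent.Helper882.NRa

set_option autoImplicit false

namespace H882NR

/-- `π` extends to the window `i..i+8` -/
def Ext (H : SimpleGraph V) (π : Fin 4 → Fin 3) (i : ℕ) : Prop :=
  ∃ c : V → Fin 3, (∀ a, c (Sum.inl a) = π a) ∧ Prp 3 H c (Blk i (i + 8))

lemma Prp_mono {q : ℕ} {H : SimpleGraph V} {c : V → Fin q} {A B : Set V} (h : Prp q H c B)
    (hAB : A ⊆ B) : Prp q H c A := fun u hu v hv huv => h u (hAB hu) v (hAB hv) huv

lemma Blk_mono {i j i' j' : ℕ} (h1 : i' ≤ i) (h2 : j ≤ j') : Blk i j ⊆ Blk i' j' := by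
  rintro (a | ⟨k, s⟩) h
  · simp
  · simp only [mem_Blk_inr] at h ⊢; omega

lemma ext_all {m : ℕ} {H : SimpleGraph V} (hH : H ≤ G m) (π : Fin 4 → Fin 3)
    (hE : ∀ i, Ext H π i) : ∀ n, n ≤ m →
      ∃ c : V → Fin 3, (∀ a, c (Sum.inl a) = π a) ∧ Prp 3 H c (Blk 0 n) := by
  intro n
  induction n using Nat.strong_induction_on with
  | _ n ih =>
    intro hn
    by_cases h8 : n ≤ 8
    · obtain ⟨c, hc, hp⟩ := hE 0
      exact ⟨c, hc, Prp_mono hp (Blk_mono le_rfl (by omega))⟩
    · obtain ⟨k, rfl⟩ : ∃ k, n = k + 1 := ⟨n - 1, by omega⟩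
      obtain ⟨j, hj1, hj2, hj3⟩ := barrier π (k + 1 - 8)
      obtain ⟨c1, hc1, hp1⟩ := ih j (by omega) (by omega)
      obtain ⟨c2, hc2, hp2⟩ := hE j
      exact glue hH π j k (by omega) (by omega) hn (by omega) hj3 c1 c2 hc1 hc2 hp1 hp2

lemma mem_Blk_of_R {m : ℕ} {u v : V} (h : R m u v) : u ∈ Blk 0 m ∧ v ∈ Blk 0 m := by
  rcases u with a | ⟨i, s⟩ <;> rcases v with b | ⟨j, t⟩
  · simp
  · exact absurd h (by simp [R])
  · simp only [R] at h
    simp only [mem_Blk_inr, mem_Blk_inl, and_true]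
    rcases h with ⟨-, h, -⟩ | ⟨-, h, -⟩ | ⟨-, h, -⟩ <;> omega
  · simp only [R] at h
    simp only [mem_Blk_inr]
    rcases h with ⟨h, h', -⟩ | ⟨-, -, h, h'⟩ <;> omega

lemma mem_Blk_of_adj {m : ℕ} {u v : V} (h : (G m).Adj u v) : u ∈ Blk 0 m ∧ v ∈ Blk 0 m := by
  rcases R_of_adj h with h | h
  · exact mem_Blk_of_R h
  · exact (mem_Blk_of_R h).symm

lemma colorable_of_Ext {m : ℕ} {H : SimpleGraph V} (hH : H ≤ G m) (π : Fin 4 → Fin 3)
    (hE : ∀ i, Ext H π i) : H.Colorable 3 := by
  obtain ⟨c, -, hp⟩ := ext_all hH π hE m le_rfl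
  exact ⟨SimpleGraph.Coloring.mk c (fun {u v} huv => by
    obtain ⟨h1, h2⟩ := mem_Blk_of_adj (hH huv)
    exact hp u h1 v h2 huv)⟩

/-- finite version of the blocks -/
def BlkF (i : ℕ) : Finset V :=
  (Finset.univ : Finset (Fin 4)).disjSum ((Finset.Icc i (i + 8)) ×ˢ (Finset.univ : Finset (Fin 3)))

lemma mem_BlkF {i : ℕ} {x : V} : x ∈ BlkF i ↔ x ∈ Blk i (i + 8) := by
  rcases x with a | ⟨k, s⟩
  · simp [BlkF]
  · simp [BlkF]

lemma card_BlkF (i : ℕ) : (BlkF i).card = 31 := by
  have : i + 8 + 1 - i = 9 := by omega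
  simp [BlkF, Finset.card_disjSum, Finset.card_product, this]

/-- main lemma: a non-3-colourable subgraph of the chain has a small non-3-colourable piece -/
lemma small_obstruction {m : ℕ} {H : SimpleGraph V} (hH : H ≤ G m) (h3 : ¬ H.Colorable 3) :
    ∃ A : Finset V, A.card ≤ 81 * 31 ∧ ¬ ∃ c : V → Fin 3, Prp 3 H c (A : Set V) := by
  classical
  have hw : ∀ π : Fin 4 → Fin 3, ∃ i, ¬ Ext H π i := by
    intro π
    by_contra hcon
    push Not at hcon
    exact h3 (colorable_of_Ext hH π hcon)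
  choose w hw using hw
  refine ⟨Finset.univ.biUnion (fun π : Fin 4 → Fin 3 => BlkF (w π)), ?_, ?_⟩
  · refine (Finset.card_biUnion_le_card_mul _ _ 31 (fun π _ => (card_BlkF _).le)).trans ?_
    simp
  · rintro ⟨c, hc⟩
    refine hw (fun a => c (Sum.inl a)) ⟨c, fun a => rfl, ?_⟩
    refine Prp_mono hc ?_
    intro x hx
    rw [← mem_BlkF] at hx
    exact Finset.mem_coe.2 (Finset.mem_biUnion.2 ⟨_, Finset.mem_univ _, hx⟩)

/-! ### Four colours -/

lemma four1 : ∀ a b y z v : Fin 4, a ≠ b → y ≠ a → y ≠ b → z ≠ a → z ≠ b → y ≠ z → v ≠ y →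
    v ≠ z → v = a ∨ v = b := by decide

lemma not_colorable4 (m : ℕ) : ¬ (G m).Colorable 4 := by
  rintro ⟨c⟩
  have hub : ∀ a b : Fin 4, a ≠ b → c (Sum.inl a) ≠ c (Sum.inl b) := by
    intro a b hab
    exact c.valid (G_adj_of (m := m) (u := Sum.inl a) (v := Sum.inl b) hab (by simpa using hab))
  have unit : ∀ i, i ≤ m → c (Sum.inr (i, 0)) = c (Sum.inl (p i)) ∨
      c (Sum.inr (i, 0)) = c (Sum.inl (p (i + 1))) := by
    intro i hi
    have hyh : ∀ s : Fin 3, s ≠ 0 → ∀ h, (h = p i ∨ h = p (i + 1)) →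
        c (Sum.inr (i, s)) ≠ c (Sum.inl h) := by
      intro s hs h hh
      exact c.valid (G_adj_of (m := m) (Or.inl ⟨hs, hi, hh⟩) (by simp))
    have htri : ∀ s t : Fin 3, s ≠ t → c (Sum.inr (i, s)) ≠ c (Sum.inr (i, t)) := by
      intro s t hst
      exact c.valid (G_adj_of (m := m) (Or.inl ⟨rfl, hi, hst⟩) (by simpa using hst))
    exact four1 _ _ (c (Sum.inr (i, 1))) (c (Sum.inr (i, 2))) _ (hub _ _ (p_ne i))
      (hyh 1 (by decide) _ (Or.inl rfl)) (hyh 1 (by decide) _ (Or.inr rfl))
      (hyh 2 (by decide) _ (Or.inl rfl)) (hyh 2 (by decide) _ (Or.inr rfl))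
      (htri 1 2 (by decide)) (htri 0 1 (by decide)) (htri 0 2 (by decide))
  have chain : ∀ i, i ≤ m → c (Sum.inr (i, 0)) = c (Sum.inl (p (i + 1))) := by
    intro i
    induction i with
    | zero =>
      intro h0
      rcases unit 0 h0 with h | h
      · exfalso
        exact c.valid (G_adj_of (m := m) (u := Sum.inr (0, 0)) (v := Sum.inl (p 0))
          (Or.inr (Or.inl ⟨rfl, rfl, rfl⟩)) (by simp)) h
      · exact h
    | succ i ih =>
      intro hi
      rcases unit (i + 1) hi with h | h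
      · exfalso
        refine c.valid (G_adj_of (m := m) (u := Sum.inr (i, 0)) (v := Sum.inr (i + 1, 0))
          (Or.inr ⟨rfl, rfl, rfl, hi⟩) (by simp)) ?_
        rw [h, ih (by omega)]
      · exact h
  exact c.valid (G_adj_of (m := m) (u := Sum.inr (m, 0)) (v := Sum.inl (p (m + 1)))
    (Or.inr (Or.inr ⟨rfl, rfl, rfl⟩)) (by simp)) (chain m le_rfl)

/-- the two other colours -/
lemma others : ∀ a b : Fin 4, ∃ y z : Fin 4, y ≠ a ∧ y ≠ b ∧ z ≠ a ∧ z ≠ b ∧ y ≠ z := by decide

/-- without the spine edge `v_i v_{i+1}` the chain is 4-colourable -/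
lemma colorable4_of {m i : ℕ} (him : i < m) {H : SimpleGraph V} (hH : H ≤ G m)
    (hi : ¬ H.Adj (Sum.inr (i, 0)) (Sum.inr (i + 1, 0))) : H.Colorable 4 := by
  choose y z hya hyb hza hzb hyz using others
  let c : V → Fin 4 := fun x => match x with
    | Sum.inl a => a
    | Sum.inr (k, s) => ![if k ≤ i then p (k + 1) else p k, y (p k) (p (k + 1)),
        z (p k) (p (k + 1))] s
  have hv : ∀ k, c (Sum.inr (k, 0)) = if k ≤ i then p (k + 1) else p k := fun k => rfl
  have key : Prp 4 H c Set.univ := by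
    apply Prp_of_R hH
    rintro (a | ⟨k, s⟩) - (b | ⟨k', t⟩) - hR hadj
    · exact hR
    · exact absurd hR (by simp [R])
    · rcases hR with ⟨hs, -, hb⟩ | ⟨rfl, rfl, rfl⟩ | ⟨rfl, rfl, rfl⟩
      · fin_cases s
        · exact absurd rfl hs
        · show y (p k) (p (k + 1)) ≠ b
          rcases hb with rfl | rfl
          · exact hya _ _
          · exact hyb _ _
        · show z (p k) (p (k + 1)) ≠ b
          rcases hb with rfl | rfl
          · exact hza _ _
          · exact hzb _ _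
      · rw [hv, if_pos (Nat.zero_le _)]
        exact (p_ne 0).symm
      · rw [hv, if_neg (by omega)]
        exact p_ne _
    · rcases hR with ⟨rfl, -, hst⟩ | ⟨rfl, rfl, rfl, hk⟩
      · have hvy : c (Sum.inr (k, 0)) ≠ y (p k) (p (k + 1)) := by
          rw [hv]; split_ifs
          · exact (hyb _ _).symm
          · exact (hya _ _).symm
        have hvz : c (Sum.inr (k, 0)) ≠ z (p k) (p (k + 1)) := by
          rw [hv]; split_ifs
          · exact (hzb _ _).symm
          · exact (hza _ _).symm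
        fin_cases s <;> fin_cases t
        · exact absurd rfl hst
        · exact hvy
        · exact hvz
        · exact hvy.symm
        · exact absurd rfl hst
        · exact hyz _ _
        · exact hvz.symm
        · exact (hyz _ _).symm
        · exact absurd rfl hst
      · rw [hv, hv]
        rcases lt_trichotomy k i with h | h | h
        · rw [if_pos (by omega), if_pos (by omega)]
          exact p_ne _
        · subst h
          exact absurd hadj hi
        · rw [if_neg (by omega), if_neg (by omega)]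
          exact p_ne _
  exact ⟨SimpleGraph.Coloring.mk c (fun {u v} huv => key u trivial v trivial huv)⟩

/-- the chain is 5-colourable -/
lemma colorable5 (m : ℕ) : (G m).Colorable 5 := by
  choose y z hya hyb hza hzb hyz using others
  let c : V → Fin 5 := fun x => match x with
    | Sum.inl a => a.castSucc
    | Sum.inr (k, s) => ![if k % 2 = 0 then Fin.last 4 else (p k).castSucc,
        (y (p k) (p (k + 1))).castSucc, (z (p k) (p (k + 1))).castSucc] s
  have hv : ∀ k, c (Sum.inr (k, 0)) = if k % 2 = 0 then Fin.last 4 else (p k).castSucc :=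
    fun k => rfl
  have cs : ∀ a b : Fin 4, a ≠ b → a.castSucc ≠ b.castSucc := fun a b h h' =>
    h (Fin.castSucc_injective _ h')
  have ls : ∀ a : Fin 4, Fin.last 4 ≠ a.castSucc := by decide
  have key : Prp 5 (G m) c Set.univ := by
    apply Prp_of_R le_rfl
    rintro (a | ⟨k, s⟩) - (b | ⟨k', t⟩) - hR hadj
    · exact cs _ _ hR
    · exact absurd hR (by simp [R])
    · rcases hR with ⟨hs, -, hb⟩ | ⟨rfl, rfl, rfl⟩ | ⟨rfl, rfl, rfl⟩
      · fin_cases s
        · exact absurd rfl hs
        · show (y (p k) (p (k + 1))).castSucc ≠ b.castSucc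
          rcases hb with rfl | rfl
          · exact cs _ _ (hya _ _)
          · exact cs _ _ (hyb _ _)
        · show (z (p k) (p (k + 1))).castSucc ≠ b.castSucc
          rcases hb with rfl | rfl
          · exact cs _ _ (hza _ _)
          · exact cs _ _ (hzb _ _)
      · rw [hv, if_pos (Nat.zero_mod _)]
        exact ls _
      · rw [hv]
        split_ifs
        · exact ls _
        · exact cs _ _ (p_ne _)
    · rcases hR with ⟨rfl, -, hst⟩ | ⟨rfl, rfl, rfl, hk⟩
      · have hvy : c (Sum.inr (k, 0)) ≠ (y (p k) (p (k + 1))).castSucc := by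
          rw [hv]; split_ifs
          · exact ls _
          · exact cs _ _ (hya _ _).symm
        have hvz : c (Sum.inr (k, 0)) ≠ (z (p k) (p (k + 1))).castSucc := by
          rw [hv]; split_ifs
          · exact ls _
          · exact cs _ _ (hza _ _).symm
        fin_cases s <;> fin_cases t
        · exact absurd rfl hst
        · exact hvy
        · exact hvz
        · exact hvy.symm
        · exact absurd rfl hst
        · exact cs _ _ (hyz _ _)
        · exact hvz.symm
        · exact (cs _ _ (hyz _ _)).symm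
        · exact absurd rfl hst
      · rw [hv, hv]
        by_cases h : k % 2 = 0
        · rw [if_pos h, if_neg (by omega)]
          exact ls _
        · rw [if_neg h, if_pos (by omega)]
          exact (ls _).symm
  exact ⟨SimpleGraph.Coloring.mk c (fun {u v} huv => key u trivial v trivial huv)⟩

/-! ### Extraction of a critical graph -/

lemma finite_edges (m : ℕ) : (G m).edgeSet.Finite := by
  classical
  let A : Finset V := (Finset.univ : Finset (Fin 4)).disjSum
    ((Finset.Icc 0 m) ×ˢ (Finset.univ : Finset (Fin 3)))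
  have hA : ∀ x : V, x ∈ Blk 0 m → x ∈ A := by
    rintro (a | ⟨k, s⟩) h
    · simp [A]
    · simp only [mem_Blk_inr] at h
      simp [A, h]
  refine ((A ×ˢ A).finite_toSet.image (fun q : V × V => s(q.1, q.2))).subset ?_
  intro e
  induction e using Sym2.ind with
  | _ u v =>
    intro he
    rw [SimpleGraph.mem_edgeSet] at he
    obtain ⟨h1, h2⟩ := mem_Blk_of_adj he
    exact ⟨(u, v), by simp [hA u h1, hA v h2], rfl⟩

lemma exists_minimal_noncol {W : Type} (q : ℕ) (G0 : SimpleGraph W) (hfin : G0.edgeSet.Finite)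
    (h : ¬ G0.Colorable q) :
    ∃ H ≤ G0, ¬ H.Colorable q ∧ ∀ H' < H, H'.Colorable q := by
  classical
  have hex : ∃ n, ∃ H ≤ G0, H.edgeSet.ncard = n ∧ ¬ H.Colorable q := ⟨_, G0, le_rfl, rfl, h⟩
  obtain ⟨H, hH, hn, hc⟩ := Nat.find_spec hex
  refine ⟨H, hH, hc, ?_⟩
  intro H' hH'
  by_contra hcon
  have hlt : H'.edgeSet.ncard < Nat.find hex := by
    rw [← hn]
    exact Set.ncard_lt_ncard (SimpleGraph.edgeSet_strict_mono hH')
      (hfin.subset (SimpleGraph.edgeSet_mono hH))
  exact Nat.find_min hex hlt ⟨H', hH'.le.trans hH, rfl, hcon⟩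

end H882NR
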