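import Pool.Agent.Helper882.NRb

set_option autoImplicit false

namespace H882NR

/-- image in `V` of a subgraph of an induced graph -/
def img {H : SimpleGraph V} {s : Set V} (T : (H.induce s).Subgraph) : SimpleGraph V where
  Adj u v := ∃ (hu : u ∈ s) (hv : v ∈ s), T.Adj ⟨u, hu⟩ ⟨v, hv⟩
  symm := ⟨fun _ _ ⟨hu, hv, h⟩ => ⟨hv, hu, h.symm⟩⟩
  loopless := ⟨fun _ ⟨_, _, h⟩ => h.adj_sub.ne rfl⟩

lemma img_le {H : SimpleGraph V} {s : Set V} (T : (H.induce s).Subgraph) : img T ≤ H := by
  rintro u v ⟨hu, hv, h⟩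
  exact h.adj_sub

lemma coe_colorable_of_img {H : SimpleGraph V} {s : Set V} (T : (H.induce s).Subgraph) {q : ℕ}
    (h : (img T).Colorable q) : T.coe.Colorable q := by
  obtain ⟨c⟩ := h
  exact ⟨SimpleGraph.Coloring.mk (fun x => c x.1.1) (fun {u v} huv =>
    c.valid (⟨u.1.2, v.1.2, huv⟩ : (img T).Adj u.1.1 v.1.1))⟩

lemma img_colorable_of_coe {H : SimpleGraph V} {s : Set V} (T : (H.induce s).Subgraph) {q : ℕ}
    (hq : 0 < q) (h : T.coe.Colorable q) : (img T).Colorable q := by
  classical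
  obtain ⟨c⟩ := h
  refine ⟨SimpleGraph.Coloring.mk (fun v => if h : ∃ hv : v ∈ s, (⟨v, hv⟩ : s) ∈ T.verts then
    c ⟨⟨v, h.1⟩, h.2⟩ else ⟨0, hq⟩) ?_⟩
  rintro u v ⟨hu, hv, huv⟩
  have h1 : ∃ hv : u ∈ s, (⟨u, hv⟩ : s) ∈ T.verts := ⟨hu, T.edge_vert huv⟩
  have h2 : ∃ hv : v ∈ s, (⟨v, hv⟩ : s) ∈ T.verts := ⟨hv, T.edge_vert huv.symm⟩
  simp only [dif_pos h1, dif_pos h2]
  exact c.valid huv

theorem exists_critical (m : ℕ) : ∃ (W : Type) (_ : Fintype W) (Gc : SimpleGraph W),
    (Gc.chromaticNumber = ((4 + 1 : ℕ) : ℕ∞) ∧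
      ∀ T : Gc.Subgraph, T < ⊤ → T.coe.chromaticNumber < ((4 + 1 : ℕ) : ℕ∞)) ∧
    m ≤ Fintype.card W ∧
    ∀ S : Gc.Subgraph, (S.coe.chromaticNumber = ((4 : ℕ) : ℕ∞) ∧
      ∀ T : Gc.Subgraph, T < S → T.coe.chromaticNumber < ((4 : ℕ) : ℕ∞)) →
      S.verts.ncard ≤ 81 * 31 := by
  classical
  obtain ⟨H, hHG, hH4, hmin⟩ := exists_minimal_noncol 4 (G m) (finite_edges m) (not_colorable4 m)
  have hsfin : H.support.Finite := by
    let A : Finset V := (Finset.univ : Finset (Fin 4)).disjSum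
      ((Finset.Icc 0 m) ×ˢ (Finset.univ : Finset (Fin 3)))
    have hA : ∀ x : V, x ∈ Blk 0 m → x ∈ A := by
      rintro (a | ⟨k, s⟩) h
      · simp [A]
      · simp only [mem_Blk_inr] at h
        simp [A, h]
    refine A.finite_toSet.subset ?_
    rintro x hx
    rw [SimpleGraph.mem_support] at hx
    obtain ⟨y, hy⟩ := hx
    exact hA _ (mem_Blk_of_adj (hHG hy)).1
  have : Fintype H.support := hsfin.fintype
  have hspine : ∀ i, i < m → H.Adj (Sum.inr (i, 0)) (Sum.inr (i + 1, 0)) := by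
    intro i hi
    by_contra hcon
    exact hH4 (colorable4_of hi hHG hcon)
  have hnot4 : ¬ (H.induce H.support).Colorable 4 := by
    rintro ⟨c⟩
    apply hH4
    refine ⟨SimpleGraph.Coloring.mk (fun v => if h : v ∈ H.support then c ⟨v, h⟩ else 0) ?_⟩
    intro u v huv
    have h1 : u ∈ H.support := ⟨v, huv⟩
    have h2 : v ∈ H.support := ⟨u, huv.symm⟩
    simp only [dif_pos h1, dif_pos h2]
    exact c.valid huv
  have h5 : (H.induce H.support).Colorable 5 := by
    obtain ⟨c⟩ := (colorable5 m).mono_left hHG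
    exact ⟨SimpleGraph.Coloring.mk (fun x => c x.1) (fun {u v} huv => c.valid huv)⟩
  refine ⟨H.support, inferInstance, H.induce H.support, ⟨?_, ?_⟩, ?_, ?_⟩
  · apply le_antisymm
    · exact h5.chromaticNumber_le
    · by_contra hcon
      rw [not_le] at hcon
      have : (H.induce H.support).chromaticNumber ≤ ((4 : ℕ) : ℕ∞) := by
        apply Order.le_of_lt_add_one
        exact_mod_cast hcon
      exact hnot4 (SimpleGraph.chromaticNumber_le_iff_colorable.1 this)
  · intro T hT
    have hne : img T ≠ H := by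
      intro heq
      apply hT.ne
      have hadj : ∀ x y : H.support, (H.induce H.support).Adj x y → T.Adj x y := by
        intro x y hxy
        have h0 : H.Adj x.1 y.1 := hxy
        have h1 : (img T).Adj x.1 y.1 := (congrFun (congrFun (congrArg SimpleGraph.Adj heq) x.1) y.1).mpr h0
        obtain ⟨_, _, h⟩ := h1
        exact h
      apply SimpleGraph.Subgraph.ext
      · ext x
        simp only [SimpleGraph.Subgraph.verts_top, Set.mem_univ, iff_true]
        obtain ⟨y, hy⟩ := x.2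
        exact T.edge_vert (hadj x ⟨y, ⟨x.1, hy.symm⟩⟩ hy)
      · ext x y
        simp only [SimpleGraph.Subgraph.top_adj]
        exact ⟨fun h => h.adj_sub, hadj x y⟩
    have hcol := coe_colorable_of_img T (hmin _ (lt_of_le_of_ne (img_le T) hne))
    refine lt_of_le_of_lt hcol.chromaticNumber_le ?_
    exact_mod_cast (by norm_num : (4 : ℕ) < 4 + 1)
  · have hmem : ∀ i : Fin m, (Sum.inr ((i : ℕ), (0 : Fin 3)) : V) ∈ H.support :=
      fun i => ⟨_, hspine i i.isLt⟩
    have hinj : Function.Injective (fun i : Fin m =>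
        (⟨Sum.inr ((i : ℕ), (0 : Fin 3)), hmem i⟩ : H.support)) := by
      intro i j hij
      simp only [Subtype.mk.injEq, Sum.inr.injEq, Prod.mk.injEq, and_true] at hij
      exact Fin.ext hij
    simpa using Fintype.card_le_of_injective _ hinj
  · rintro S ⟨hS4, hSmin⟩
    have hnS : ¬ (img S).Colorable 3 := by
      intro h
      have := (coe_colorable_of_img S h).chromaticNumber_le
      rw [hS4] at this
      exact absurd (by exact_mod_cast this) (by norm_num : ¬ (4 : ℕ) ≤ 3)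
    obtain ⟨A, hAcard, hA⟩ := small_obstruction ((img_le S).trans hHG) hnS
    let T : (H.induce H.support).Subgraph :=
      { verts := {x | x ∈ S.verts ∧ x.1 ∈ A}
        Adj := fun x y => S.Adj x y ∧ x.1 ∈ A ∧ y.1 ∈ A
        adj_sub := fun h => h.1.adj_sub
        edge_vert := fun h => ⟨S.edge_vert h.1, h.2.1⟩
        symm := ⟨fun _ _ h => ⟨h.1.symm, h.2.2, h.2.1⟩⟩ }
    have hTS : T ≤ S := ⟨fun x hx => hx.1, fun x y h => h.1⟩
    have hTeq : T = S := by
      by_contra hne
      have hlt := hSmin T (lt_of_le_of_ne hTS hne)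
      have : T.coe.chromaticNumber ≤ ((3 : ℕ) : ℕ∞) := by
        apply Order.le_of_lt_add_one
        exact_mod_cast hlt
      have hc3 := SimpleGraph.chromaticNumber_le_iff_colorable.1 this
      obtain ⟨c⟩ := img_colorable_of_coe T (by norm_num) hc3
      apply hA
      refine ⟨c, ?_⟩
      intro u hu v hv huv
      obtain ⟨hus, hvs, h⟩ := huv
      exact c.valid (⟨hus, hvs, ⟨h, hu, hv⟩⟩ : (img T).Adj u v)
    have hsub : (Subtype.val '' S.verts : Set V) ⊆ (A : Set V) := by
      rintro _ ⟨x, hx, rfl⟩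
      rw [← hTeq] at hx
      exact hx.2
    calc S.verts.ncard = (Subtype.val '' S.verts : Set V).ncard :=
          (Set.ncard_image_of_injective _ Subtype.val_injective).symm
      _ ≤ (A : Set V).ncard := Set.ncard_le_ncard hsub A.finite_toSet
      _ = A.card := Set.ncard_coe_finset A
      _ ≤ 81 * 31 := hAcard

end H882NR
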