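import Pool.Agent.Helper882.Bipolar

set_option autoImplicit false
set_option linter.unusedSectionVars false

open MeasureTheory Set Topology Filter
open scoped NNReal ENNReal

namespace Pool.Agent.Helper882.UniformAlgebra

section nonreflexive

/-- Hahn-Banach for a subspace and a point outside its closure (seminormed spaces). -/
lemma hahn_banach_sub' {E : Type*} [SeminormedAddCommGroup E] [NormedSpace ℂ E]
    (M : Submodule ℂ E) (x : E) (hx : x ∉ closure (M : Set E)) :
    ∃ φ : StrongDual ℂ E, (∀ m ∈ M, φ m = 0) ∧ φ x ≠ 0 := by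
  let _ : NormedSpace ℝ E := NormedSpace.restrictScalars ℝ ℂ E
  have hconv : Convex ℝ (closure (M : Set E)) := by
    apply Convex.closure
    exact (M.restrictScalars ℝ).convex
  obtain ⟨f, u, h1, h2⟩ := RCLike.geometric_hahn_banach_closed_point (𝕜 := ℂ) hconv isClosed_closure hx
  have h0 : ∀ m ∈ M, f m = 0 := by
    intro m hm
    by_contra hne
    have h3 : ∀ c : ℂ, (f (c • m)).re < u := fun c => h1 _ (subset_closure (M.smul_mem c hm))
    have h4 := h3 ((|u| + 1 : ℝ) * (f m)⁻¹)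
    rw [map_smul, smul_eq_mul, mul_assoc, inv_mul_cancel₀ hne, mul_one, Complex.ofReal_re] at h4
    have := le_abs_self u
    linarith
  refine ⟨f, h0, ?_⟩
  intro hfx
  have h5 := h1 0 (subset_closure M.zero_mem)
  rw [map_zero] at h5
  rw [hfx] at h2
  exact absurd (h5.trans h2) (lt_irrefl _)

variable {S : Type} [TopologicalSpace S] [CompactSpace S] [MeasurableSpace S] [BorelSpace S]
  (μ : Measure S) {X : Type*} [SeminormedAddCommGroup X] [NormedSpace ℂ X]

/-- `q` is a quotient map onto `X` with kernel the annihilator of the annihilator of `M`. -/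
structure Quot (M : Submodule ℂ (Lp ℂ ∞ μ)) (q : Lp ℂ ∞ μ →ₗ[ℂ] X) : Prop where
  lift : ∀ (x : X) (ε : ℝ), 0 < ε → ∃ u, q u = x ∧ ‖u‖ < ‖x‖ + ε
  le : ∀ u, ‖q u‖ ≤ ‖u‖
  ker : ∀ u, q u = 0 ↔ ∀ h : Lp ℂ 1 μ, (∀ v ∈ M, pair μ v h = 0) → pair μ u h = 0

/-- The functional on the quotient given by an element of `L^1` annihilating `M`. -/
lemma exists_hat (M : Submodule ℂ (Lp ℂ ∞ μ)) (q : Lp ℂ ∞ μ →ₗ[ℂ] X) (hq : Quot μ M q)
    (h : Lp ℂ 1 μ) (hh : ∀ v ∈ M, pair μ v h = 0) :
    ∃ φ : StrongDual ℂ X, ∀ u, φ (q u) = pair μ u h := by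
  have hsurj : Function.Surjective q := fun x => by
    obtain ⟨u, hu, _⟩ := hq.lift x 1 one_pos
    exact ⟨u, hu⟩
  choose s hs using hsurj
  have key : ∀ u v, q u = q v → pair μ u h = pair μ v h := by
    intro u v huv
    have h1 : q (u - v) = 0 := by rw [map_sub, huv, sub_self]
    have h2 := (hq.ker _).mp h1 h hh
    rw [map_sub, LinearMap.sub_apply] at h2
    exact sub_eq_zero.mp h2
  let f : X →ₗ[ℂ] ℂ :=
    { toFun := fun x => pair μ (s x) h
      map_add' := by
        intro x y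
        rw [key (s (x + y)) (s x + s y) (by rw [map_add, hs, hs, hs]), map_add,
          LinearMap.add_apply]
      map_smul' := by
        intro c x
        rw [key (s (c • x)) (c • s x) (by rw [map_smul, hs, hs]), map_smul,
          LinearMap.smul_apply]
        rfl }
  refine ⟨LinearMap.mkContinuous f ‖h‖ ?_, ?_⟩
  · intro x
    apply le_of_forall_pos_le_add
    intro ε hε
    obtain ⟨u, hux, hu⟩ := hq.lift x (ε / (‖h‖ + 1)) (by positivity)
    have h1 : f x = pair μ u h := key _ _ (by rw [hs, hux])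
    rw [h1]
    calc ‖pair μ u h‖ ≤ ‖u‖ * ‖h‖ := pair_norm μ u h
      _ ≤ (‖x‖ + ε / (‖h‖ + 1)) * ‖h‖ := by gcongr
      _ = ‖h‖ * ‖x‖ + (ε / (‖h‖ + 1)) * ‖h‖ := by ring
      _ ≤ ‖h‖ * ‖x‖ + ε := by
        gcongr
        rw [div_mul_eq_mul_div, div_le_iff₀ (by positivity)]
        nlinarith [norm_nonneg h]
  · intro u
    exact key _ _ (hs _)

lemma not_reflexive [IsFiniteMeasure μ] (M : Submodule ℂ (Lp ℂ ∞ μ)) (q : Lp ℂ ∞ μ →ₗ[ℂ] X)
    (hq : Quot μ M q) (h : ℕ → Lp ℂ 1 μ)
    (hh : ∀ k, ∀ v ∈ M, pair μ v (h k) = 0) (C : ℝ) (hC : ∀ k u, ‖pair μ u (h k)‖ ≤ C * ‖u‖)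
    (E : ℕ → Set S) (hE : ∀ K, MeasurableSet (E K)) (hanti : Antitone E)
    (hemp : ⋂ K, E K = ∅)
    (hval : ∀ K k, K ≤ k → pair μ (indicatorConstLp ∞ (hE K) (measure_ne_top μ _) (1 : ℂ)) (h k) = 1) :
    ¬ Function.Surjective (NormedSpace.inclusionInDoubleDual ℂ X) := by
  intro hsurj
  have hqs : ∀ x, ∃ u, q u = x := fun x => by
    obtain ⟨u, hu, _⟩ := hq.lift x 1 one_pos
    exact ⟨u, hu⟩
  choose F hF using fun k => exists_hat μ M q hq (h k) (hh k)
  -- norm bound
  have hb : ∀ k, ‖F k‖ ≤ |C| := by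
    intro k
    apply ContinuousLinearMap.opNorm_le_bound _ (abs_nonneg C)
    intro x
    apply le_of_forall_pos_le_add
    intro ε hε
    obtain ⟨u, rfl, hu⟩ := hq.lift x (ε / (|C| + 1)) (by positivity)
    rw [hF]
    calc ‖pair μ u (h k)‖ ≤ C * ‖u‖ := hC k u
      _ ≤ |C| * ‖u‖ := by gcongr; exact le_abs_self C
      _ ≤ |C| * (‖q u‖ + ε / (|C| + 1)) := by gcongr
      _ = |C| * ‖q u‖ + |C| * (ε / (|C| + 1)) := by ring
      _ ≤ |C| * ‖q u‖ + ε := by
        gcongr
        rw [← mul_div_assoc, div_le_iff₀ (by positivity)]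
        nlinarith [abs_nonneg C]
  -- a cluster point
  have hcomp := WeakDual.isCompact_closedBall (0 : StrongDual ℂ X) |C|
  obtain ⟨x, _, hx⟩ := hcomp.ultrafilter_le_nhds
      ((hyperfilter ℕ : Ultrafilter ℕ).map (fun k => StrongDual.toWeakDual (F k))) (by
    rw [le_principal_iff]
    apply mem_map.mpr
    apply Filter.univ_mem'
    intro k
    show F k ∈ Metric.closedBall 0 |C|
    rw [mem_closedBall_zero_iff]
    exact hb k)
  have hlim : ∀ y : X, Tendsto (fun k => F k y) (hyperfilter ℕ : Filter ℕ) (𝓝 (x y)) := by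
    intro y
    have h1 : Continuous (fun w : WeakDual ℂ X => w y) := WeakDual.eval_continuous y
    exact (h1.tendsto x).comp hx
  let xs : StrongDual ℂ X := WeakDual.toStrongDual x
  let e : ℕ → Lp ℂ ∞ μ := fun K => indicatorConstLp ∞ (hE K) (measure_ne_top μ _) (1 : ℂ)
  have hxe : ∀ K, xs (q (e K)) = 1 := by
    intro K
    have h1 := hlim (q (e K))
    have h2 : Tendsto (fun k => F k (q (e K))) (hyperfilter ℕ : Filter ℕ) (𝓝 1) := by
      apply tendsto_const_nhds.congr'
      have h3 : ∀ᶠ k in (hyperfilter ℕ : Filter ℕ), K ≤ k := by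
        have : (hyperfilter ℕ : Filter ℕ) ≤ atTop := by
          rw [← Nat.cofinite_eq_atTop]; exact hyperfilter_le_cofinite
        exact this (eventually_ge_atTop K)
      filter_upwards [h3] with k hk
      rw [hF]
      exact (hval K k hk).symm
    exact tendsto_nhds_unique h1 h2
  have hen : ∀ K, ‖q (e K)‖ ≤ 1 := by
    intro K
    refine (hq.le _).trans ?_
    refine (norm_indicatorConstLp_le (p := ∞)).trans ?_
    simp
  -- the subspace of functionals coming from `L^1`
  let N : Submodule ℂ (StrongDual ℂ X) :=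
    { carrier := {f | ∃ g : Lp ℂ 1 μ, (∀ v ∈ M, pair μ v g = 0) ∧ ∀ u, f (q u) = pair μ u g}
      add_mem' := by
        rintro f f' ⟨g, hg, hf⟩ ⟨g', hg', hf'⟩
        refine ⟨g + g', fun v hv => by rw [map_add, hg v hv, hg' v hv, add_zero], ?_⟩
        intro u
        rw [map_add, ← hf, ← hf']
        rfl
      zero_mem' := by
        refine ⟨0, fun v _ => map_zero _, ?_⟩
        intro u
        rw [map_zero]
        rfl
      smul_mem' := by
        rintro c f ⟨g, hg, hf⟩
        refine ⟨c • g, fun v hv => by rw [map_smul, hg v hv, smul_zero], ?_⟩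
        intro u
        rw [map_smul, ← hf]
        rfl }
  have hfar : xs ∉ closure (N : Set (StrongDual ℂ X)) := by
    intro hmem
    obtain ⟨f, ⟨g, hg, hf⟩, hd⟩ := Metric.mem_closure_iff.mp hmem (1 / 2) (by norm_num)
    have h1 : ∀ K, 1 / 2 ≤ ‖pair μ (e K) g‖ := by
      intro K
      have h2 : ‖xs (q (e K)) - f (q (e K))‖ ≤ ‖xs - f‖ * ‖q (e K)‖ :=
        (xs - f).le_opNorm (q (e K))
      rw [hxe, hf] at h2
      have h3 : ‖(1 : ℂ) - pair μ (e K) g‖ ≤ 1 / 2 := by
        refine h2.trans ?_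
        rw [dist_eq_norm] at hd
        have h4 := hen K
        have h5 := norm_nonneg (q (e K))
        have h6 := norm_nonneg (xs - f)
        nlinarith
      have h7 := norm_sub_norm_le (1 : ℂ) (pair μ (e K) g)
      rw [norm_one] at h7
      linarith
    have h2 : Tendsto (fun K => ∫ s in E K, g s ∂μ) atTop (𝓝 (∫ s in ⋂ K, E K, g s ∂μ)) :=
      tendsto_setIntegral_of_antitone hE hanti ⟨0, (L1.integrable_coeFn g).integrableOn⟩
    rw [hemp, setIntegral_empty] at h2
    have h3 : ∀ K, pair μ (e K) g = ∫ s in E K, g s ∂μ := by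
      intro K
      rw [pair_apply, ← integral_indicator (hE K)]
      apply integral_congr_ae
      have h4 : ∀ᵐ s ∂μ, e K s = (E K).indicator (fun _ => (1 : ℂ)) s := indicatorConstLp_coeFn
      filter_upwards [h4] with s hs
      rw [hs]
      by_cases hsE : s ∈ E K
      · rw [indicator_of_mem hsE, indicator_of_mem hsE, one_mul]
      · rw [indicator_of_notMem hsE, indicator_of_notMem hsE, zero_mul]
    have h4 : Tendsto (fun K => ‖∫ s in E K, g s ∂μ‖) atTop (𝓝 0) := by
      have := h2.norm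
      rwa [norm_zero] at this
    have h5 : (1 / 2 : ℝ) ≤ 0 := ge_of_tendsto h4 (Eventually.of_forall (fun K => by
      rw [← h3]; exact h1 K))
    norm_num at h5
  obtain ⟨Φ, hΦ0, hΦx⟩ := hahn_banach_sub' N xs hfar
  obtain ⟨y, hy⟩ := hsurj Φ
  obtain ⟨u, rfl⟩ := hqs y
  have hu : q u = 0 := by
    rw [hq.ker]
    intro g hg
    obtain ⟨φ, hφ⟩ := exists_hat μ M q hq g hg
    have h1 := hΦ0 φ ⟨g, hg, hφ⟩
    rw [← hy, NormedSpace.dual_def, hφ] at h1
    exact h1
  apply hΦx
  rw [← hy, hu, NormedSpace.dual_def, map_zero]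

end nonreflexive

end Pool.Agent.Helper882.UniformAlgebra
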