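import Pool.Agent.Helper882.QRZeroOne

set_option autoImplicit false
set_option linter.unusedSectionVars false

open MeasureTheory Measure Set Topology Filter ProbabilityTheory
open scoped ENNReal

namespace Pool.Agent.Helper882.QR

/-- Nonnegative finitely additive set functions on the natural numbers vanishing on finite sets. -/
structure FA (κ : Set ℕ → ℝ) : Prop where
  nonneg : ∀ a, 0 ≤ κ a
  add : ∀ a b, Disjoint a b → κ (a ∪ b) = κ a + κ b
  fin : ∀ a : Set ℕ, a.Finite → κ a = 0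

/-- The subset coded by a boolean sequence. -/
def S (x : ℕ → Bool) : Set ℕ := {n | x n = true}

namespace FA

variable {κ κ' : Set ℕ → ℝ}

lemma inter_add_diff (h : FA κ) (b a : Set ℕ) : κ b = κ (b ∩ a) + κ (b \ a) := by
  have h1 := h.add (b ∩ a) (b \ a) disjoint_inf_sdiff
  rw [inter_union_sdiff] at h1
  exact h1

lemma mono (h : FA κ) {a b : Set ℕ} (hab : a ⊆ b) : κ a ≤ κ b := by
  rw [h.inter_add_diff b a, inter_eq_self_of_subset_right hab]
  have := h.nonneg (b \ a)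
  linarith

lemma add' (h : FA κ) (h' : FA κ') : FA (κ + κ') where
  nonneg := fun a => add_nonneg (h.nonneg a) (h'.nonneg a)
  add := fun a b hab => by
    show κ (a ∪ b) + κ' (a ∪ b) = (κ a + κ' a) + (κ b + κ' b)
    rw [h.add a b hab, h'.add a b hab]; ring
  fin := fun a ha => by
    show κ a + κ' a = 0
    rw [h.fin a ha, h'.fin a ha, add_zero]

lemma sub' (h : FA κ) (h' : FA κ') (hle : ∀ a, κ' a ≤ κ a) : FA (κ - κ') where
  nonneg := fun a => sub_nonneg.mpr (hle a)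
  add := fun a b hab => by
    show κ (a ∪ b) - κ' (a ∪ b) = (κ a - κ' a) + (κ b - κ' b)
    rw [h.add a b hab, h'.add a b hab]; ring
  fin := fun a ha => by
    show κ a - κ' a = 0
    rw [h.fin a ha, h'.fin a ha, sub_zero]

lemma eq_of_finite_diff (h : FA κ) {a b : Set ℕ} (h1 : (a \ b).Finite) (h2 : (b \ a).Finite) :
    κ a = κ b := by
  rw [h.inter_add_diff a b, h.inter_add_diff b a, h.fin _ h1, h.fin _ h2, inter_comm]

end FA

/-- the restriction of a set function -/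
def res (κ : Set ℕ → ℝ) (c : Set ℕ) : Set ℕ → ℝ := fun e => κ (e ∩ c)

lemma FA.res {κ : Set ℕ → ℝ} (h : FA κ) (c : Set ℕ) : FA (res κ c) where
  nonneg := fun a => h.nonneg _
  add := fun a b hab => by
    show κ ((a ∪ b) ∩ c) = _
    rw [union_inter_distrib_right, h.add]
    · rfl
    · exact hab.mono inter_subset_left inter_subset_left
  fin := fun a ha => h.fin _ (ha.subset inter_subset_left)

/-- the essential upper bound of `κ` over a fair random set -/
noncomputable def u (κ : Set ℕ → ℝ) : ℝ := sInf {r : ℝ | ∀ᵐ x ∂fair, κ (S x) ≤ r}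

/-- the upper envelope as a set function -/
noncomputable def U (κ : Set ℕ → ℝ) : Set ℕ → ℝ := fun c => u (res κ c)

lemma u_bdd {κ : Set ℕ → ℝ} (h : FA κ) : BddBelow {r : ℝ | ∀ᵐ x ∂fair, κ (S x) ≤ r} := by
  refine ⟨0, ?_⟩
  intro r hr
  obtain ⟨x, hx⟩ := (show ∀ᵐ x ∂fair, κ (S x) ≤ r from hr).exists
  exact (h.nonneg _).trans hx

lemma u_le {κ : Set ℕ → ℝ} (h : FA κ) {r : ℝ} (hr : ∀ᵐ x ∂fair, κ (S x) ≤ r) : u κ ≤ r :=
  csInf_le (u_bdd h) hr

lemma u_ne {κ : Set ℕ → ℝ} (h : FA κ) : {r : ℝ | ∀ᵐ x ∂fair, κ (S x) ≤ r}.Nonempty :=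
  ⟨κ univ, (Eventually.of_forall (fun _ => h.mono (subset_univ _)) :
    ∀ᵐ x ∂fair, κ (S x) ≤ κ univ)⟩

lemma ae_le_u {κ : Set ℕ → ℝ} (h : FA κ) : ∀ᵐ x ∂fair, κ (S x) ≤ u κ := by
  have h1 : ∀ n : ℕ, ∀ᵐ x ∂fair, κ (S x) ≤ u κ + 1 / ((n : ℝ) + 1) := by
    intro n
    obtain ⟨r, hr, hrn⟩ := exists_lt_of_csInf_lt (u_ne h)
      (show sInf {r : ℝ | ∀ᵐ x ∂fair, κ (S x) ≤ r} < u κ + 1 / ((n : ℝ) + 1) by
        have : (0 : ℝ) < 1 / ((n : ℝ) + 1) := Nat.one_div_pos_of_nat
        have h2 : u κ = sInf {r : ℝ | ∀ᵐ x ∂fair, κ (S x) ≤ r} := rfl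
        linarith)
    have hr' : ∀ᵐ x ∂fair, κ (S x) ≤ r := hr
    filter_upwards [hr'] with x hx
    linarith
  filter_upwards [ae_all_iff.mpr h1] with x hx
  apply le_of_forall_pos_le_add
  intro ε hε
  obtain ⟨n, hn⟩ := exists_nat_one_div_lt hε
  have := hx n
  linarith

lemma tail_lt {κ : Set ℕ → ℝ} (h : FA κ) (r : ℝ) : Tail {x | r < κ (S x)} := by
  intro x y hxy hx
  have h1 : κ (S x) = κ (S y) := by
    apply h.eq_of_finite_diff
    · apply hxy.subset
      rintro n ⟨h1, h2⟩ h3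
      exact h2 (h3 ▸ h1 : y n = true)
    · apply hxy.subset
      rintro n ⟨h1, h2⟩ h3
      exact h2 (h3.trans h1)
  show r < κ (S y)
  rw [← h1]
  exact hx

lemma full_lt {κ : Set ℕ → ℝ} (h : FA κ) {r : ℝ} (hr : r < u κ) : fair {x | r < κ (S x)} = 1 := by
  rcases zero_one _ (tail_lt h r) with h0 | h0
  · exfalso
    have : ∀ᵐ x ∂fair, κ (S x) ≤ r := by
      rw [ae_iff]
      simpa using h0
    exact absurd (u_le h this) (not_le.mpr hr)
  · exact h0

/-- a set of full outer measure meets every almost sure event -/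
lemma exists_mem_of_full {α : Type*} [MeasurableSpace α] {μ : Measure α} [IsProbabilityMeasure μ]
    {E : Set α} (hE : μ E = 1) {p : α → Prop} (hp : ∀ᵐ x ∂μ, p x) : ∃ x ∈ E, p x := by
  by_contra hne
  push Not at hne
  have h1 : E ⊆ {x | ¬ p x} := fun x hx => hne x hx
  have h2 := measure_mono (μ := μ) h1
  rw [hE, ae_iff.mp hp] at h2
  exact absurd h2 (by simp)

lemma full_inter_ae {α : Type*} [MeasurableSpace α] {μ : Measure α} [IsProbabilityMeasure μ]
    {E : Set α} (hE : μ E = 1) {p : α → Prop} (hp : ∀ᵐ x ∂μ, p x) : μ {x | x ∈ E ∧ p x} = 1 := by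
  apply le_antisymm prob_le_one
  rw [← hE]
  apply measure_mono_ae
  filter_upwards [hp] with x hx hxE
  exact ⟨hxE, hx⟩

lemma u_nonneg {κ : Set ℕ → ℝ} (h : FA κ) : 0 ≤ u κ := by
  apply le_csInf (u_ne h)
  intro r hr
  obtain ⟨x, hx⟩ := (show ∀ᵐ x ∂fair, κ (S x) ≤ r from hr).exists
  exact (h.nonneg _).trans hx

lemma u_mono {κ κ' : Set ℕ → ℝ} (h : FA κ) (h' : FA κ') (hle : ∀ a, κ a ≤ κ' a) : u κ ≤ u κ' := by
  apply u_le h
  filter_upwards [ae_le_u h'] with x hx
  exact (hle _).trans hx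

lemma u_le_univ {κ : Set ℕ → ℝ} (h : FA κ) : u κ ≤ κ univ :=
  u_le h (Eventually.of_forall (fun _ => h.mono (subset_univ _)))

lemma compl_preserving : MeasurePreserving (fun (x : ℕ → Bool) i => !(x i)) fair fair :=
  ⟨by fun_prop, fair_compl⟩

lemma S_compl (x : ℕ → Bool) : S (fun i => !(x i)) = (S x)ᶜ := by
  ext n
  show (!(x n)) = true ↔ ¬ (x n = true)
  cases x n <;> simp

lemma ae_compl {p : Set ℕ → Prop} (h : ∀ᵐ x ∂fair, p (S x)) : ∀ᵐ x ∂fair, p (S x)ᶜ := by
  have h1 := compl_preserving.quasiMeasurePreserving.ae h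
  filter_upwards [h1] with x hx
  rwa [← S_compl]

lemma univ_le_u {κ : Set ℕ → ℝ} (h : FA κ) : κ univ ≤ 2 * u κ := by
  obtain ⟨x, hx1, hx2⟩ := ((ae_le_u h).and (ae_compl (p := fun a => κ a ≤ u κ) (ae_le_u h))).exists
  have h1 := h.inter_add_diff univ (S x)
  rw [univ_inter, ← compl_eq_univ_sdiff] at h1
  linarith

/-- mixing -/
noncomputable def mix (c : Set ℕ) (p : (ℕ → Bool) × (ℕ → Bool)) : ℕ → Bool :=
  open Classical in fun i => if i ∈ c then p.1 i else p.2 i

lemma mix_preserving (c : Set ℕ) : MeasurePreserving (mix c) (fair.prod fair) fair := by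
  classical
  constructor
  · apply measurable_pi_lambda
    intro i
    unfold mix
    by_cases hi : i ∈ c
    · simp only [hi, if_true]; fun_prop
    · simp only [hi, if_false]; fun_prop
  · exact fair_mix c

lemma S_mix (c : Set ℕ) (x y : ℕ → Bool) : S (mix c (x, y)) = (S x ∩ c) ∪ (S y \ c) := by
  ext n
  show mix c (x, y) n = true ↔ _
  unfold mix
  by_cases hn : n ∈ c
  · simp [hn, S]
  · simp [hn, S]

lemma S_mix_inter (c : Set ℕ) (x y : ℕ → Bool) : S (mix c (x, y)) ∩ c = S x ∩ c := by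
  rw [S_mix]
  ext n
  simp only [mem_inter_iff, mem_union, Set.mem_sdiff]
  tauto

lemma S_mix_diff (c d : Set ℕ) (hcd : Disjoint c d) (x y : ℕ → Bool) :
    S (mix c (x, y)) ∩ d = S y ∩ d := by
  rw [S_mix]
  ext n
  simp only [mem_inter_iff, mem_union, Set.mem_sdiff]
  have : n ∈ c → n ∉ d := fun h1 h2 => Set.disjoint_left.mp hcd h1 h2
  tauto

lemma U_add {κ : Set ℕ → ℝ} (h : FA κ) {c d : Set ℕ} (hcd : Disjoint c d) :
    U κ (c ∪ d) = U κ c + U κ d := by
  have key : ∀ e : Set ℕ, κ (e ∩ (c ∪ d)) = κ (e ∩ c) + κ (e ∩ d) := by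
    intro e
    rw [inter_union_distrib_left, h.add]
    exact hcd.mono inter_subset_right inter_subset_right
  apply le_antisymm
  · apply u_le (h.res _)
    filter_upwards [ae_le_u (h.res c), ae_le_u (h.res d)] with x h1 h2
    show κ (S x ∩ (c ∪ d)) ≤ _
    rw [key]
    exact add_le_add h1 h2
  · by_contra hlt
    push Not at hlt
    set δ := (U κ c + U κ d - U κ (c ∪ d)) / 2 with hδ
    have hδ0 : 0 < δ := by linarith
    have h1 : fair {x | U κ c - δ < res κ c (S x)} = 1 := full_lt (h.res c) (by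
      show U κ c - δ < U κ c
      linarith)
    have h2 : fair {x | U κ d - δ < res κ d (S x)} = 1 := full_lt (h.res d) (by
      show U κ d - δ < U κ d
      linarith)
    have h3 : (fair.prod fair) ({x | U κ c - δ < res κ c (S x)} ×ˢ
        {x | U κ d - δ < res κ d (S x)}) = 1 := by
      rw [prod_prod, h1, h2, one_mul]
    have h4 : ∀ᵐ p ∂(fair.prod fair), res κ (c ∪ d) (S (mix c p)) ≤ U κ (c ∪ d) :=
      (mix_preserving c).quasiMeasurePreserving.ae (ae_le_u (h.res (c ∪ d)))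
    obtain ⟨⟨x, y⟩, ⟨hx, hy⟩, hxy⟩ := exists_mem_of_full h3 h4
    have h5 : κ (S (mix c (x, y)) ∩ (c ∪ d)) ≤ U κ (c ∪ d) := hxy
    have hx' : U κ c - δ < κ (S x ∩ c) := hx
    have hy' : U κ d - δ < κ (S y ∩ d) := hy
    rw [key, S_mix_inter, S_mix_diff c d hcd] at h5
    linarith

lemma U_le {κ : Set ℕ → ℝ} (h : FA κ) (c : Set ℕ) : U κ c ≤ κ c := by
  have := u_le_univ (h.res c)
  rwa [res, univ_inter] at this

lemma le_U {κ : Set ℕ → ℝ} (h : FA κ) (c : Set ℕ) : κ c ≤ 2 * U κ c := by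
  have := univ_le_u (h.res c)
  rwa [res, univ_inter] at this

lemma FA.U {κ : Set ℕ → ℝ} (h : FA κ) : FA (U κ) where
  nonneg := fun c => u_nonneg (h.res c)
  add := fun _ _ hcd => U_add h hcd
  fin := fun c hc => le_antisymm ((U_le h c).trans (h.fin c hc).le) (u_nonneg (h.res c))

lemma res_univ (κ : Set ℕ → ℝ) : res κ univ = κ := by
  funext e
  rw [res, inter_univ]

lemma U_univ (κ : Set ℕ → ℝ) : U κ univ = u κ := by
  rw [U, res_univ]

end Pool.Agent.Helper882.QR
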