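import Pool.Agent.Helper882.QRKey

set_option autoImplicit false
set_option linter.unusedSectionVars false

open MeasureTheory Measure Set Topology Filter ProbabilityTheory
open scoped ENNReal

namespace Pool.Agent.Helper882.QR

/-- a set meeting every closed set of positive measure has full outer measure -/
lemma full_of_closed {α : Type*} [TopologicalSpace α] [MeasurableSpace α] [BorelSpace α]
    {μ : Measure α} [IsProbabilityMeasure μ] [InnerRegularCompactLTTop μ] {E : Set α}
    (h : ∀ K : Set α, IsCompact K → μ K ≠ 0 → (K ∩ E).Nonempty) : μ E = 1 := by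
  by_contra hne
  have hB : MeasurableSet (toMeasurable μ E) := measurableSet_toMeasurable _ _
  have h1 : μ (toMeasurable μ E) ≠ 1 := by rwa [measure_toMeasurable]
  have h2 : μ (toMeasurable μ E)ᶜ ≠ 0 := by
    rw [Ne, prob_compl_eq_zero_iff hB]
    exact h1
  obtain ⟨K, hK, hKc, hK0⟩ := hB.compl.exists_lt_isCompact_of_ne_top (measure_ne_top _ _)
    (pos_iff_ne_zero.mpr h2)
  obtain ⟨x, hxK, hxE⟩ := h K hKc hK0.ne'
  exact hK hxK (subset_toMeasurable _ _ hxE)

section exact

variable {κ : Set ℕ → ℝ}

/-- near-optimality for sparse random sets -/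
lemma full_sparse (h : FA κ) (hU : U κ = κ) (j : ℕ) (ε : ℝ) (hε : 0 < ε) :
    bern (half ^ (j + 1)) {x | κ univ - ε < κ (S x)} = 1 := by
  induction j generalizing ε with
  | zero =>
    rw [zero_add, pow_one]
    have h1 : u κ = κ univ := by rw [← U_univ, hU]
    have := full_lt h (r := κ univ - ε) (by rw [h1]; linarith)
    exact this
  | succ j ih =>
    have h1 := ih (ε / 2) (by positivity)
    have h0 : fair {x | κ univ - ε / 2 < κ (S x)} = 1 := by
      have h1 : u κ = κ univ := by rw [← U_univ, hU]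
      exact full_lt h (r := κ univ - ε / 2) (by rw [h1]; linarith)
    have hmap := bern_inter (half ^ (j + 1)) half
    have hmeas : Measurable (fun (p : (ℕ → Bool) × (ℕ → Bool)) i => p.1 i && p.2 i) := by fun_prop
    rw [pow_succ half (j + 1), ← hmap]
    apply le_antisymm
    · have : IsProbabilityMeasure (((bern (half ^ (j + 1))).prod (bern half)).map
        (fun p i => p.1 i && p.2 i)) := isProbabilityMeasure_map hmeas.aemeasurable
      exact prob_le_one
    · refine le_trans ?_ (le_map_apply hmeas.aemeasurable _)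
      have h2 : ((bern (half ^ (j + 1))).prod (bern half)) ({x | κ univ - ε / 2 < κ (S x)} ×ˢ
          {x | κ univ - ε / 2 < κ (S x)}) = 1 := by
        rw [prod_prod, h1, one_mul]
        exact h0
      rw [← h2]
      apply measure_mono
      rintro ⟨x, y⟩ ⟨hx, hy⟩
      have hx' : κ univ - ε / 2 < κ (S x) := hx
      have hy' : κ univ - ε / 2 < κ (S y) := hy
      have e0 : S (fun i => x i && y i) = S x ∩ S y := by
        ext n
        show (x n && y n) = true ↔ x n = true ∧ y n = true
        simp
      show κ univ - ε < κ (S (fun i => x i && y i))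
      rw [e0]
      have e1 := h.inter_add_diff (S x) (S y)
      have e2 := h.inter_add_diff univ (S y)
      rw [univ_inter] at e2
      have e3 := h.mono (show S x \ S y ⊆ univ \ S y from sdiff_subset_sdiff_left (subset_univ _))
      linarith

/-- the one-step extension -/
lemma exact_step (h : FA κ) (hU : U κ = κ) (K : Set (ℕ → Bool)) (hK : IsClosed K) (n : ℕ)
    (s : unitInterval) (A : ℕ → Bool)
    (hs : half ^ (n + 1) ≤ s) (hA : bern s {c | (fun i => A i || c i) ∈ K} ≠ 0) :
    ∃ (t : unitInterval) (b : ℕ → Bool), half ^ (n + 2) ≤ t ∧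
      bern t {c | (fun i => (A i || b i) || c i) ∈ K} ≠ 0 ∧
      κ univ - 1 / ((n : ℝ) + 1) < κ (S b) := by
  set q : unitInterval := half ^ (n + 2) with hq
  have hqv : (q : ℝ) = (1 / 2) ^ (n + 2) := by rw [hq]; rfl
  have hq0 : 0 < (q : ℝ) := by rw [hqv]; positivity
  have hq1 : (q : ℝ) < 1 := by
    rw [hqv]; exact pow_lt_one₀ (by norm_num) (by norm_num) (by omega)
  have hsv : (1 / 2 : ℝ) ^ (n + 1) ≤ s := hs
  have h2q : (1 / 2 : ℝ) ^ (n + 1) = 2 * q := by rw [hqv, pow_succ (1 / 2 : ℝ) (n + 1)]; ring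
  rw [h2q] at hsv
  have hs1 : (s : ℝ) ≤ 1 := s.2.2
  -- the remaining probability
  set tv : ℝ := 1 - (1 - s) / (1 - q) with htv
  have htq : (q : ℝ) ≤ tv := by
    rw [htv, le_sub_comm, div_le_iff₀ (by linarith)]
    nlinarith
  have ht1 : tv ≤ 1 := by
    rw [htv]
    have : 0 ≤ (1 - (s : ℝ)) / (1 - q) := div_nonneg (by linarith) (by linarith)
    linarith
  set t : unitInterval := ⟨tv, by linarith, ht1⟩ with ht
  have hst : unitInterval.symm (unitInterval.symm q * unitInterval.symm t) = s := by
    apply Subtype.ext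
    show 1 - (1 - (q : ℝ)) * (1 - tv) = s
    rw [htv, sub_sub_cancel, mul_div_cancel₀ _ (by linarith : (1 - (q : ℝ)) ≠ 0)]
    ring
  have hmap := bern_union q t
  rw [hst] at hmap
  have hmeas : Measurable (fun (p : (ℕ → Bool) × (ℕ → Bool)) i => p.1 i || p.2 i) := by fun_prop
  have hcl : IsClosed {c : ℕ → Bool | (fun i => A i || c i) ∈ K} := by
    apply hK.preimage
    apply continuous_pi
    intro i
    exact (continuous_of_discreteTopology (f := fun b : Bool => A i || b)).comp (continuous_apply i)
  set L : Set ((ℕ → Bool) × (ℕ → Bool)) := (fun p i => p.1 i || p.2 i) ⁻¹'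
    {c | (fun i => A i || c i) ∈ K} with hL
  have hLm : MeasurableSet L := hmeas hcl.measurableSet
  have hL0 : ((bern q).prod (bern t)) L ≠ 0 := by
    rw [hL, ← map_apply hmeas hcl.measurableSet, hmap]
    exact hA
  have hfull := full_sparse h hU (n + 1) (1 / ((n : ℝ) + 1)) (by positivity)
  rw [show n + 1 + 1 = n + 2 from rfl, ← hq] at hfull
  by_contra hno
  push Not at hno
  apply hL0
  rw [measure_prod_null hLm]
  -- the set of `b` with null section is measurable and contains a set of full outer measure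
  set G : Set (ℕ → Bool) := {b | bern t (Prod.mk b ⁻¹' L) = 0} with hG
  have hGm : MeasurableSet G :=
    (measurable_measure_prodMk_left hLm) (measurableSet_singleton 0)
  have hGE : {x | κ univ - 1 / ((n : ℝ) + 1) < κ (S x)} ⊆ G := by
    intro b hb
    by_contra hbG
    have h1 : bern t {c | (fun i => (A i || b i) || c i) ∈ K} ≠ 0 := by
      have h2 : {c : ℕ → Bool | (fun i => (A i || b i) || c i) ∈ K} = Prod.mk b ⁻¹' L := by
        ext c
        show (fun i => (A i || b i) || c i) ∈ K ↔ (fun i => A i || (b i || c i)) ∈ K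
        simp_rw [Bool.or_assoc]
      rw [h2]
      exact hbG
    have h3 := hno t b htq h1
    exact absurd hb (not_lt.mpr h3)
  have hG1 : bern q G = 1 := by
    apply le_antisymm prob_le_one
    rw [← hfull]
    exact measure_mono hGE
  have hGc : bern q Gᶜ = 0 := by rw [prob_compl_eq_zero_iff hGm]; exact hG1
  exact hGc

/-- Exactness: a fixed point of the envelope operator attains its bound on a set of full outer
measure. -/
lemma exact (h : FA κ) (hU : U κ = κ) : fair {x | κ (S x) = κ univ} = 1 := by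
  apply full_of_closed
  intro K hKc hK0
  have hK : IsClosed K := hKc.isClosed
  have hstep := exact_step h hU K hK
  choose! tt bb hh1 hh2 hh3 using hstep
  -- the sequence of states
  let st : ℕ → unitInterval × (ℕ → Bool) := fun n => Nat.rec (half, fun _ => false)
    (fun n p => (tt n p.1 p.2, fun i => p.2 i || bb n p.1 p.2 i)) n
  have hst : ∀ n, half ^ (n + 1) ≤ (st n).1 ∧
      bern (st n).1 {c | (fun i => (st n).2 i || c i) ∈ K} ≠ 0 := by
    intro n
    induction n with
    | zero =>
      refine ⟨by rw [zero_add, pow_one]; exact le_rfl, ?_⟩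
      have : {c : ℕ → Bool | (fun i => (st 0).2 i || c i) ∈ K} = K := by
        ext c
        show (fun i => false || c i) ∈ K ↔ c ∈ K
        simp
      rw [this]
      exact hK0
    | succ n ih =>
      exact ⟨hh1 n _ _ ih.1 ih.2, hh2 n _ _ ih.1 ih.2⟩
  let b : ℕ → ℕ → Bool := fun n => bb n (st n).1 (st n).2
  have hb : ∀ n : ℕ, κ univ - 1 / ((n : ℝ) + 1) < κ (S (b n)) := fun n =>
    hh3 n _ _ (hst n).1 (hst n).2
  have hsucc : ∀ n i, (st (n + 1)).2 i = ((st n).2 i || b n i) := fun n i => rfl
  have hmono : ∀ n m, n < m → ∀ i, b n i = true → (st m).2 i = true := by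
    intro n m hnm
    induction m with
    | zero => omega
    | succ m ih =>
      intro i hi
      rw [hsucc]
      rcases Nat.lt_succ_iff_lt_or_eq.mp hnm with h1 | h1
      · rw [ih h1 i hi]; simp
      · subst h1
        rw [hi]; simp
  -- points of K
  have hne : ∀ n, ∃ c : ℕ → Bool, (fun i => (st n).2 i || c i) ∈ K := by
    intro n
    obtain ⟨c, hc⟩ := nonempty_of_measure_ne_zero (hst n).2
    exact ⟨c, hc⟩
  choose c hc using hne
  let x : ℕ → (ℕ → Bool) := fun n i => (st n).2 i || c n i
  obtain ⟨a, haK, ha⟩ := hKc.ultrafilter_le_nhds ((hyperfilter ℕ : Ultrafilter ℕ).map x) (by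
    rw [le_principal_iff]
    exact mem_map.mpr (Filter.univ_mem' hc))
  refine ⟨a, haK, ?_⟩
  have hlim : Tendsto x (hyperfilter ℕ : Filter ℕ) (𝓝 a) := ha
  have hsub : ∀ m, S (b m) ⊆ S a := by
    intro m i hi
    have hi' : b m i = true := hi
    have h1 : Tendsto (fun n => x n i) (hyperfilter ℕ : Filter ℕ) (𝓝 (a i)) :=
      ((continuous_apply i).tendsto a).comp hlim
    have h2 : Tendsto (fun n => x n i) (hyperfilter ℕ : Filter ℕ) (𝓝 true) := by
      apply tendsto_const_nhds.congr'
      have h3 : ∀ᶠ n in (hyperfilter ℕ : Filter ℕ), m < n := by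
        have : (hyperfilter ℕ : Filter ℕ) ≤ atTop := by
          rw [← Nat.cofinite_eq_atTop]; exact hyperfilter_le_cofinite
        exact this (eventually_gt_atTop m)
      filter_upwards [h3] with n hn
      show true = ((st n).2 i || c n i)
      rw [hmono m n hn i hi']; simp
    exact tendsto_nhds_unique h1 h2
  show κ (S a) = κ univ
  apply le_antisymm (h.mono (subset_univ _))
  apply le_of_forall_pos_le_add
  intro ε hε
  obtain ⟨n, hn⟩ := exists_nat_one_div_lt hε
  have h1 := hb n
  have h2 := h.mono (hsub n)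
  linarith

end exact

/-- The main theorem on envelopes: for countably many finitely additive measures vanishing on
finite sets, simultaneously constant values are taken on a set of full outer measure. -/
theorem exists_const (κ : ℕ → Set ℕ → ℝ) (h : ∀ k, FA (κ k)) :
    ∃ r : ℕ → ℝ, fair {x | ∀ k, κ k (S x) = r k} = 1 := by
  -- a dominating measure
  let w : ℕ → ℝ := fun k => (1 / 2) ^ k / (κ k univ + 1)
  have hw0 : ∀ k, 0 < w k := fun k => by
    have := (h k).nonneg univ
    have h1 : (0 : ℝ) < (1 / 2) ^ k := by positivity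
    exact div_pos h1 (by linarith)
  have hbd : ∀ k e, w k * κ k e ≤ (1 / 2) ^ k := by
    intro k e
    have h1 := (h k).nonneg univ
    have h2 := (h k).mono (subset_univ e)
    have h3 : (0 : ℝ) ≤ (1 / 2) ^ k := by positivity
    show (1 / 2) ^ k / (κ k univ + 1) * κ k e ≤ _
    rw [div_mul_eq_mul_div, div_le_iff₀ (by linarith)]
    nlinarith
  have hsm : ∀ e, Summable (fun k => w k * κ k e) := by
    intro e
    apply Summable.of_nonneg_of_le (fun k => mul_nonneg (hw0 k).le ((h k).nonneg e))
      (fun k => hbd k e)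
    exact summable_geometric_of_lt_one (by norm_num) (by norm_num)
  let θ : Set ℕ → ℝ := fun e => ∑' k, w k * κ k e
  have hθ : FA θ := by
    constructor
    · intro a
      exact tsum_nonneg (fun k => mul_nonneg (hw0 k).le ((h k).nonneg a))
    · intro a b hab
      show ∑' k, w k * κ k (a ∪ b) = ∑' k, w k * κ k a + ∑' k, w k * κ k b
      rw [← (hsm a).tsum_add (hsm b)]
      congr 1
      funext k
      rw [(h k).add a b hab, mul_add]
    · intro a ha
      show ∑' k, w k * κ k a = 0
      have : (fun k => w k * κ k a) = fun _ => 0 := by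
        funext k
        rw [(h k).fin a ha, mul_zero]
      rw [this, tsum_zero]
  -- each `κ k` is dominated
  have hdom : ∀ k, ∃ N : ℕ, ∀ e, κ k e ≤ N * θ e := by
    intro k
    obtain ⟨N, hN⟩ := exists_nat_gt (1 / w k)
    refine ⟨N, fun e => ?_⟩
    have h1 : w k * κ k e ≤ θ e :=
      (hsm e).le_tsum k (fun j _ => mul_nonneg (hw0 j).le ((h j).nonneg e))
    have h2 : 1 < N * w k := by
      rw [div_lt_iff₀ (hw0 k)] at hN
      exact hN
    have h3 := (h k).nonneg e
    calc κ k e ≤ (N * w k) * κ k e := by nlinarith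
      _ = N * (w k * κ k e) := by ring
      _ ≤ N * θ e := by gcongr
  -- domination passes to the purely nonmeasurable parts
  have hmulFA : ∀ N : ℕ, ∀ κ' : Set ℕ → ℝ, FA κ' → FA (fun e => N * κ' e) ∧
      U (fun e => N * κ' e) = fun e => N * U κ' e := by
    intro N κ' hκ'
    induction N with
    | zero =>
      have hz : (fun e : Set ℕ => ((0 : ℕ) : ℝ) * κ' e) = fun _ => 0 := by funext e; simp
      have hz' : FA (fun _ : Set ℕ => (0 : ℝ)) :=
        ⟨fun _ => le_rfl, fun _ _ _ => by simp, fun _ _ => rfl⟩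
      rw [hz]
      refine ⟨hz', ?_⟩
      funext e
      have h1 := U_le hz' e
      have h2 := hz'.U.nonneg e
      have h3 : (0 : ℝ) = ((0 : ℕ) : ℝ) * U κ' e := by simp
      rw [← h3]
      exact le_antisymm h1 h2
    | succ N ih =>
      have h1 : (fun e => ((N + 1 : ℕ) : ℝ) * κ' e) = (fun e => (N : ℝ) * κ' e) + κ' := by
        funext e
        show ((N + 1 : ℕ) : ℝ) * κ' e = (N : ℝ) * κ' e + κ' e
        push_cast; ring
      rw [h1]
      refine ⟨ih.1.add' hκ', ?_⟩
      rw [U_add_fun ih.1 hκ', ih.2]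
      funext e
      show (N : ℝ) * U κ' e + U κ' e = ((N + 1 : ℕ) : ℝ) * U κ' e
      push_cast; ring
  have hpnm : ∀ k, ∃ N : ℕ, ∀ e, pnm (κ k) e ≤ N * pnm θ e := by
    intro k
    obtain ⟨N, hN⟩ := hdom k
    refine ⟨N, fun e => ?_⟩
    obtain ⟨hF, hFU⟩ := hmulFA N θ hθ
    have hsub := hF.sub' (h k) hN
    have h1 := (pnm_FA hsub).nonneg e
    have h2 : U ((fun e => (N : ℝ) * θ e) - κ k) = (fun e => (N : ℝ) * U θ e) - U (κ k) := by
      have h3 := U_add_fun hsub (h k)
      rw [sub_add_cancel, hFU] at h3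
      exact eq_sub_of_add_eq h3.symm
    unfold pnm at h1 ⊢
    rw [h2] at h1
    have h4 : 0 ≤ ((N : ℝ) * U θ e - U (κ k) e) -
      (((N : ℝ) * θ e - κ k e) - ((N : ℝ) * U θ e - U (κ k) e)) := h1
    show U (κ k) e - (κ k e - U (κ k) e) ≤ N * (U θ e - (θ e - U θ e))
    linarith
  -- conclusion
  refine ⟨fun k => pnm (κ k) univ + mea (κ k) univ / 2, ?_⟩
  have hex := exact (pnm_FA hθ) (U_pnm hθ)
  have hae : ∀ᵐ x ∂fair, ∀ k, mea (κ k) (S x) = mea (κ k) univ / 2 :=
    ae_all_iff.mpr (fun k => ae_mea (h k))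
  have := full_inter_ae hex hae
  apply le_antisymm prob_le_one
  rw [← this]
  apply measure_mono
  rintro x ⟨hx1, hx2⟩ k
  have hx1' : pnm θ (S x) = pnm θ univ := hx1
  have hc : pnm θ (S x)ᶜ = 0 := by
    have h1 := (pnm_FA hθ).inter_add_diff univ (S x)
    rw [univ_inter, ← compl_eq_univ_sdiff] at h1
    linarith
  obtain ⟨N, hN⟩ := hpnm k
  have h1 := (pnm_FA (h k)).inter_add_diff univ (S x)
  rw [univ_inter, ← compl_eq_univ_sdiff] at h1
  have h2 := hN (S x)ᶜ
  rw [hc, mul_zero] at h2
  have h3 := (pnm_FA (h k)).nonneg (S x)ᶜ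
  rw [← pnm_add_mea (κ k) (S x), hx2 k]
  linarith

end Pool.Agent.Helper882.QR
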