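import Pool.Agent.Helper882.QRExact

set_option autoImplicit false
set_option linter.unusedSectionVars false

open MeasureTheory Measure Set Topology Filter ProbabilityTheory
open scoped ENNReal BoundedContinuousFunction

namespace Pool.Agent.Helper882.QR

/-- The Banach space of bounded real sequences. -/
abbrev LI : Type := ℕ →ᵇ ℝ

/-- the indicator sequence of a set -/
noncomputable def ind (a : Set ℕ) : LI :=
  BoundedContinuousFunction.ofNormedAddCommGroup (a.indicator (fun _ => (1 : ℝ)))
    continuous_of_discreteTopology 1 (by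
      intro n
      by_cases h : n ∈ a
      · rw [indicator_of_mem h]; simp
      · rw [indicator_of_notMem h]; simp)

lemma ind_apply (a : Set ℕ) (n : ℕ) : ind a n = a.indicator (fun _ => (1 : ℝ)) n := rfl

lemma ind_add (a b : Set ℕ) (h : Disjoint a b) : ind (a ∪ b) = ind a + ind b := by
  ext n
  rw [BoundedContinuousFunction.add_apply, ind_apply, ind_apply, ind_apply,
    indicator_union_of_disjoint h]

lemma ind_norm (a : Set ℕ) : ‖ind a‖ ≤ 1 :=
  BoundedContinuousFunction.norm_ofNormedAddCommGroup_le _ zero_le_one _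

variable (φ : LI →L[ℝ] ℝ)

/-- the values on the unit vectors -/
noncomputable def co (n : ℕ) : ℝ := φ (ind {n})

/-- a finitely supported sequence -/
noncomputable def fs (F : Finset ℕ) (r : ℕ → ℝ) : LI := ∑ n ∈ F, r n • ind {n}

lemma fs_apply (F : Finset ℕ) (r : ℕ → ℝ) (k : ℕ) : fs F r k = if k ∈ F then r k else 0 := by
  classical
  unfold fs
  rw [BoundedContinuousFunction.coe_sum, Finset.sum_apply]
  have : ∀ n ∈ F, (r n • ind {n} : LI) k = if k = n then r k else 0 := by
    intro n _
    rw [BoundedContinuousFunction.smul_apply, ind_apply, smul_eq_mul]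
    by_cases h : k = n
    · subst h; simp
    · rw [if_neg h, indicator_of_notMem (by simpa using h), mul_zero]
  rw [Finset.sum_congr rfl this, Finset.sum_ite_eq]

lemma co_sum (F : Finset ℕ) : ∑ n ∈ F, |co φ n| ≤ ‖φ‖ := by
  have h1 : ∑ n ∈ F, |co φ n| = φ (fs F (fun n => SignType.sign (co φ n))) := by
    unfold fs
    rw [_root_.map_sum]
    apply Finset.sum_congr rfl
    intro n _
    rw [_root_.map_smul, smul_eq_mul]
    exact (sign_mul_self _).symm
  rw [h1]
  refine (le_abs_self _).trans ((φ.le_opNorm _).trans ?_)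
  have h2 : ‖fs F (fun n => (SignType.sign (co φ n) : ℝ))‖ ≤ 1 := by
    rw [BoundedContinuousFunction.norm_le zero_le_one]
    intro k
    rw [fs_apply]
    split_ifs
    · rcases lt_trichotomy (co φ k) 0 with h | h | h
      · rw [sign_neg h]; simp
      · rw [h]; simp
      · rw [sign_pos h]; simp
    · simp
  calc ‖φ‖ * _ ≤ ‖φ‖ * 1 := by gcongr
    _ = ‖φ‖ := mul_one _

lemma co_summable : Summable (fun n => |co φ n|) :=
  summable_of_sum_le (fun _ => abs_nonneg _) (co_sum φ)

/-- the `ℓ^1` part -/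
noncomputable def reg (a : Set ℕ) : ℝ := ∑' n, a.indicator (co φ) n

lemma reg_summable (a : Set ℕ) : Summable (fun n => a.indicator (co φ) n) := by
  apply Summable.of_norm_bounded (co_summable φ)
  intro n
  rw [Real.norm_eq_abs]
  by_cases h : n ∈ a
  · rw [indicator_of_mem h]
  · rw [indicator_of_notMem h, abs_zero]; exact abs_nonneg _

/-- the singular part -/
noncomputable def sing (a : Set ℕ) : ℝ := φ (ind a) - reg φ a

lemma reg_add (a b : Set ℕ) (h : Disjoint a b) : reg φ (a ∪ b) = reg φ a + reg φ b := by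
  unfold reg
  rw [← (reg_summable φ a).tsum_add (reg_summable φ b)]
  congr 1
  funext n
  rw [indicator_union_of_disjoint h]

lemma reg_bound (a : Set ℕ) : |reg φ a| ≤ ‖φ‖ := by
  unfold reg
  have h1 := norm_tsum_le_tsum_norm (reg_summable φ a).norm
  rw [Real.norm_eq_abs] at h1
  refine h1.trans ?_
  have h2 : ∑' n, ‖a.indicator (co φ) n‖ ≤ ∑' n, |co φ n| := by
    apply (reg_summable φ a).norm.tsum_le_tsum _ (co_summable φ)
    intro n
    rw [Real.norm_eq_abs]
    by_cases h : n ∈ a
    · rw [indicator_of_mem h]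
    · rw [indicator_of_notMem h, abs_zero]; exact abs_nonneg _
  refine h2.trans ?_
  exact (co_summable φ).tsum_le_of_sum_le (co_sum φ)

lemma sing_add (a b : Set ℕ) (h : Disjoint a b) : sing φ (a ∪ b) = sing φ a + sing φ b := by
  unfold sing
  rw [ind_add a b h, map_add, reg_add φ a b h]; ring

lemma sing_bound (a : Set ℕ) : |sing φ a| ≤ 2 * ‖φ‖ := by
  unfold sing
  have h1 := reg_bound φ a
  have h2 : |φ (ind a)| ≤ ‖φ‖ := by
    refine (φ.le_opNorm _).trans ?_
    calc ‖φ‖ * _ ≤ ‖φ‖ * 1 := by gcongr; exact ind_norm a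
      _ = ‖φ‖ := mul_one _
  have h3 := abs_sub (φ (ind a)) (reg φ a)
  linarith

lemma sing_fin (a : Set ℕ) (h : a.Finite) : sing φ a = 0 := by
  classical
  unfold sing reg
  have h1 : ind a = fs h.toFinset (fun _ => 1) := by
    ext n
    rw [fs_apply, ind_apply]
    by_cases hn : n ∈ a
    · rw [indicator_of_mem hn, if_pos (h.mem_toFinset.mpr hn)]
    · rw [indicator_of_notMem hn, if_neg (by rwa [h.mem_toFinset])]
  have h2 : ∑' n, a.indicator (co φ) n = ∑ n ∈ h.toFinset, a.indicator (co φ) n := by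
    apply tsum_eq_sum
    intro n hn
    rw [h.mem_toFinset] at hn
    exact indicator_of_notMem hn _
  rw [h1, h2]
  unfold fs
  rw [_root_.map_sum, ← Finset.sum_sub_distrib]
  apply Finset.sum_eq_zero
  intro n hn
  rw [h.mem_toFinset] at hn
  rw [_root_.map_smul, indicator_of_mem hn, one_smul]
  exact sub_self _

/-- Jordan decomposition -/
lemma jordan (ψ : Set ℕ → ℝ) (hadd : ∀ a b, Disjoint a b → ψ (a ∪ b) = ψ a + ψ b) (M : ℝ)
    (hM : ∀ a, |ψ a| ≤ M) (hfin : ∀ a : Set ℕ, a.Finite → ψ a = 0) :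
    ∃ κ₁ κ₂ : Set ℕ → ℝ, FA κ₁ ∧ FA κ₂ ∧ ∀ a, ψ a = κ₁ a - κ₂ a := by
  let κ₁ : Set ℕ → ℝ := fun a => sSup {r | ∃ b, b ⊆ a ∧ r = ψ b}
  have hbdd : ∀ a, BddAbove {r | ∃ b, b ⊆ a ∧ r = ψ b} := by
    intro a
    refine ⟨M, ?_⟩
    rintro r ⟨b, _, rfl⟩
    exact (le_abs_self _).trans (hM b)
  have hne : ∀ a, {r | ∃ b, b ⊆ a ∧ r = ψ b}.Nonempty := fun a => ⟨ψ a, a, subset_rfl, rfl⟩
  have hle : ∀ a b, b ⊆ a → ψ b ≤ κ₁ a := fun a b hb => le_csSup (hbdd a) ⟨b, hb, rfl⟩
  have hup : ∀ a r, (∀ b, b ⊆ a → ψ b ≤ r) → κ₁ a ≤ r := by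
    intro a r hr
    apply csSup_le (hne a)
    rintro s ⟨b, hb, rfl⟩
    exact hr b hb
  have h1 : FA κ₁ := by
    constructor
    · intro a
      have := hle a ∅ (empty_subset _)
      rw [hfin ∅ finite_empty] at this
      exact this
    · intro a a' haa
      apply le_antisymm
      · apply hup
        intro b hb
        have e1 : b = (b ∩ a) ∪ (b ∩ a') := by
          rw [← inter_union_distrib_left, inter_eq_self_of_subset_left hb]
        rw [e1, hadd _ _ (haa.mono inter_subset_right inter_subset_right)]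
        exact add_le_add (hle a _ inter_subset_right) (hle a' _ inter_subset_right)
      · have e1 : κ₁ a ≤ κ₁ (a ∪ a') - κ₁ a' := by
          apply hup
          intro b hb
          have e2 : κ₁ a' ≤ κ₁ (a ∪ a') - ψ b := by
            apply hup
            intro b' hb'
            have e3 := hle (a ∪ a') (b ∪ b') (union_subset_union hb hb')
            rw [hadd _ _ (haa.mono hb hb')] at e3
            linarith
          linarith
        linarith
    · intro a ha
      apply le_antisymm
      · apply hup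
        intro b hb
        rw [hfin b (ha.subset hb)]
      · have := hle a ∅ (empty_subset _)
        rw [hfin ∅ finite_empty] at this
        exact this
  refine ⟨κ₁, fun a => κ₁ a - ψ a, h1, ?_, fun a => by ring⟩
  constructor
  · intro a
    have := hle a a subset_rfl
    linarith
  · intro a b hab
    show κ₁ (a ∪ b) - ψ (a ∪ b) = (κ₁ a - ψ a) + (κ₁ b - ψ b)
    rw [h1.add a b hab, hadd a b hab]; ring
  · intro a ha
    show κ₁ a - ψ a = 0
    rw [h1.fin a ha, hfin a ha, sub_zero]

/-- For a sequence of functionals the singular parts agree on the two components of a random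
pair, for a set of pairs of full outer measure. -/
lemma full_pairs_seq (Φ : ℕ → LI →L[ℝ] ℝ) :
    (fair.prod fair) {p | ∀ k, sing (Φ k) (S p.1) = sing (Φ k) (S p.2)} = 1 := by
  choose κ₁ κ₂ h1 h2 h3 using fun k => jordan (sing (Φ k)) (sing_add (Φ k)) (2 * ‖Φ k‖)
    (sing_bound (Φ k)) (sing_fin (Φ k))
  let K : ℕ → Set ℕ → ℝ := fun n => if Even n then κ₁ (n / 2) else κ₂ (n / 2)
  have hK : ∀ n, FA (K n) := by
    intro n
    by_cases hn : Even n
    · simp only [K, hn, if_true]; exact h1 _
    · simp only [K, hn, if_false]; exact h2 _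
  obtain ⟨r, hr⟩ := exists_const K hK
  apply le_antisymm prob_le_one
  have h4 : (fair.prod fair) ({x | ∀ k, K k (S x) = r k} ×ˢ {x | ∀ k, K k (S x) = r k}) = 1 := by
    rw [prod_prod, hr, one_mul]
  rw [← h4]
  apply measure_mono
  rintro ⟨x, y⟩ ⟨hx, hy⟩ k
  have hx' : ∀ k, K k (S x) = r k := hx
  have hy' : ∀ k, K k (S y) = r k := hy
  show sing (Φ k) (S x) = sing (Φ k) (S y)
  rw [h3, h3]
  have e1 : K (2 * k) = κ₁ k := by
    have : Even (2 * k) := even_two_mul k
    simp only [K, this, if_true]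
    rw [Nat.mul_div_cancel_left _ (by norm_num)]
  have e2 : K (2 * k + 1) = κ₂ k := by
    have : ¬ Even (2 * k + 1) := by
      rw [Nat.not_even_iff_odd]; exact odd_two_mul_add_one k
    simp only [K, this, if_false]
    congr 1
    omega
  have a1 := hx' (2 * k)
  have a2 := hy' (2 * k)
  have a3 := hx' (2 * k + 1)
  have a4 := hy' (2 * k + 1)
  rw [e1] at a1 a2
  rw [e2] at a3 a4
  rw [a1, a2, a3, a4]

lemma full_pairs (T : Set (LI →L[ℝ] ℝ)) (hT : T.Countable) :
    (fair.prod fair) {p | ∀ φ ∈ T, sing φ (S p.1) = sing φ (S p.2)} = 1 := by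
  rcases T.eq_empty_or_nonempty with h | h
  · subst h
    simp
  · obtain ⟨Φ, hΦ⟩ := hT.exists_eq_range h
    rw [← full_pairs_seq Φ]
    congr 1
    ext p
    rw [hΦ]
    simp

end Pool.Agent.Helper882.QR
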