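import Pool.Agent.Helper882.QRFunc

set_option autoImplicit false
set_option linter.unusedSectionVars false

open MeasureTheory Measure Set Topology Filter ProbabilityTheory
open scoped ENNReal

namespace Pool.Agent.Helper882.QR

/-- the index set of coordinates -/
abbrev II : Type := (ℕ ⊕ ℕ) ⊕ ((LI →L[ℝ] ℝ) × ℕ)

/-- the compact group of all boolean functions on the index set -/
def GG : Type := II → Bool

instance : TopologicalSpace GG := inferInstanceAs (TopologicalSpace (II → Bool))
instance : CompactSpace GG := inferInstanceAs (CompactSpace (II → Bool))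
instance : T2Space GG := inferInstanceAs (T2Space (II → Bool))
noncomputable instance : AddCommGroup GG := inferInstanceAs (AddCommGroup (II → Bool))
instance : IsTopologicalAddGroup GG := inferInstanceAs (IsTopologicalAddGroup (II → Bool))
instance : MeasurableSpace GG := borel GG
instance : BorelSpace GG := ⟨rfl⟩
instance : Nonempty GG := ⟨fun _ => false⟩

/-- normalized Haar measure -/
noncomputable def mm : Measure GG := addHaarMeasure ⊤

instance : mm.IsAddHaarMeasure := by unfold mm; infer_instance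
instance : mm.Regular := by unfold mm; infer_instance
instance : IsProbabilityMeasure mm := by
  constructor
  unfold mm
  have := addHaarMeasure_self (G := GG) (K₀ := ⊤)
  simpa using this

lemma apply_continuous (i : II) : Continuous (fun x : GG => x i) := continuous_apply i

lemma open_nhds (x : GG) (O : Set GG) (hO : IsOpen O) (hx : x ∈ O) :
    ∃ F : Finset II, ∀ y : GG, (∀ i ∈ F, y i = x i) → y ∈ O := by
  obtain ⟨F, u, hu1, hu2⟩ := isOpen_pi_iff.mp hO x hx
  refine ⟨F, fun y hy => hu2 ?_⟩
  intro i hi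
  rw [hy i hi]
  exact (hu1 i hi).2

/-- cylinders are open -/
lemma cyl_open (F : Finset II) (x : GG) : IsOpen {y : GG | ∀ i ∈ F, y i = x i} := by
  have : {y : GG | ∀ i ∈ F, y i = x i} = ⋂ i ∈ F, {y : GG | y i = x i} := by
    ext y; simp
  rw [this]
  apply isOpen_biInter_finset
  intro i _
  exact (isOpen_discrete {x i}).preimage (apply_continuous i)

/-- the saturation of a set with respect to a set of coordinates -/
def sat (J : Set II) (O : Set GG) : Set GG := {x | ∃ y ∈ O, ∀ i ∈ J, x i = y i}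

lemma subset_sat (J : Set II) (O : Set GG) : O ⊆ sat J O := fun x hx => ⟨x, hx, fun _ _ => rfl⟩

lemma sat_mono {J J' : Set II} (h : J ⊆ J') (O : Set GG) : sat J' O ⊆ sat J O := by
  rintro x ⟨y, hy, hxy⟩
  exact ⟨y, hy, fun i hi => hxy i (h hi)⟩

open Classical in
/-- combine two points along a set of coordinates -/
noncomputable def comb (J : Set II) (x y : GG) : GG := fun i => if i ∈ J then x i else y i

lemma comb_mem (J : Set II) (x y : GG) (i : II) (hi : i ∈ J) : comb J x y i = x i := by
  unfold comb; rw [if_pos hi]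

lemma comb_notMem (J : Set II) (x y : GG) (i : II) (hi : i ∉ J) : comb J x y i = y i := by
  unfold comb; rw [if_neg hi]

/-- a neighbourhood of a point of the saturation -/
lemma sat_nhds (J : Set II) (O : Set GG) (hO : IsOpen O) (x : GG) (hx : x ∈ sat J O) :
    ∃ (F : Finset II) (z : GG), (∀ i ∈ J, z i = x i) ∧
      (∀ w : GG, (∀ i ∈ F, w i = z i) → w ∈ O) := by
  obtain ⟨y, hy, hxy⟩ := hx
  obtain ⟨F, hF⟩ := open_nhds y O hO hy
  exact ⟨F, y, fun i hi => (hxy i hi).symm, hF⟩

lemma sat_open (J : Set II) (O : Set GG) (hO : IsOpen O) : IsOpen (sat J O) := by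
  classical
  rw [isOpen_iff_forall_mem_open]
  intro x hx
  obtain ⟨F, z, hz, hF⟩ := sat_nhds J O hO x hx
  refine ⟨{y : GG | ∀ i ∈ F.filter (· ∈ J), y i = x i}, ?_, cyl_open _ _, fun i _ => rfl⟩
  intro y hy
  refine ⟨comb J y z, hF _ ?_, fun i hi => (comb_mem J y z i hi).symm⟩
  intro i hi
  by_cases hiJ : i ∈ J
  · rw [comb_mem J _ _ i hiJ, hy i (Finset.mem_filter.mpr ⟨hi, hiJ⟩), hz i hiJ]
  · rw [comb_notMem J _ _ i hiJ]

/-- the key covering lemma: if `N` is null, `N` contains every point of a cylinder outside a set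
`W₀` determined by `J`, then the `J`-part of the cylinder outside `W₀` is null. -/
lemma null_of_cyl (J : Set II) (W : Set GG) (hW : ∀ x y : GG, (∀ i ∈ J, x i = y i) → x ∈ W → y ∈ W)
    (F : Finset II) (hFJ : ∀ i ∈ F, i ∉ J) (z : GG)
    (hnull : mm (W ∩ {y | ∀ i ∈ F, y i = z i}) = 0) : mm W = 0 := by
  classical
  -- translations supported on `F`
  let t : Finset II → GG := fun E i => decide (i ∈ E)
  have hcov : W ⊆ ⋃ E ∈ F.powerset, (fun x => t E + x) ⁻¹' (W ∩ {y | ∀ i ∈ F, y i = z i}) := by
    intro w hw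
    rw [mem_iUnion₂]
    refine ⟨F.filter (fun i => w i ≠ z i), Finset.mem_powerset.mpr (Finset.filter_subset _ _), ?_⟩
    have key : ∀ i, (t (F.filter (fun i => w i ≠ z i)) + w) i =
        if i ∈ F then z i else w i := by
      intro i
      show xor (decide (i ∈ F.filter (fun i => w i ≠ z i))) (w i) = _
      by_cases hi : i ∈ F
      · rw [if_pos hi]
        by_cases h2 : w i = z i
        · have : i ∉ F.filter (fun i => w i ≠ z i) := by simp [h2]
          simp [this, h2]
        · have : i ∈ F.filter (fun i => w i ≠ z i) := by simp [h2, hi]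
          simp only [this, decide_true, Bool.true_xor]
          cases hw : w i <;> cases hz : z i <;> simp_all
      · rw [if_neg hi]
        have : i ∉ F.filter (fun i => w i ≠ z i) := by simp [hi]
        simp [this]
    constructor
    · apply hW w _ _ hw
      intro i hi
      have : i ∉ F := fun h => hFJ i h hi
      show w i = (t (F.filter (fun i => w i ≠ z i)) + w) i
      rw [key, if_neg this]
    · intro i hi
      show (t (F.filter (fun i => w i ≠ z i)) + w) i = z i
      rw [key, if_pos hi]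
  apply measure_mono_null hcov
  refine (measure_biUnion_null_iff (Finset.countable_toSet (F.powerset))).mpr ?_
  intro E _
  exact (measure_preimage_add mm (t E) _).trans hnull

/-- Every open set has, up to measure zero, a saturation with respect to a countable set of
coordinates. -/
lemma exists_sat (O : Set GG) (hO : IsOpen O) : ∃ J : Set II, J.Countable ∧ mm (sat J O) = mm O := by
  classical
  -- compact exhaustion
  have h1 : ∀ n : ℕ, ∃ K ⊆ O, IsCompact K ∧ mm O ≤ mm K + 1 / ((n : ℝ≥0∞) + 1) := by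
    intro n
    have hpos : (1 / ((n : ℝ≥0∞) + 1)) ≠ 0 := by
      rw [one_div]
      exact ENNReal.inv_ne_zero.mpr (by simp)
    obtain ⟨K, hK, hKc, hK1⟩ := hO.measurableSet.exists_isCompact_lt_add (measure_ne_top mm O) hpos
    exact ⟨K, hK, hKc, hK1.le⟩
  choose K hKO hKc hKm using h1
  -- finite covers by cylinders
  have h2 : ∀ n : ℕ, ∃ (J : Set II) (W : Set GG), J.Countable ∧ IsOpen W ∧ K n ⊆ W ∧ W ⊆ O ∧
      ∀ x y : GG, (∀ i ∈ J, x i = y i) → x ∈ W → y ∈ W := by
    intro n
    choose! F hF using fun (x : GG) (hx : x ∈ K n) => open_nhds x O hO (hKO n hx)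
    obtain ⟨T, hT1, hT2⟩ := (hKc n).elim_nhds_subcover (fun x => {y : GG | ∀ i ∈ F x, y i = x i})
      (fun x _ => (cyl_open (F x) x).mem_nhds (fun i _ => rfl))
    refine ⟨⋃ x ∈ T, (F x : Set II), ⋃ x ∈ T, {y : GG | ∀ i ∈ F x, y i = x i}, ?_, ?_, hT2, ?_, ?_⟩
    · exact (Finset.countable_toSet T).biUnion (fun x _ => Finset.countable_toSet _)
    · exact isOpen_biUnion (fun x _ => cyl_open _ _)
    · intro y hy
      rw [mem_iUnion₂] at hy
      obtain ⟨x, hx, hxy⟩ := hy
      exact hF x (hT1 x hx) y hxy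
    · intro x y hxy hx
      rw [mem_iUnion₂] at hx ⊢
      obtain ⟨w, hw, hwx⟩ := hx
      refine ⟨w, hw, fun i hi => ?_⟩
      rw [← hxy i (mem_iUnion₂.mpr ⟨w, hw, hi⟩)]
      exact hwx i hi
  choose J W hJc hWo hKW hWO hWJ using h2
  set J' : Set II := ⋃ n, J n with hJ'
  set O' : Set GG := ⋃ n, W n with hO'
  have hO'o : IsOpen O' := isOpen_iUnion hWo
  have hO'O : O' ⊆ O := iUnion_subset hWO
  have hO'm : mm O' = mm O := by
    apply le_antisymm (measure_mono hO'O)
    apply le_of_forall_pos_le_add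
    intro ε hε
    obtain ⟨n, hn⟩ := ENNReal.exists_inv_nat_lt hε.ne'
    calc mm O ≤ mm (K n) + 1 / ((n : ℝ≥0∞) + 1) := hKm n
      _ ≤ mm O' + ε := by
        gcongr
        · exact (hKW n).trans (subset_iUnion W n)
        · rw [one_div]
          refine le_trans ?_ hn.le
          exact ENNReal.inv_le_inv.mpr (by simp)
  have hO'J : ∀ x y : GG, (∀ i ∈ J', x i = y i) → x ∈ O' → y ∈ O' := by
    intro x y hxy hx
    obtain ⟨n, hn⟩ := mem_iUnion.mp hx
    exact mem_iUnion.mpr ⟨n, hWJ n x y (fun i hi => hxy i (mem_iUnion.mpr ⟨n, hi⟩)) hn⟩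
  have hnull : mm (O \ O') = 0 := by
    have := measure_sdiff hO'O hO'o.measurableSet.nullMeasurableSet (measure_ne_top mm O')
    rw [this, hO'm, tsub_self]
  refine ⟨J', countable_iUnion hJc, ?_⟩
  -- local nullity
  have hloc : ∀ x ∈ sat J' O, ∃ t ∈ 𝓝 x, mm (t \ O') = 0 := by
    intro x hx
    obtain ⟨F, z, hz, hF⟩ := sat_nhds J' O hO x hx
    refine ⟨{y : GG | ∀ i ∈ F.filter (· ∈ J'), y i = x i}, (cyl_open _ _).mem_nhds (fun i _ => rfl), ?_⟩
    apply null_of_cyl J' _ _ (F.filter (· ∉ J')) (fun i hi => (Finset.mem_filter.mp hi).2) z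
    · apply measure_mono_null _ hnull
      rintro y ⟨⟨hy1, hy2⟩, hy3⟩
      refine ⟨hF y ?_, hy2⟩
      intro i hi
      by_cases hiJ : i ∈ J'
      · rw [hy1 i (Finset.mem_filter.mpr ⟨hi, hiJ⟩), hz i hiJ]
      · exact hy3 i (Finset.mem_filter.mpr ⟨hi, hiJ⟩)
    · rintro y w hyw ⟨hy1, hy2⟩
      refine ⟨?_, fun hw => hy2 (hO'J w y (fun i hi => (hyw i hi).symm) hw)⟩
      intro i hi
      rw [← hyw i (Finset.mem_filter.mp hi).2]
      exact hy1 i hi
  -- conclusion by inner regularity
  apply le_antisymm _ (measure_mono (subset_sat J' O))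
  rw [← hO'm]
  apply le_of_forall_lt
  intro r hr
  obtain ⟨C, hC, hCc, hCr⟩ := (sat_open J' O hO).exists_lt_isCompact hr
  refine hCr.trans_le ?_
  have h3 : mm (C \ O') = 0 := by
    apply (hCc.diff hO'o).measure_zero_of_nhdsWithin
    intro x hx
    obtain ⟨t, ht, ht0⟩ := hloc x (hC hx.1)
    refine ⟨t ∩ (C \ O'), inter_mem (mem_nhdsWithin_of_mem_nhds ht) self_mem_nhdsWithin, ?_⟩
    apply measure_mono_null _ ht0
    rintro y ⟨hy1, hy2⟩
    exact ⟨hy1, hy2.2⟩
  calc mm C ≤ mm (C \ O') + mm O' := by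
        refine (measure_mono ?_).trans (measure_union_le _ _)
        intro y hy
        by_cases h : y ∈ O'
        · exact Or.inr h
        · exact Or.inl ⟨hy, h⟩
    _ = mm O' := by rw [h3, zero_add]

end Pool.Agent.Helper882.QR
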