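import Pool.Agent.Helper882.QRLinear

set_option autoImplicit false
set_option linter.unusedSectionVars false

open MeasureTheory Measure Set Topology Filter ProbabilityTheory
open scoped ENNReal

namespace Pool.Agent.Helper882.QR

/-- resampling along a random set -/
def mix3 (p : (ℕ → Bool) × ((ℕ → Bool) × (ℕ → Bool))) : ℕ → Bool :=
  fun i => if p.2.1 i then p.2.2 i else p.1 i

lemma mix3_preserving : MeasurePreserving mix3 (fair.prod (fair.prod fair)) fair := by
  have h1 : MeasurePreserving (fun (p : (ℕ → Bool) × (ℕ → Bool)) (i : ℕ) => (p.1 i, p.2 i))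
      (fair.prod fair) (infinitePi (fun _ : ℕ => (coin half).prod (coin half))) := by
    constructor
    · fun_prop
    · have := prod_infinitePi_map (fun _ : ℕ => coin half) (fun _ : ℕ => coin half)
        (fun _ q => q) (fun _ => measurable_id)
      simp only [show (fun q : Bool × Bool => q) = id from rfl, Measure.map_id] at this
      exact this
  have h2 := (MeasurePreserving.id fair).prod h1
  have hmeas : Measurable (fun q : Bool × (Bool × Bool) => if q.2.1 then q.2.2 else q.1) :=
    measurable_of_finite _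
  have h3 : MeasurePreserving (fun (p : (ℕ → Bool) × (ℕ → Bool × Bool)) (i : ℕ) =>
      if (p.2 i).1 then (p.2 i).2 else p.1 i)
      (fair.prod (infinitePi (fun _ : ℕ => (coin half).prod (coin half)))) fair := by
    have hlaw : ((coin half).prod ((coin half).prod (coin half))).map
        (fun q : Bool × (Bool × Bool) => if q.2.1 then q.2.2 else q.1) = coin half := by
      have : IsProbabilityMeasure (((coin half).prod ((coin half).prod (coin half))).map
        (fun q : Bool × (Bool × Bool) => if q.2.1 then q.2.2 else q.1)) :=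
        isProbabilityMeasure_map hmeas.aemeasurable
      apply eq_coin
      rw [map_apply hmeas (measurableSet_singleton _)]
      have hset : (fun q : Bool × (Bool × Bool) => if q.2.1 then q.2.2 else q.1) ⁻¹' {true} =
          (univ ×ˢ ({true} ×ˢ {true})) ∪ ({true} ×ˢ ({false} ×ˢ univ)) := by
        ext ⟨x, y, z⟩
        cases x <;> cases y <;> cases z <;> simp
      rw [hset, measure_union, prod_prod, prod_prod, prod_prod, prod_prod, coin_true, coin_false,
        measure_univ, one_mul, mul_one]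
      · have h5 : ((half : unitInterval) : ℝ) = 1 / 2 := rfl
        rw [h5, ← ENNReal.ofReal_mul (by norm_num), ← ENNReal.ofReal_mul (by norm_num),
          ← ENNReal.ofReal_add (by norm_num) (by norm_num)]
        norm_num
      · rw [Set.disjoint_left]
        rintro ⟨x, y, z⟩ h1 h2
        simp at h1 h2
        rw [h1.1] at h2
        exact absurd h2.2 (by simp)
      · measurability
    constructor
    · apply measurable_pi_lambda
      intro i
      have : (fun (p : (ℕ → Bool) × (ℕ → Bool × Bool)) =>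
        if (p.2 i).1 then (p.2 i).2 else p.1 i) =
        (fun q : Bool × (Bool × Bool) => if q.2.1 then q.2.2 else q.1) ∘
          (fun p : (ℕ → Bool) × (ℕ → Bool × Bool) => (p.1 i, p.2 i)) := rfl
      rw [this]
      apply hmeas.comp
      fun_prop
    · have := prod_infinitePi_map (fun _ : ℕ => coin half)
        (fun _ : ℕ => (coin half).prod (coin half))
        (fun _ q => if q.2.1 then q.2.2 else q.1) (fun _ => hmeas)
      simp only [hlaw] at this
      exact this
  exact h3.comp h2

lemma S_mix3 (a b d : ℕ → Bool) : S (mix3 (a, (b, d))) = (S a \ S b) ∪ (S d ∩ S b) := by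
  ext n
  show (if b n then d n else a n) = true ↔ (a n = true ∧ ¬ (b n = true)) ∨ (d n = true ∧ b n = true)
  cases b n <;> simp

section key

variable {θ : Set ℕ → ℝ}

lemma step_one (h : FA θ) : ∀ᵐ a ∂fair, ∀ᵐ b ∂fair, U θ (S b) + θ (S a \ S b) ≤ u θ := by
  have h1 : ∀ᵐ p ∂(fair.prod (fair.prod fair)), θ (S (mix3 p)) ≤ u θ :=
    mix3_preserving.quasiMeasurePreserving.ae (ae_le_u h)
  have h2 := ae_ae_of_ae_prod h1
  filter_upwards [h2] with a ha
  have h3 := ae_ae_of_ae_prod ha
  filter_upwards [h3] with b hb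
  have h4 : U θ (S b) ≤ u θ - θ (S a \ S b) := by
    apply u_le (h.res _)
    filter_upwards [hb] with d hd
    rw [S_mix3, h.add] at hd
    · show θ (S d ∩ S b) ≤ _
      linarith
    · exact disjoint_sdiff_left.mono_right inter_subset_right
  linarith

lemma step_two (h : FA θ) : ∀ᵐ a ∂fair, ∀ ε : ℝ, u θ - ε < θ (S a) →
    U (θ - U θ) (S a) ≤ (θ - U θ) (S a) - U (U θ) (S a)ᶜ + ε := by
  have hv := h.U
  have hd := h.sub' hv (U_le h)
  filter_upwards [step_one h] with a ha ε hε
  -- a.s. inequality in b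
  have h1 : ∀ᵐ b ∂fair, U θ (S b \ S a) ≤ (θ - U θ) (S b ∩ S a) + ε := by
    filter_upwards [ha] with b hb
    have e1 := h.inter_add_diff (S a) (S b)
    have e2 := hv.inter_add_diff (S b) (S a)
    have e3 : (θ - U θ) (S b ∩ S a) = θ (S b ∩ S a) - U θ (S b ∩ S a) := rfl
    rw [inter_comm (S a) (S b)] at e1
    rw [e3]
    linarith
  have h2 : ∀ᵐ p ∂(fair.prod fair), U θ (S (mix (S a) p) \ S a) ≤
      (θ - U θ) (S (mix (S a) p) ∩ S a) + ε :=
    (mix_preserving (S a)).quasiMeasurePreserving.ae h1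
  have h3 := ae_ae_of_ae_prod h2
  have h4 : ∀ᵐ b ∂fair, U (U θ) (S a)ᶜ ≤ (θ - U θ) (S b ∩ S a) + ε := by
    filter_upwards [h3] with b hb
    apply u_le (hv.res _)
    filter_upwards [hb] with d hd'
    rw [S_mix_inter] at hd'
    have h5 : S (mix (S a) (b, d)) \ S a = S d ∩ (S a)ᶜ := by
      rw [S_mix]
      ext n
      simp only [mem_inter_iff, mem_union, Set.mem_sdiff, mem_compl_iff]
      tauto
    rw [h5] at hd'
    exact hd'
  have h5 := ae_compl (p := fun e => U (U θ) (S a)ᶜ ≤ (θ - U θ) (e ∩ S a) + ε) h4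
  apply u_le (hd.res _)
  filter_upwards [h5] with b hb
  have e1 := hd.inter_add_diff (S a) (S b)
  have e2 : S a \ S b = (S b)ᶜ ∩ S a := by
    rw [sdiff_eq, inter_comm]
  rw [e2, inter_comm (S a) (S b)] at e1
  show (θ - U θ) (S b ∩ S a) ≤ _
  linarith

lemma U_sub (h : FA θ) : U (θ - U θ) = U θ - U (U θ) := by
  have h1 := U_add_fun h.U (h.sub' h.U (U_le h))
  rw [add_sub_cancel] at h1
  exact (sub_eq_iff_eq_add'.mpr h1).symm

lemma step_three (h : FA θ) :
    3 * U (U θ) univ - 2 * U (U (U θ)) univ - U θ univ ≤ 0 := by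
  apply le_of_forall_pos_le_add
  intro δ hδ
  have hv := h.U
  have hd := h.sub' hv (U_le h)
  set ε := δ / 3 with hε
  obtain ⟨a, ha, ⟨h1, h2⟩, h3, h4⟩ := exists_mem_of_full (full_lt h (r := u θ - ε) (by
      have : 0 < ε := by positivity
      linarith))
    (((step_two h).and (ae_le_u h)).and ((ae_le_u hv.U).and (ae_le_u hd)))
  have ha' : u θ - ε < θ (S a) := ha
  have h5 := h1 ε ha'
  rw [U_sub h] at h5
  have e1 : (U θ - U (U θ)) (S a) = U θ (S a) - U (U θ) (S a) := rfl
  have e2 : (θ - U θ) (S a) = θ (S a) - U θ (S a) := rfl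
  have e3 := hv.U.inter_add_diff univ (S a)
  rw [univ_inter, ← compl_eq_univ_sdiff] at e3
  have e4 := u_add hv hd
  rw [add_sub_cancel] at e4
  rw [e1, e2] at h5
  rw [U_univ, U_univ, U_univ]
  rw [U_univ] at e3
  rw [e2] at h4
  linarith

/-- the purely nonmeasurable part -/
noncomputable def pnm (θ : Set ℕ → ℝ) : Set ℕ → ℝ := U θ - (θ - U θ)

lemma pnm_FA (h : FA θ) : FA (pnm θ) :=
  h.U.sub' (h.sub' h.U (U_le h)) (fun a => by
    show θ a - U θ a ≤ U θ a
    linarith [le_U h a])

lemma U_pnm_formula (h : FA θ) : U (pnm θ) = U (U θ) - (U θ - U (U θ)) := by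
  have h1 := U_add_fun (pnm_FA h) (h.sub' h.U (U_le h))
  have h2 : pnm θ + (θ - U θ) = U θ := by unfold pnm; abel
  rw [h2, U_sub h] at h1
  exact eq_sub_of_add_eq h1.symm

/-- The envelope operator is the identity on the purely nonmeasurable part. -/
lemma U_pnm (h : FA θ) : U (pnm θ) = pnm θ := by
  have hv := h.U
  have hk := pnm_FA h
  have hρ := hk.sub' hk.U (U_le hk)
  have h1 := U_sub hk
  -- `U (U (pnm θ))`
  have h2 : U (U (pnm θ)) = U (U (U θ)) - (U (U θ) - U (U (U θ))) := by
    have e1 : U (pnm θ) = pnm (U θ) := U_pnm_formula h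
    rw [e1]
    exact U_pnm_formula hv
  have h3 := step_three h
  have h4 : U (pnm θ - U (pnm θ)) univ ≤ 0 := by
    rw [h1, h2, U_pnm_formula h]
    show (U (U θ) univ - (U θ univ - U (U θ) univ)) -
      (U (U (U θ)) univ - (U (U θ) univ - U (U (U θ)) univ)) ≤ 0
    linarith
  have h5 := le_U hρ univ
  funext c
  have h6 := hρ.mono (subset_univ c)
  have h7 := hρ.nonneg c
  have h8 : (pnm θ - U (pnm θ)) c = pnm θ c - U (pnm θ) c := rfl
  rw [h8] at h6 h7
  linarith

/-- the measurable part -/
noncomputable def mea (θ : Set ℕ → ℝ) : Set ℕ → ℝ := (θ - U θ) + (θ - U θ)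

lemma mea_FA (h : FA θ) : FA (mea θ) :=
  (h.sub' h.U (U_le h)).add' (h.sub' h.U (U_le h))

lemma pnm_add_mea (θ : Set ℕ → ℝ) (c : Set ℕ) : pnm θ c + mea θ c = θ c := by
  show (U θ c - (θ c - U θ c)) + ((θ c - U θ c) + (θ c - U θ c)) = θ c
  ring

lemma U_mea (h : FA θ) (c : Set ℕ) : 2 * U (mea θ) c = mea θ c := by
  have hd := h.sub' h.U (U_le h)
  have h1 : U (mea θ) = U (θ - U θ) + U (θ - U θ) := U_add_fun hd hd
  have h2 := congrFun (U_pnm h) c
  rw [U_pnm_formula h] at h2
  rw [h1, U_sub h]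
  have h3 : U (U θ) c - (U θ c - U (U θ) c) = U θ c - (θ c - U θ c) := h2
  show 2 * ((U θ c - U (U θ) c) + (U θ c - U (U θ) c)) = (θ c - U θ c) + (θ c - U θ c)
  linarith

lemma ae_mea (h : FA θ) : ∀ᵐ x ∂fair, mea θ (S x) = mea θ univ / 2 := by
  have hm := mea_FA h
  have h1 := U_mea h univ
  rw [U_univ] at h1
  filter_upwards [ae_le_u hm, ae_compl (p := fun e => mea θ e ≤ u (mea θ)) (ae_le_u hm)]
    with x hx1 hx2
  have h2 := hm.inter_add_diff univ (S x)
  rw [univ_inter, ← compl_eq_univ_sdiff] at h2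
  linarith

end key

end Pool.Agent.Helper882.QR
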