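import Pool.Agent.Helper882.QREnvelope

set_option autoImplicit false
set_option linter.unusedSectionVars false

open MeasureTheory Measure Set Topology Filter ProbabilityTheory
open scoped ENNReal

namespace Pool.Agent.Helper882.QR

/-- the level sets of a function -/
def lev (J : ℕ → ℕ) (j : ℕ) : Set ℕ := {n | J n = j}

lemma FA.sum_lev {κ : Set ℕ → ℝ} (h : FA κ) (J : ℕ → ℕ) (m : ℕ) (hJ : ∀ n, J n < m) (e : Set ℕ) :
    κ e = ∑ j ∈ Finset.range m, κ (e ∩ lev J j) := by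
  have key : ∀ m : ℕ, κ (e ∩ {n | J n < m}) = ∑ j ∈ Finset.range m, κ (e ∩ lev J j) := by
    intro m
    induction m with
    | zero =>
      have h1 : e ∩ {n | J n < 0} = ∅ := by
        ext n; simp
      rw [h1, h.fin ∅ finite_empty]; simp
    | succ m ih =>
      rw [Finset.sum_range_succ, ← ih, ← h.add]
      · congr 1
        ext n
        show (n ∈ e ∧ J n < m + 1) ↔ (n ∈ e ∧ J n < m) ∨ (n ∈ e ∧ J n = m)
        rw [← and_or_left, Nat.lt_succ_iff_lt_or_eq]
      · rw [Set.disjoint_left]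
        rintro n ⟨_, h1⟩ ⟨_, h2⟩
        have h1' : J n < m := h1
        have h2' : J n = m := h2
        omega
  rw [← key m]
  congr 1
  ext n
  show n ∈ e ↔ n ∈ e ∧ J n < m
  simp [hJ n]

/-- approximate Hahn decomposition -/
lemma exists_hahn {κ₁ κ : Set ℕ → ℝ} (h₁ : FA κ₁) (h : FA κ) (t δ : ℝ) (ht : 0 ≤ t) (hδ : 0 < δ) :
    ∃ H : Set ℕ, (∀ e, e ⊆ H → t * κ e - δ ≤ κ₁ e) ∧ (∀ e, Disjoint e H → κ₁ e ≤ t * κ e + δ) := by
  set V : Set ℝ := Set.range (fun e : Set ℕ => κ₁ e - t * κ e) with hV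
  have hbdd : BddAbove V := by
    refine ⟨κ₁ univ, ?_⟩
    rintro _ ⟨e, rfl⟩
    have h1 := h₁.mono (subset_univ e)
    have h2 := mul_nonneg ht (h.nonneg e)
    show κ₁ e - t * κ e ≤ κ₁ univ
    linarith
  have hne : V.Nonempty := ⟨_, ⟨univ, rfl⟩⟩
  obtain ⟨_, ⟨H, rfl⟩, hH⟩ := exists_lt_of_lt_csSup hne (show sSup V - δ < sSup V by linarith)
  have hH' : ∀ e, κ₁ e - t * κ e ≤ (κ₁ H - t * κ H) + δ := by
    intro e
    have h1 : κ₁ e - t * κ e ≤ sSup V := le_csSup hbdd ⟨e, rfl⟩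
    have h2 : sSup V - δ < κ₁ H - t * κ H := hH
    linarith
  refine ⟨H, ?_, ?_⟩
  · intro e he
    have h1 := hH' (H \ e)
    have h2 := h₁.inter_add_diff H e
    have h3 := h.inter_add_diff H e
    rw [inter_eq_self_of_subset_right he] at h2 h3
    rw [h2, h3] at h1
    linarith
  · intro e he
    have h1 := hH' (e ∪ H)
    rw [h₁.add _ _ he, h.add _ _ he] at h1
    linarith

/-- approximate Radon-Nikodym theorem -/
lemma approx_rn {κ₁ κ : Set ℕ → ℝ} (h₁ : FA κ₁) (h : FA κ) (hle : ∀ e, κ₁ e ≤ κ e) (δ : ℝ)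
    (hδ : 0 < δ) :
    ∃ (m : ℕ) (J : ℕ → ℕ) (t η : ℕ → ℝ), (∀ n, J n < m) ∧ (∀ j, 0 ≤ t j) ∧
      (∀ j < m, ∀ e, e ⊆ lev J j → |κ₁ e - t j * κ e| ≤ η j) ∧
      ∑ j ∈ Finset.range m, η j ≤ δ := by
  obtain ⟨m0, hm0⟩ := exists_nat_gt (2 * κ univ / δ)
  set m := m0 + 1 with hm
  have hmpos : (0 : ℝ) < m := by rw [hm]; positivity
  have hmk : κ univ / m ≤ δ / 2 := by
    have h1 : 2 * κ univ / δ < m := by
      rw [hm]; push_cast; linarith
    rw [div_lt_iff₀ hδ] at h1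
    rw [div_le_iff₀ hmpos]
    nlinarith
  set δ' := δ / (2 * m) with hδ'
  have hδ'0 : 0 < δ' := by positivity
  choose H hH1 hH2 using fun j : ℕ => exists_hahn h₁ h ((j : ℝ) / m) δ' (by positivity) hδ'0
  classical
  let J : ℕ → ℕ := fun n => Nat.findGreatest (fun j => n ∈ H j) m0
  refine ⟨m, J, fun j => (j : ℝ) / m, fun j => κ (lev J j) / m + δ', ?_, ?_, ?_, ?_⟩
  · intro n
    have : J n ≤ m0 := Nat.findGreatest_le m0
    omega
  · intro j; positivity
  · intro j hj e he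
    have hlow : (j : ℝ) / m * κ e - δ' ≤ κ₁ e := by
      rcases Nat.eq_zero_or_pos j with h0 | h0
      · subst h0
        have := h₁.nonneg e
        simp only [Nat.cast_zero, zero_div, zero_mul]
        linarith
      · apply hH1 j
        intro n hn
        have hJn : J n = j := he hn
        exact Nat.findGreatest_of_ne_zero (P := fun j => n ∈ H j) (n := m0) (m := j) hJn
          (by omega)
    have hupp : κ₁ e ≤ ((j + 1 : ℕ) : ℝ) / m * κ e + δ' := by
      rcases Nat.lt_or_ge (j + 1) m with h0 | h0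
      · apply hH2 (j + 1)
        rw [Set.disjoint_left]
        intro n hn hnH
        have hJn : J n = j := he hn
        have h1 : j + 1 ≤ J n := Nat.le_findGreatest (by omega) hnH
        omega
      · have h1 : j + 1 = m := by omega
        rw [h1, div_self hmpos.ne', one_mul]
        have := hle e
        linarith
    have hmono : κ e ≤ κ (lev J j) := h.mono he
    have h3 : ((j + 1 : ℕ) : ℝ) / m * κ e = (j : ℝ) / m * κ e + κ e / m := by
      push_cast; ring
    have h4 : κ e / m ≤ κ (lev J j) / m := by gcongr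
    rw [abs_le]
    constructor
    · have h5 : 0 ≤ κ (lev J j) / m := div_nonneg (h.nonneg _) hmpos.le
      show -(κ (lev J j) / m + δ') ≤ κ₁ e - (j : ℝ) / m * κ e
      linarith
    · show κ₁ e - (j : ℝ) / m * κ e ≤ κ (lev J j) / m + δ'
      linarith
  · rw [Finset.sum_add_distrib, ← Finset.sum_div]
    have h1 := h.sum_lev J m (fun n => by
      have : J n ≤ m0 := Nat.findGreatest_le m0
      omega) univ
    simp only [univ_inter] at h1
    rw [← h1, Finset.sum_const, Finset.card_range, nsmul_eq_mul]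
    have h2 : (m : ℝ) * δ' = δ / 2 := by
      rw [hδ']; field_simp
    linarith

/-- near-maximisers for `κ` are near-maximisers for each smaller set function -/
lemma near_max {κ₁ κ : Set ℕ → ℝ} (h₁ : FA κ₁) (h : FA κ) (hle : ∀ e, κ₁ e ≤ κ e) (δ : ℝ)
    (hδ : 0 < δ) : ∃ ε : ℝ, 0 < ε ∧ ∀ᵐ x ∂fair, u κ - ε < κ (S x) → u κ₁ - δ ≤ κ₁ (S x) := by
  obtain ⟨m, J, t, η, hJ, ht, hη, hsum⟩ := approx_rn h₁ h hle (δ / 4) (by positivity)
  set T := ∑ j ∈ Finset.range m, t j with hT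
  have hT0 : 0 ≤ T := Finset.sum_nonneg (fun j _ => ht j)
  set ε := δ / (4 * (T + 1)) with hε
  have hε0 : 0 < ε := by positivity
  have hεT : ε * T ≤ δ / 4 := by
    rw [hε, div_mul_eq_mul_div, div_le_iff₀ (by positivity)]
    nlinarith
  refine ⟨ε, hε0, ?_⟩
  -- almost sure upper bounds on all pieces
  have hae : ∀ᵐ x ∂fair, ∀ j, κ (S x ∩ lev J j) ≤ U κ (lev J j) :=
    ae_all_iff.mpr (fun j => ae_le_u (h.res _))
  have hU : u κ = ∑ j ∈ Finset.range m, U κ (lev J j) := by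
    rw [← U_univ, h.U.sum_lev J m hJ univ]
    simp only [univ_inter]
  -- the two-sided comparison
  have hcmp : ∀ e, |κ₁ e - ∑ j ∈ Finset.range m, t j * κ (e ∩ lev J j)| ≤ δ / 4 := by
    intro e
    rw [h₁.sum_lev J m hJ e, ← Finset.sum_sub_distrib]
    refine (Finset.abs_sum_le_sum_abs _ _).trans ((Finset.sum_le_sum ?_).trans hsum)
    intro j hj
    exact hη j (Finset.mem_range.mp hj) _ inter_subset_right
  have hu1 : u κ₁ ≤ ∑ j ∈ Finset.range m, t j * U κ (lev J j) + δ / 4 := by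
    apply u_le h₁
    filter_upwards [hae] with x hx
    have h1 := (abs_le.mp (hcmp (S x))).2
    have h2 : ∑ j ∈ Finset.range m, t j * κ (S x ∩ lev J j) ≤
        ∑ j ∈ Finset.range m, t j * U κ (lev J j) := by
      apply Finset.sum_le_sum
      intro j _
      exact mul_le_mul_of_nonneg_left (hx j) (ht j)
    linarith
  filter_upwards [hae] with x hx hmax
  have hlow : ∀ j ∈ Finset.range m, U κ (lev J j) - ε ≤ κ (S x ∩ lev J j) := by
    intro j hj
    have h1 := h.sum_lev J m hJ (S x)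
    rw [h1, hU] at hmax
    have h2 : ∑ i ∈ (Finset.range m).erase j, κ (S x ∩ lev J i) ≤
        ∑ i ∈ (Finset.range m).erase j, U κ (lev J i) :=
      Finset.sum_le_sum (fun i _ => hx i)
    rw [← Finset.add_sum_erase _ _ hj, ← Finset.add_sum_erase _ _ hj] at hmax
    linarith
  have h1 := (abs_le.mp (hcmp (S x))).1
  have h2 : ∑ j ∈ Finset.range m, t j * (U κ (lev J j) - ε) ≤
      ∑ j ∈ Finset.range m, t j * κ (S x ∩ lev J j) := by
    apply Finset.sum_le_sum
    intro j hj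
    exact mul_le_mul_of_nonneg_left (hlow j hj) (ht j)
  have h3 : ∑ j ∈ Finset.range m, t j * (U κ (lev J j) - ε) =
      ∑ j ∈ Finset.range m, t j * U κ (lev J j) - ε * T := by
    simp_rw [mul_sub]
    rw [Finset.sum_sub_distrib, hT, Finset.mul_sum]
    congr 1
    apply Finset.sum_congr rfl
    intro j _
    ring
  linarith

/-- the upper bound is additive -/
lemma u_add {κ₁ κ₂ : Set ℕ → ℝ} (h₁ : FA κ₁) (h₂ : FA κ₂) : u (κ₁ + κ₂) = u κ₁ + u κ₂ := by
  have h := h₁.add' h₂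
  apply le_antisymm
  · apply u_le h
    filter_upwards [ae_le_u h₁, ae_le_u h₂] with x h1 h2
    exact add_le_add h1 h2
  · apply le_of_forall_pos_le_add
    intro δ hδ
    have hle1 : ∀ e, κ₁ e ≤ (κ₁ + κ₂) e := fun e => by
      show κ₁ e ≤ κ₁ e + κ₂ e
      linarith [h₂.nonneg e]
    have hle2 : ∀ e, κ₂ e ≤ (κ₁ + κ₂) e := fun e => by
      show κ₂ e ≤ κ₁ e + κ₂ e
      linarith [h₁.nonneg e]
    obtain ⟨ε1, hε1, hae1⟩ := near_max h₁ h hle1 (δ / 2) (by positivity)
    obtain ⟨ε2, hε2, hae2⟩ := near_max h₂ h hle2 (δ / 2) (by positivity)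
    have hfull := full_lt h (r := u (κ₁ + κ₂) - min ε1 ε2) (by
      have := lt_min hε1 hε2
      linarith)
    obtain ⟨x, hx, ⟨h1, h2⟩, h3⟩ := exists_mem_of_full hfull ((hae1.and hae2).and (ae_le_u h))
    have hx' : u (κ₁ + κ₂) - min ε1 ε2 < (κ₁ + κ₂) (S x) := hx
    have h4 := h1 (by have := min_le_left ε1 ε2; linarith)
    have h5 := h2 (by have := min_le_right ε1 ε2; linarith)
    have h6 : κ₁ (S x) + κ₂ (S x) ≤ u (κ₁ + κ₂) := h3
    linarith

lemma U_add_fun {κ₁ κ₂ : Set ℕ → ℝ} (h₁ : FA κ₁) (h₂ : FA κ₂) : U (κ₁ + κ₂) = U κ₁ + U κ₂ := by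
  funext c
  show u (res (κ₁ + κ₂) c) = u (res κ₁ c) + u (res κ₂ c)
  rw [← u_add (h₁.res c) (h₂.res c)]
  rfl

end Pool.Agent.Helper882.QR
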