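import Pool.Agent.Helper882.QRSpace

set_option autoImplicit false
set_option linter.unusedSectionVars false

open MeasureTheory Measure Set Topology Filter ProbabilityTheory
open scoped ENNReal

namespace Pool.Agent.Helper882.QR

/-- real value of a boolean -/
def tb (b : Bool) : ℝ := if b then 1 else 0

/-- the coordinate functions -/
def gg (n : ℕ) (x : GG) : ℝ := tb (x (Sum.inl (Sum.inl n))) - tb (x (Sum.inl (Sum.inr n)))

lemma gg_continuous (n : ℕ) : Continuous (gg n) := by
  apply Continuous.sub
  · exact (continuous_of_discreteTopology (f := tb)).comp (apply_continuous _)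
  · exact (continuous_of_discreteTopology (f := tb)).comp (apply_continuous _)

lemma gg_bound (n : ℕ) (x : GG) : |gg n x| ≤ 1 := by
  unfold gg tb
  cases x (Sum.inl (Sum.inl n)) <;> cases x (Sum.inl (Sum.inr n)) <;> simp

/-- the function of the example -/
noncomputable def ff (x : Om) : LI := ind (S (aa (inc x))) - ind (S (bb (inc x)))

lemma ind_S (y : ℕ → Bool) (n : ℕ) : (S y).indicator (fun _ => (1 : ℝ)) n = tb (y n) := by
  unfold tb
  by_cases h : y n = true
  · rw [if_pos h, indicator_of_mem (show n ∈ S y from h)]
  · rw [if_neg h, indicator_of_notMem (show n ∉ S y from h)]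

lemma ff_apply (x : Om) (n : ℕ) : ff x n = gg n (inc x) := by
  unfold ff
  rw [BoundedContinuousFunction.sub_apply, ind_apply, ind_apply, ind_S, ind_S]
  rfl

/-- the flip of the pair of coordinates with index `n` -/
def flipp (n : ℕ) : GG := fun i => match i with
  | Sum.inl (Sum.inl k) => decide (k = n)
  | Sum.inl (Sum.inr k) => decide (k = n)
  | Sum.inr _ => false

lemma flipp_apply (n : ℕ) (x : GG) (i : II) : (flipp n + x) i = xor (flipp n i) (x i) := rfl

lemma gg_flip (n : ℕ) (x : GG) : gg n (flipp n + x) = - gg n x := by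
  unfold gg
  rw [flipp_apply, flipp_apply]
  have h1 : flipp n (Sum.inl (Sum.inl n)) = true := by simp [flipp]
  have h2 : flipp n (Sum.inl (Sum.inr n)) = true := by simp [flipp]
  rw [h1, h2]
  unfold tb
  cases x (Sum.inl (Sum.inl n)) <;> cases x (Sum.inl (Sum.inr n)) <;> simp

lemma gg_flip_ne (n k : ℕ) (hk : k ≠ n) (x : GG) : gg k (flipp n + x) = gg k x := by
  unfold gg
  rw [flipp_apply, flipp_apply]
  have h1 : flipp n (Sum.inl (Sum.inl k)) = false := by simp [flipp, hk]
  have h2 : flipp n (Sum.inl (Sum.inr k)) = false := by simp [flipp, hk]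
  rw [h1, h2]
  simp

lemma integral_flip (n : ℕ) (h : GG → ℝ) (hh : ∀ x, h (flipp n + x) = h x) :
    ∫ x, gg n x * h x ∂mm = 0 := by
  have h1 := integral_add_left_eq_self (μ := mm) (fun x => gg n x * h x) (flipp n)
  simp only [gg_flip, hh, neg_mul] at h1
  rw [integral_neg] at h1
  linarith

lemma meas_g (n : ℕ) : Measurable (fun x : Om => gg n (inc x)) :=
  (gg_continuous n).measurable.comp measurable_inc

lemma int_mm (h : GG → ℝ) (hm : Measurable h) : ∫ x, h (inc x) ∂muA = ∫ x, h x ∂mm := by
  rw [← inc_preserving.map_eq, integral_map measurable_inc.aemeasurable hm.aestronglyMeasurable]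

lemma orth (n k : ℕ) (hnk : n ≠ k) : ∫ x : Om, gg n (inc x) * gg k (inc x) ∂muA = 0 := by
  rw [int_mm (fun x => gg n x * gg k x)
    ((gg_continuous n).measurable.mul (gg_continuous k).measurable)]
  exact integral_flip n _ (fun x => gg_flip_ne n k (Ne.symm hnk) x)

lemma bdd_integrable {α : Type*} [MeasurableSpace α] (μ : Measure α) [IsFiniteMeasure μ]
    (h : α → ℝ) (hm : Measurable h) (C : ℝ) (hC : ∀ x, |h x| ≤ C) : Integrable h μ :=
  Integrable.of_bound hm.aestronglyMeasurable C (Eventually.of_forall hC)

lemma bdd_mul_integrable {α : Type*} [MeasurableSpace α] (μ : Measure α) [IsFiniteMeasure μ]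
    {f g : α → ℝ} (hf : Measurable f) (hg : Measurable g) (C D : ℝ) (hC0 : 0 ≤ C)
    (hC : ∀ x, |f x| ≤ C) (hD : ∀ x, |g x| ≤ D) : Integrable (fun x => f x * g x) μ := by
  apply bdd_integrable μ (fun x => f x * g x) (hf.mul hg) (C * D)
  intro x
  rw [abs_mul]
  exact mul_le_mul (hC x) (hD x) (abs_nonneg _) hC0

/-- the coordinates of the integrals -/
noncomputable def vc (E : Set Om) (n : ℕ) : ℝ := ∫ x in E, gg n (inc x) ∂muA

lemma vc_bound (E : Set Om) (n : ℕ) : |vc E n| ≤ 1 := by
  unfold vc
  have h1 := norm_setIntegral_le_of_norm_le_const (μ := muA) (s := E) (C := 1)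
    (f := fun x : Om => gg n (inc x)) (measure_lt_top _ _) (fun x _ => gg_bound n (inc x))
  rw [one_mul] at h1
  refine h1.trans ?_
  rw [measureReal_def]
  exact ENNReal.toReal_le_of_le_ofReal zero_le_one (by simpa using prob_le_one)

lemma bessel (E : Set Om) (hE : MeasurableSet E) (N : ℕ) :
    ∑ n ∈ Finset.range N, (vc E n) ^ 2 ≤ 1 := by
  let c : ℕ → ℝ := vc E
  let e : Om → ℝ := E.indicator (fun _ => 1)
  let G : Om → ℝ := fun x => ∑ n ∈ Finset.range N, c n * gg n (inc x)
  have he : Measurable e := measurable_const.indicator hE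
  have heb : ∀ x, |e x| ≤ 1 := by
    intro x
    show |E.indicator (fun _ => (1 : ℝ)) x| ≤ 1
    by_cases hx : x ∈ E
    · rw [indicator_of_mem hx]; simp
    · rw [indicator_of_notMem hx]; simp
  have hcross : ∫ x, e x * G x ∂muA = ∑ n ∈ Finset.range N, c n ^ 2 := by
    have h1 : ∀ x, e x * G x = ∑ n ∈ Finset.range N, c n * (e x * gg n (inc x)) := by
      intro x
      show e x * (∑ n ∈ Finset.range N, c n * gg n (inc x)) = _
      rw [Finset.mul_sum]
      apply Finset.sum_congr rfl
      intro n _
      ring
    simp_rw [h1]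
    rw [integral_finsetSum]
    · apply Finset.sum_congr rfl
      intro n _
      rw [integral_const_mul]
      have h2 : ∫ x, e x * gg n (inc x) ∂muA = vc E n := by
        unfold vc
        rw [← integral_indicator hE]
        congr 1
        funext x
        show E.indicator (fun _ => (1 : ℝ)) x * gg n (inc x) = _
        by_cases hx : x ∈ E
        · rw [indicator_of_mem hx, indicator_of_mem hx, one_mul]
        · rw [indicator_of_notMem hx, indicator_of_notMem hx, zero_mul]
      rw [h2]
      show c n * c n = c n ^ 2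
      ring
    · intro n _
      apply Integrable.const_mul
      exact bdd_mul_integrable muA he (meas_g n) 1 1 zero_le_one heb (fun x => gg_bound n _)
  have hsq : ∫ x, G x * G x ∂muA ≤ ∑ n ∈ Finset.range N, c n ^ 2 := by
    have h1 : ∀ x, G x * G x = ∑ n ∈ Finset.range N, ∑ k ∈ Finset.range N,
        (c n * c k) * (gg n (inc x) * gg k (inc x)) := by
      intro x
      show (∑ n ∈ Finset.range N, c n * gg n (inc x)) * (∑ k ∈ Finset.range N, c k * gg k (inc x)) = _
      rw [Finset.sum_mul_sum]
      apply Finset.sum_congr rfl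
      intro n _
      apply Finset.sum_congr rfl
      intro k _
      ring
    have hint : ∀ n k, Integrable (fun x : Om => (c n * c k) * (gg n (inc x) * gg k (inc x))) muA := by
      intro n k
      apply Integrable.const_mul
      exact bdd_mul_integrable muA (meas_g n) (meas_g k) 1 1 zero_le_one
        (fun x => gg_bound n _) (fun x => gg_bound k _)
    simp_rw [h1]
    rw [integral_finsetSum _ (fun n _ => integrable_finsetSum _ (fun k _ => hint n k))]
    apply Finset.sum_le_sum
    intro n hn
    rw [integral_finsetSum _ (fun k _ => hint n k), Finset.sum_eq_single n]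
    · rw [integral_const_mul]
      have h2 : ∫ x : Om, gg n (inc x) * gg n (inc x) ∂muA ≤ 1 := by
        have h3 : ∫ x : Om, gg n (inc x) * gg n (inc x) ∂muA ≤ ∫ x : Om, (1 : ℝ) ∂muA := by
          apply integral_mono
          · exact bdd_mul_integrable muA (meas_g n) (meas_g n) 1 1 zero_le_one
              (fun x => gg_bound n _) (fun x => gg_bound n _)
          · exact integrable_const _
          · intro x
            have := gg_bound n (inc x)
            rw [abs_le] at this
            show gg n (inc x) * gg n (inc x) ≤ 1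
            nlinarith
        refine h3.trans ?_
        rw [integral_const]
        simp
      have h3 : 0 ≤ c n * c n := mul_self_nonneg _
      nlinarith
    · intro k _ hk
      rw [integral_const_mul, orth n k (Ne.symm hk), mul_zero]
    · intro h; exact absurd hn h
  have hpos : 0 ≤ ∫ x, (e x - G x) ^ 2 ∂muA := integral_nonneg (fun x => sq_nonneg _)
  have hGm : Measurable G := Finset.measurable_sum _ (fun n _ => (meas_g n).const_mul _)
  have hGb : ∀ x, |G x| ≤ ∑ n ∈ Finset.range N, |c n| := by
    intro x
    refine (Finset.abs_sum_le_sum_abs _ _).trans (Finset.sum_le_sum ?_)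
    intro n _
    rw [abs_mul]
    exact mul_le_of_le_one_right (abs_nonneg _) (gg_bound n _)
  have hexp : ∫ x, (e x - G x) ^ 2 ∂muA =
      ∫ x, e x * e x ∂muA - 2 * ∫ x, e x * G x ∂muA + ∫ x, G x * G x ∂muA := by
    have i1 : Integrable (fun x => e x * e x) muA :=
      bdd_mul_integrable muA he he 1 1 zero_le_one heb heb
    have i2 : Integrable (fun x => e x * G x) muA :=
      bdd_mul_integrable muA he hGm 1 _ zero_le_one heb hGb
    have i3 : Integrable (fun x => G x * G x) muA :=
      bdd_mul_integrable muA hGm hGm _ _ (Finset.sum_nonneg (fun _ _ => abs_nonneg _)) hGb hGb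
    have i12 : Integrable (fun x => e x * e x - 2 * (e x * G x)) muA := i1.sub (i2.const_mul 2)
    rw [← integral_const_mul, ← integral_sub i1 (i2.const_mul 2), ← integral_add i12 i3]
    congr 1
    funext x
    show (e x - G x) ^ 2 = (e x * e x - 2 * (e x * G x)) + G x * G x
    ring
  have hee : ∫ x, e x * e x ∂muA ≤ 1 := by
    have h3 : ∫ x, e x * e x ∂muA ≤ ∫ x : Om, (1 : ℝ) ∂muA := by
      apply integral_mono
      · exact bdd_mul_integrable muA he he 1 1 zero_le_one heb heb
      · exact integrable_const _
      · intro x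
        have := heb x
        rw [abs_le] at this
        show e x * e x ≤ 1
        nlinarith
    refine h3.trans ?_
    rw [integral_const]
    simp
  rw [hexp, hcross] at hpos
  show ∑ n ∈ Finset.range N, c n ^ 2 ≤ 1
  linarith

lemma vc_tendsto (E : Set Om) (hE : MeasurableSet E) : Tendsto (vc E) atTop (𝓝 0) := by
  have h1 : Summable (fun n => (vc E n) ^ 2) :=
    summable_of_sum_range_le (fun _ => sq_nonneg _) (bessel E hE)
  have h2 := h1.tendsto_atTop_zero
  have h3 := h2.sqrt
  rw [Real.sqrt_zero] at h3
  rw [tendsto_zero_iff_norm_tendsto_zero]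
  refine h3.congr (fun n => ?_)
  rw [Real.sqrt_sq_eq_abs]
  rfl

/-- the integral as an element of the Banach space -/
noncomputable def vv (E : Set Om) : LI :=
  BoundedContinuousFunction.ofNormedAddCommGroup (vc E) continuous_of_discreteTopology 1
    (vc_bound E)

lemma vv_apply (E : Set Om) (n : ℕ) : vv E n = vc E n := rfl

lemma phi_vv (φ : LI →L[ℝ] ℝ) (E : Set Om) (hE : MeasurableSet E) :
    φ (vv E) = ∑' n, co φ n * vc E n := by
  have hs : Summable (fun n => co φ n * vc E n) := by
    apply Summable.of_norm_bounded (co_summable φ)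
    intro n
    rw [norm_mul, Real.norm_eq_abs, Real.norm_eq_abs]
    exact mul_le_of_le_one_right (abs_nonneg _) (vc_bound E n)
  have h1 : Tendsto (fun N => fs (Finset.range N) (vc E)) atTop (𝓝 (vv E)) := by
    rw [Metric.tendsto_atTop]
    intro ε hε
    obtain ⟨N0, hN0⟩ := (Metric.tendsto_atTop.mp (vc_tendsto E hE)) (ε / 2) (by positivity)
    refine ⟨N0, fun N hN => ?_⟩
    rw [dist_eq_norm]
    apply lt_of_le_of_lt _ (half_lt_self hε)
    rw [BoundedContinuousFunction.norm_le (by positivity)]
    intro k
    rw [BoundedContinuousFunction.sub_apply, fs_apply, vv_apply]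
    by_cases hk : k ∈ Finset.range N
    · rw [if_pos hk, sub_self, norm_zero]; positivity
    · rw [if_neg hk, zero_sub, norm_neg]
      rw [Finset.mem_range, not_lt] at hk
      have := hN0 k (hN.trans hk)
      rw [dist_zero_right] at this
      exact this.le
  have h2 := (φ.continuous.tendsto _).comp h1
  have h3 : ∀ N, (φ ∘ fun N => fs (Finset.range N) (vc E)) N =
      ∑ n ∈ Finset.range N, co φ n * vc E n := by
    intro N
    show φ (fs (Finset.range N) (vc E)) = _
    unfold fs
    rw [_root_.map_sum]
    apply Finset.sum_congr rfl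
    intro n _
    rw [_root_.map_smul, smul_eq_mul, mul_comm]
    rfl
  exact tendsto_nhds_unique (h2.congr h3) hs.hasSum.tendsto_sum_nat

/-- almost everywhere the functional is given by its `ℓ^1` part -/
lemma ae_phi (φ : LI →L[ℝ] ℝ) :
    ∀ᵐ x ∂muA, φ (ff x) = ∑' n, co φ n * gg n (inc x) := by
  -- the bad set is contained in a null set
  have hfair : fair {fun _ => false} = 0 := by
    have h1 : ∀ N : ℕ, fair {fun _ => false} ≤ ENNReal.ofReal ((1 / 2 : ℝ) ^ N) := by
      intro N
      have h2 : fair (Set.pi (Finset.range N : Set ℕ) (fun _ => {false})) =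
          ∏ _i ∈ Finset.range N, coin half {false} :=
        infinitePi_pi _ (fun _ _ => measurableSet_singleton _)
      rw [Finset.prod_const, Finset.card_range, coin_false, ← ENNReal.ofReal_pow] at h2
      · have h3 : (1 - ((half : unitInterval) : ℝ)) = 1 / 2 := by
          show (1 : ℝ) - 1 / 2 = 1 / 2
          norm_num
        rw [h3] at h2
        rw [← h2]
        apply measure_mono
        rintro _ rfl i _
        rfl
      · show (0 : ℝ) ≤ 1 - 1 / 2
        norm_num
    have h3 : Tendsto (fun N : ℕ => ENNReal.ofReal ((1 / 2 : ℝ) ^ N)) atTop (𝓝 0) := by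
      have := ENNReal.tendsto_ofReal
        (tendsto_pow_atTop_nhds_zero_of_lt_one (r := (1 / 2 : ℝ)) (by norm_num) (by norm_num))
      rwa [ENNReal.ofReal_zero] at this
    exact le_antisymm (ge_of_tendsto h3 (Eventually.of_forall h1)) bot_le
  have hZ : mm (cc φ ⁻¹' {fun _ => false}) = 0 := by
    rw [(cc_preserving φ).measure_preimage (measurableSet_singleton _).nullMeasurableSet]
    exact hfair
  have hZ' : muA (inc ⁻¹' (cc φ ⁻¹' {fun _ => false})) = 0 := by
    rw [inc_preserving.measure_preimage
      ((cc_continuous φ).measurable (measurableSet_singleton _)).nullMeasurableSet]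
    exact hZ
  have hgood : ∀ᵐ x ∂muA, sing φ (S (aa (inc x))) = sing φ (S (bb (inc x))) := by
    rw [ae_iff]
    apply measure_mono_null _ hZ'
    intro x hx
    have h1 := x.2 φ hx
    show cc φ (inc x) ∈ ({fun _ => false} : Set (ℕ → Bool))
    rw [mem_singleton_iff]
    funext n
    exact h1 n
  filter_upwards [hgood] with x hx
  unfold ff
  rw [map_sub]
  have h1 : ∀ a, φ (ind a) = sing φ a + reg φ a := fun a => by unfold sing; ring
  rw [h1, h1, hx, add_sub_add_left_eq_sub]
  unfold reg
  rw [← (reg_summable φ _).tsum_sub (reg_summable φ _)]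
  congr 1
  funext n
  have h2 : ∀ y : ℕ → Bool, (S y).indicator (co φ) n = co φ n * tb (y n) := by
    intro y
    unfold tb
    by_cases h : y n = true
    · rw [if_pos h, indicator_of_mem (show n ∈ S y from h), mul_one]
    · rw [if_neg h, indicator_of_notMem (show n ∉ S y from h), mul_zero]
  rw [h2, h2, ← mul_sub]
  rfl

lemma tsum_continuous (φ : LI →L[ℝ] ℝ) : Continuous (fun x : GG => ∑' n, co φ n * gg n x) := by
  apply continuous_tsum (u := fun n => |co φ n|)
  · intro n
    exact continuous_const.mul (gg_continuous n)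
  · exact co_summable φ
  · intro n x
    rw [norm_mul, Real.norm_eq_abs, Real.norm_eq_abs]
    exact mul_le_of_le_one_right (abs_nonneg _) (gg_bound n x)

lemma integrable_phi (φ : LI →L[ℝ] ℝ) : Integrable (fun x => φ (ff x)) muA := by
  have h1 : Integrable (fun x : Om => ∑' n, co φ n * gg n (inc x)) muA := by
    apply bdd_integrable muA _ ((tsum_continuous φ).measurable.comp measurable_inc)
      (∑' n, |co φ n|)
    intro x
    have hs : Summable (fun n => ‖co φ n * gg n (inc x)‖) := by
      apply Summable.of_nonneg_of_le (fun _ => norm_nonneg _) _ (co_summable φ)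
      intro n
      rw [norm_mul, Real.norm_eq_abs, Real.norm_eq_abs]
      exact mul_le_of_le_one_right (abs_nonneg _) (gg_bound n _)
    have h2 := norm_tsum_le_tsum_norm hs
    refine h2.trans ?_
    apply hs.tsum_le_tsum _ (co_summable φ)
    intro n
    rw [norm_mul, Real.norm_eq_abs, Real.norm_eq_abs]
    exact mul_le_of_le_one_right (abs_nonneg _) (gg_bound n _)
  exact h1.congr ((ae_phi φ).mono (fun x hx => hx.symm))

lemma pettis (E : Set Om) (hE : MeasurableSet E) (φ : LI →L[ℝ] ℝ) :
    φ (vv E) = ∫ x in E, φ (ff x) ∂muA := by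
  rw [phi_vv φ E hE]
  have h1 : ∫ x in E, φ (ff x) ∂muA = ∫ x in E, ∑' n, co φ n * gg n (inc x) ∂muA := by
    apply integral_congr_ae
    exact ae_restrict_of_ae (ae_phi φ)
  rw [h1, ← integral_tsum_of_summable_integral_norm]
  · congr 1
    funext n
    rw [integral_const_mul]
    rfl
  · intro n
    apply Integrable.const_mul
    exact (bdd_integrable muA _ (meas_g n) 1 (fun x => gg_bound n _)).integrableOn
  · apply Summable.of_nonneg_of_le (fun n => integral_nonneg (fun x => norm_nonneg _)) _
      (co_summable φ)
    intro n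
    have h2 : ∫ x in E, ‖co φ n * gg n (inc x)‖ ∂muA ≤ ∫ x in E, |co φ n| ∂muA := by
      apply integral_mono
      · apply Integrable.norm
        apply Integrable.const_mul
        exact (bdd_integrable muA _ (meas_g n) 1 (fun x => gg_bound n _)).integrableOn
      · exact integrable_const _
      · intro x
        show ‖co φ n * gg n (inc x)‖ ≤ |co φ n|
        rw [norm_mul, Real.norm_eq_abs, Real.norm_eq_abs]
        exact mul_le_of_le_one_right (abs_nonneg _) (gg_bound n _)
    refine h2.trans ?_
    rw [setIntegral_const, smul_eq_mul]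
    apply mul_le_of_le_one_left (abs_nonneg _)
    rw [measureReal_def]
    exact ENNReal.toReal_le_of_le_ofReal zero_le_one (by simpa using prob_le_one)

/-- the sets whose integrals are far from each other -/
def BB (n : ℕ) : Set GG := {x | x (Sum.inl (Sum.inl n)) = true}

lemma BB_meas (n : ℕ) : MeasurableSet (BB n) :=
  ((isOpen_discrete ({true} : Set Bool)).preimage (apply_continuous (Sum.inl (Sum.inl n)))).measurableSet

lemma vc_BB (n k : ℕ) : vc (inc ⁻¹' BB n) k = ∫ x in BB n, gg k x ∂mm := by
  unfold vc
  rw [← inc_preserving.map_eq, setIntegral_map (BB_meas n)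
    (gg_continuous k).measurable.aestronglyMeasurable measurable_inc.aemeasurable]

lemma vc_ne (n k : ℕ) (hk : k ≠ n) : vc (inc ⁻¹' BB n) k = 0 := by
  rw [vc_BB, ← integral_indicator (BB_meas n)]
  have h1 := integral_flip k ((BB n).indicator (fun _ => (1 : ℝ))) (by
    intro x
    have h2 : (flipp k + x ∈ BB n) ↔ x ∈ BB n := by
      show (flipp k + x) (Sum.inl (Sum.inl n)) = true ↔ x (Sum.inl (Sum.inl n)) = true
      rw [flipp_apply]
      have : flipp k (Sum.inl (Sum.inl n)) = false := by simp [flipp, Ne.symm hk]
      rw [this]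
      simp
    by_cases hx : x ∈ BB n
    · rw [indicator_of_mem hx, indicator_of_mem (h2.mpr hx)]
    · rw [indicator_of_notMem hx, indicator_of_notMem (fun h => hx (h2.mp h))])
  rw [← h1]
  congr 1
  funext x
  by_cases hx : x ∈ BB n
  · rw [indicator_of_mem hx, indicator_of_mem hx, mul_one]
  · rw [indicator_of_notMem hx, indicator_of_notMem hx, mul_zero]

lemma fair_coord (n : ℕ) (b : Bool) : fair {x | x n = b} = ENNReal.ofReal (1 / 2) := by
  have h1 := (measurePreserving_eval_infinitePi (fun _ : ℕ => coin half) n).measure_preimage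
    (measurableSet_singleton b).nullMeasurableSet
  have h2 : coin half {b} = ENNReal.ofReal (1 / 2) := by
    cases b
    · rw [coin_false]
      congr 1
      show (1 : ℝ) - 1 / 2 = 1 / 2
      norm_num
    · rw [coin_true]; rfl
  rw [← h2, ← h1]
  rfl

lemma vc_self (n : ℕ) : vc (inc ⁻¹' BB n) n = 1 / 4 := by
  rw [vc_BB, ← integral_indicator (BB_meas n)]
  set W : Set GG := pr ⁻¹' ({x | x n = true} ×ˢ {y | y n = false}) with hW
  have hmb : ∀ b : Bool, MeasurableSet {x : ℕ → Bool | x n = b} := by
    intro b
    have h0 : Measurable (fun x : ℕ → Bool => x n) := measurable_pi_apply n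
    exact h0 (measurableSet_singleton b)
  have hm1 := hmb true
  have hm2 := hmb false
  have hWm : MeasurableSet ({x : ℕ → Bool | x n = true} ×ˢ {y : ℕ → Bool | y n = false}) :=
    hm1.prod hm2
  have h1 : (fun x => (BB n).indicator (gg n) x) = W.indicator (fun _ => (1 : ℝ)) := by
    funext x
    by_cases hx : x ∈ BB n
    · rw [indicator_of_mem hx]
      have hx' : x (Sum.inl (Sum.inl n)) = true := hx
      unfold gg
      rw [hx']
      cases hb : x (Sum.inl (Sum.inr n))
      · rw [indicator_of_mem (show x ∈ W from ⟨hx', hb⟩)]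
        simp [tb]
      · rw [indicator_of_notMem]
        · simp [tb]
        · rintro ⟨_, h2⟩
          have h2' : x (Sum.inl (Sum.inr n)) = false := h2
          rw [hb] at h2'
          exact absurd h2' (by simp)
    · rw [indicator_of_notMem hx, indicator_of_notMem]
      rintro ⟨h2, _⟩
      exact hx h2
  rw [h1, integral_indicator (pr_continuous.measurable hWm), setIntegral_const, smul_eq_mul,
    mul_one, measureReal_def, pr_preserving.measure_preimage hWm.nullMeasurableSet, prod_prod,
    fair_coord, fair_coord, ← ENNReal.ofReal_mul (by norm_num), ENNReal.toReal_ofReal (by norm_num)]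
  norm_num

end Pool.Agent.Helper882.QR
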