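import Mathlib

set_option autoImplicit false
set_option linter.unusedSectionVars false

open MeasureTheory Measure Set Topology Filter ProbabilityTheory
open scoped ENNReal

namespace Pool.Agent.Helper882.QR

/-- Coordinatewise maps of a product of two infinite product measures. -/
lemma prod_infinitePi_map {ι : Type*} {X Y Z : ι → Type*} [∀ i, MeasurableSpace (X i)]
    [∀ i, MeasurableSpace (Y i)]
    [∀ i, MeasurableSpace (Z i)] (μ : ∀ i, Measure (X i)) (ν : ∀ i, Measure (Y i))
    [∀ i, IsProbabilityMeasure (μ i)] [∀ i, IsProbabilityMeasure (ν i)]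
    (h : ∀ i, X i × Y i → Z i) (hh : ∀ i, Measurable (h i)) :
    ((infinitePi μ).prod (infinitePi ν)).map (fun p i => h i (p.1 i, p.2 i)) =
      infinitePi (fun i => ((μ i).prod (ν i)).map (h i)) := by
  have : ∀ i, IsProbabilityMeasure (((μ i).prod (ν i)).map (h i)) := fun i =>
    isProbabilityMeasure_map (hh i).aemeasurable
  refine eq_infinitePi _ fun s t ht => ?_
  have hm : Measurable (fun (p : (∀ i, X i) × (∀ i, Y i)) i => h i (p.1 i, p.2 i)) := by fun_prop
  have hms : MeasurableSet (Set.pi (s : Set ι) t) := .pi s.countable_toSet fun _ _ ↦ ht _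
  rw [map_apply hm hms, prod_apply (hm hms)]
  have h1 : ∀ a : ∀ i, X i, (infinitePi ν) (Prod.mk a ⁻¹'
      ((fun (p : (∀ i, X i) × (∀ i, Y i)) i => h i (p.1 i, p.2 i)) ⁻¹' (Set.pi (s : Set ι) t))) =
      ∏ i ∈ s, ν i ((fun v => h i (a i, v)) ⁻¹' (t i)) := by
    intro a
    have : (Prod.mk a ⁻¹'
      ((fun (p : (∀ i, X i) × (∀ i, Y i)) i => h i (p.1 i, p.2 i)) ⁻¹' (Set.pi (s : Set ι) t))) =
        Set.pi (s : Set ι) (fun i => (fun v => h i (a i, v)) ⁻¹' (t i)) := by
      ext b; simp
    rw [this, infinitePi_pi]
    intro i _
    exact (hh i).comp measurable_prodMk_left (ht i)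
  simp_rw [h1]
  have hg : ∀ i, Measurable (fun u : X i => ν i ((fun v => h i (u, v)) ⁻¹' (t i))) := by
    intro i
    exact measurable_measure_prodMk_left ((hh i) (ht i))
  rw [lintegral_prod_eq_prod_lintegral_of_indepFun s
    (fun i (a : ∀ i, X i) => ν i ((fun v => h i (a i, v)) ⁻¹' (t i)))]
  · apply Finset.prod_congr rfl
    intro i _
    rw [map_apply (hh i) (ht i), prod_apply ((hh i) (ht i))]
    have h2 := (measurePreserving_eval_infinitePi μ i).lintegral_comp (hg i)
    exact h2
  · exact iIndepFun_infinitePi (X := fun i u => ν i ((fun v => h i (u, v)) ⁻¹' (t i))) hg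
  · intro i
    exact (hg i).comp (measurable_pi_apply i)

/-- The coin with success probability `s`. -/
noncomputable def coin (s : unitInterval) : Measure Bool :=
  ENNReal.ofReal s • dirac true + ENNReal.ofReal (1 - s) • dirac false

instance (s : unitInterval) : IsProbabilityMeasure (coin s) := by
  constructor
  unfold coin
  rw [Measure.add_apply, Measure.smul_apply, Measure.smul_apply, measure_univ, measure_univ,
    smul_eq_mul, smul_eq_mul, mul_one, mul_one, ← ENNReal.ofReal_add s.2.1 (by linarith [s.2.2])]
  simp

lemma coin_true (s : unitInterval) : coin s {true} = ENNReal.ofReal s := by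
  simp [coin]

lemma coin_false (s : unitInterval) : coin s {false} = ENNReal.ofReal (1 - s) := by
  simp [coin]

lemma eq_coin (μ : Measure Bool) [IsProbabilityMeasure μ] (s : unitInterval)
    (h : μ {true} = ENNReal.ofReal s) : μ = coin s := by
  have hf : μ {false} = ENNReal.ofReal (1 - s) := by
    have h1 : ({false} : Set Bool) = {true}ᶜ := by ext b; cases b <;> simp
    rw [h1, prob_compl_eq_one_sub (measurableSet_singleton _), h,
      ENNReal.ofReal_sub 1 s.2.1, ENNReal.ofReal_one]
  apply Measure.ext_of_singleton
  intro b
  cases b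
  · rw [hf, coin_false]
  · rw [h, coin_true]

/-- The random subset of the natural numbers (as a boolean sequence) with independent
coordinates and success probability `s`. -/
noncomputable def bern (s : unitInterval) : Measure (ℕ → Bool) := infinitePi (fun _ => coin s)

instance (s : unitInterval) : IsProbabilityMeasure (bern s) := by
  unfold bern; infer_instance

/-- the probability one half -/
noncomputable def half : unitInterval := ⟨1 / 2, by norm_num, by norm_num⟩

/-- the fair coin measure -/
noncomputable def fair : Measure (ℕ → Bool) := bern half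

instance : IsProbabilityMeasure fair := by unfold fair; infer_instance

lemma coin_half_flip (b : Bool) : (coin half).map (fun x => b + x) = coin half := by
  have : IsProbabilityMeasure ((coin half).map (fun x => b + x)) :=
    isProbabilityMeasure_map (by fun_prop)
  apply eq_coin
  rw [map_apply (by fun_prop) (measurableSet_singleton _)]
  cases b
  · have : (fun x : Bool => false + x) ⁻¹' {true} = {true} := by
      ext x
      show (xor false x = true) ↔ (x = true)
      cases x <;> simp
    rw [this, coin_true]
  · have : (fun x : Bool => true + x) ⁻¹' {true} = {false} := by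
      ext x
      show (xor true x = true) ↔ (x = false)
      cases x <;> simp
    rw [this, coin_false]
    congr 1
    show (1 : ℝ) - 1 / 2 = 1 / 2
    norm_num

instance : fair.IsAddLeftInvariant := by
  constructor
  intro g
  show (infinitePi (fun _ => coin half)).map (fun x => g + x) = _
  have h1 : (fun x : ℕ → Bool => g + x) = fun x i => g i + x i := rfl
  rw [h1, infinitePi_map_pi (μ := fun _ : ℕ => coin half) (f := fun i x => g i + x)
    (fun i => by fun_prop)]
  simp_rw [coin_half_flip]
  rfl

instance : fair.IsAddHaarMeasure :=
  isAddHaarMeasure_of_isCompact_nonempty_interior fair univ isCompact_univ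
    (by rw [interior_univ]; exact univ_nonempty) (by simp) (by simp)

/-- union of random sets -/
lemma bern_union (s t : unitInterval) :
    ((bern s).prod (bern t)).map (fun p i => p.1 i || p.2 i) =
      bern (unitInterval.symm (unitInterval.symm s * unitInterval.symm t)) := by
  unfold bern
  have h1 := prod_infinitePi_map (fun _ : ℕ => coin s) (fun _ : ℕ => coin t)
    (fun _ q => q.1 || q.2) (fun _ => by fun_prop)
  rw [h1]
  congr 1
  funext i
  have : IsProbabilityMeasure (((coin s).prod (coin t)).map (fun q => q.1 || q.2)) :=
    isProbabilityMeasure_map (by fun_prop)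
  apply eq_coin
  rw [map_apply (by fun_prop) (measurableSet_singleton _)]
  have h2 : (fun q : Bool × Bool => q.1 || q.2) ⁻¹' {true} = ({false} ×ˢ {false})ᶜ := by
    ext ⟨x, y⟩
    cases x <;> cases y <;> simp
  rw [h2, prob_compl_eq_one_sub (by measurability), prod_prod, coin_false, coin_false,
    ← ENNReal.ofReal_mul (by linarith [s.2.2]), ← ENNReal.ofReal_one,
    ← ENNReal.ofReal_sub]
  · simp [unitInterval.coe_symm_eq]
  · exact mul_nonneg (by linarith [s.2.2]) (by linarith [t.2.2])

/-- intersection of random sets -/
lemma bern_inter (s t : unitInterval) :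
    ((bern s).prod (bern t)).map (fun p i => p.1 i && p.2 i) = bern (s * t) := by
  unfold bern
  have h1 := prod_infinitePi_map (fun _ : ℕ => coin s) (fun _ : ℕ => coin t)
    (fun _ q => q.1 && q.2) (fun _ => by fun_prop)
  rw [h1]
  congr 1
  funext i
  have : IsProbabilityMeasure (((coin s).prod (coin t)).map (fun q => q.1 && q.2)) :=
    isProbabilityMeasure_map (by fun_prop)
  apply eq_coin
  rw [map_apply (by fun_prop) (measurableSet_singleton _)]
  have h2 : (fun q : Bool × Bool => q.1 && q.2) ⁻¹' {true} = ({true} ×ˢ {true}) := by
    ext ⟨x, y⟩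
    cases x <;> cases y <;> simp
  rw [h2, prod_prod, coin_true, coin_true, ← ENNReal.ofReal_mul s.2.1]
  rfl

/-- mixing two fair random sets along a fixed set -/
lemma fair_mix (c : Set ℕ) [DecidablePred (· ∈ c)] :
    (fair.prod fair).map (fun p i => if i ∈ c then p.1 i else p.2 i) = fair := by
  unfold fair bern
  have h1 := prod_infinitePi_map (fun _ : ℕ => coin half) (fun _ : ℕ => coin half)
    (fun i q => if i ∈ c then q.1 else q.2) (fun i => by
      by_cases hi : i ∈ c
      · simp only [hi, if_true]; fun_prop
      · simp only [hi, if_false]; fun_prop)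
  rw [h1]
  congr 1
  funext i
  by_cases hi : i ∈ c
  · simp only [hi, if_true]
    exact measurePreserving_fst.map_eq
  · simp only [hi, if_false]
    exact measurePreserving_snd.map_eq

/-- complement of a fair random set -/
lemma fair_compl : fair.map (fun x i => !(x i)) = fair := by
  have h1 : (fun (x : ℕ → Bool) i => !(x i)) = fun x => (fun _ => true) + x := by
    funext x i
    show (!(x i)) = xor true (x i)
    simp
  rw [h1]
  exact map_add_left_eq_self fair _

end Pool.Agent.Helper882.QR
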