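import Pool.Agent.Helper882.QRGroup

set_option autoImplicit false
set_option linter.unusedSectionVars false

open MeasureTheory Measure Set Topology Filter ProbabilityTheory
open scoped ENNReal

namespace Pool.Agent.Helper882.QR

/-- first random set -/
def aa (x : GG) : ℕ → Bool := fun n => x (Sum.inl (Sum.inl n))
/-- second random set -/
def bb (x : GG) : ℕ → Bool := fun n => x (Sum.inl (Sum.inr n))
/-- auxiliary coordinates -/
def cc (φ : LI →L[ℝ] ℝ) (x : GG) : ℕ → Bool := fun n => x (Sum.inr (φ, n))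

lemma aa_continuous : Continuous aa := continuous_pi (fun _ => apply_continuous _)
lemma bb_continuous : Continuous bb := continuous_pi (fun _ => apply_continuous _)
lemma cc_continuous (φ : LI →L[ℝ] ℝ) : Continuous (cc φ) := continuous_pi (fun _ => apply_continuous _)

/-- the projection on the two random sets -/
def pr (x : GG) : (ℕ → Bool) × (ℕ → Bool) := (aa x, bb x)

lemma pr_continuous : Continuous pr := aa_continuous.prodMk bb_continuous

/-- the projection as a homomorphism -/
def prHom : GG →+ (ℕ → Bool) × (ℕ → Bool) where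
  toFun := pr
  map_zero' := rfl
  map_add' := fun _ _ => rfl

/-- the projection as a homomorphism -/
def ccHom (φ : LI →L[ℝ] ℝ) : GG →+ (ℕ → Bool) where
  toFun := cc φ
  map_zero' := rfl
  map_add' := fun _ _ => rfl

lemma pr_surjective : Function.Surjective pr := by
  rintro ⟨x, y⟩
  refine ⟨fun i => match i with
    | Sum.inl (Sum.inl n) => x n
    | Sum.inl (Sum.inr n) => y n
    | Sum.inr _ => false, rfl⟩

lemma cc_surjective (φ : LI →L[ℝ] ℝ) : Function.Surjective (cc φ) := by
  intro x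
  refine ⟨fun i => match i with
    | Sum.inl _ => false
    | Sum.inr p => x p.2, rfl⟩

lemma pr_preserving : MeasurePreserving pr mm (fair.prod fair) := by
  refine ⟨pr_continuous.measurable, ?_⟩
  have h1 : (mm.map prHom).IsAddHaarMeasure := by
    apply isAddHaarMeasure_map mm prHom pr_continuous pr_surjective
    rw [cocompact_eq_bot]
    exact tendsto_bot
  have h2 : IsProbabilityMeasure (mm.map prHom) :=
    isProbabilityMeasure_map pr_continuous.measurable.aemeasurable
  exact isAddHaarMeasure_eq_of_isProbabilityMeasure (mm.map prHom) (fair.prod fair)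

lemma cc_preserving (φ : LI →L[ℝ] ℝ) : MeasurePreserving (cc φ) mm fair := by
  refine ⟨(cc_continuous φ).measurable, ?_⟩
  have h1 : (mm.map (ccHom φ)).IsAddHaarMeasure := by
    apply isAddHaarMeasure_map mm (ccHom φ) (cc_continuous φ) (cc_surjective φ)
    rw [cocompact_eq_bot]
    exact tendsto_bot
  have h2 : IsProbabilityMeasure (mm.map (ccHom φ)) :=
    isProbabilityMeasure_map (cc_continuous φ).measurable.aemeasurable
  exact isAddHaarMeasure_eq_of_isProbabilityMeasure (mm.map (ccHom φ)) fair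

/-- The subspace. -/
def AA : Set GG := {x | ∀ φ : LI →L[ℝ] ℝ, sing φ (S (aa x)) ≠ sing φ (S (bb x)) →
  ∀ n, cc φ x n = false}

lemma AA_full : mm AA = 1 := by
  apply full_of_closed
  intro K hKc hK0
  have hKo : IsOpen Kᶜ := hKc.isClosed.isOpen_compl
  obtain ⟨J, hJ, hJm⟩ := exists_sat Kᶜ hKo
  set J' : Set II := J ∪ Set.range Sum.inl with hJ'
  have hJ'c : J'.Countable := hJ.union (Set.countable_range _)
  have hJ'm : mm (sat J' Kᶜ) = mm Kᶜ := by
    apply le_antisymm
    · rw [← hJm]
      exact measure_mono (sat_mono subset_union_left _)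
    · exact measure_mono (subset_sat _ _)
  set L : Set GG := (sat J' Kᶜ)ᶜ with hL
  have hLo : IsOpen (sat J' Kᶜ) := sat_open _ _ hKo
  have hLc : IsCompact L := hLo.isClosed_compl.isCompact
  have hL0 : mm L ≠ 0 := by
    intro h0
    apply hK0
    rw [hL, prob_compl_eq_zero_iff hLo.measurableSet, hJ'm,
      ← prob_compl_eq_zero_iff hKo.measurableSet, compl_compl] at h0
    exact h0
  have hLK : ∀ x ∈ L, ∀ y : GG, (∀ i ∈ J', x i = y i) → y ∈ K := by
    intro x hx y hxy
    by_contra hy
    exact hx ⟨y, hy, hxy⟩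
  -- the functionals whose coordinates are involved
  set T : Set (LI →L[ℝ] ℝ) := {φ | ∃ n, Sum.inr (φ, n) ∈ J'} with hT
  have hTc : T.Countable := by
    have h1 : T ⊆ (fun i : II => match i with
      | Sum.inl _ => (0 : LI →L[ℝ] ℝ)
      | Sum.inr p => p.1) '' J' := by
      rintro φ ⟨n, hn⟩
      exact ⟨Sum.inr (φ, n), hn, rfl⟩
    exact (hJ'c.image _).mono h1
  -- a good point in the projection of `L`
  have hpos : (fair.prod fair) (pr '' L) ≠ 0 := by
    intro h0
    have hm : MeasurableSet (pr '' L) := (hLc.image pr_continuous).isClosed.measurableSet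
    have h1 := pr_preserving.measure_preimage hm.nullMeasurableSet
    rw [h0] at h1
    exact hL0 (measure_mono_null (subset_preimage_image pr L) h1)
  have hD := full_pairs T hTc
  have hmeet : (pr '' L ∩ {p : (ℕ → Bool) × (ℕ → Bool) | ∀ φ ∈ T,
      sing φ (S p.1) = sing φ (S p.2)}).Nonempty := by
    by_contra hne
    have hm : MeasurableSet (pr '' L) := (hLc.image pr_continuous).isClosed.measurableSet
    have h1 : {p : (ℕ → Bool) × (ℕ → Bool) | ∀ φ ∈ T, sing φ (S p.1) = sing φ (S p.2)} ⊆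
        (pr '' L)ᶜ := by
      intro p hp hpL
      exact hne ⟨p, hpL, hp⟩
    have h2 := measure_mono (μ := fair.prod fair) h1
    rw [hD] at h2
    have h3 : (fair.prod fair) (pr '' L)ᶜ = 1 := le_antisymm prob_le_one h2
    rw [prob_compl_eq_one_iff hm] at h3
    exact hpos h3
  obtain ⟨_, ⟨x, hxL, rfl⟩, hx⟩ := hmeet
  have hx' : ∀ φ ∈ T, sing φ (S (aa x)) = sing φ (S (bb x)) := hx
  let y : GG := comb J' x (fun _ => false)
  have hyK : y ∈ K := hLK x hxL y (fun i hi => (comb_mem J' x _ i hi).symm)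
  have hya : aa y = aa x := by
    funext n
    exact comb_mem J' x (fun _ => false) (Sum.inl (Sum.inl n)) (Or.inr ⟨_, rfl⟩)
  have hyb : bb y = bb x := by
    funext n
    exact comb_mem J' x (fun _ => false) (Sum.inl (Sum.inr n)) (Or.inr ⟨_, rfl⟩)
  refine ⟨y, hyK, ?_⟩
  intro φ hφ n
  rw [hya, hyb] at hφ
  have hφT : φ ∉ T := fun h => hφ (hx' φ h)
  have hnJ : (Sum.inr (φ, n) : II) ∉ J' := fun h => hφT ⟨n, h⟩
  exact comb_notMem J' x (fun _ => false) (Sum.inr (φ, n)) hnJ

/-- the underlying space of the example -/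
def Om : Type := {x : GG // x ∈ AA}

/-- the inclusion -/
def inc : Om → GG := Subtype.val

instance : TopologicalSpace Om := TopologicalSpace.induced inc inferInstance

lemma inc_continuous : Continuous inc := continuous_induced_dom

/-- the outer measure -/
noncomputable def nu : OuterMeasure Om := OuterMeasure.comap inc mm.toOuterMeasure

lemma nu_apply (E : Set Om) : nu E = mm (inc '' E) := by
  unfold nu
  rw [OuterMeasure.comap_apply]
  rfl

noncomputable instance : MeasurableSpace Om := nu.caratheodory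

/-- the measure of the example -/
noncomputable def muA : Measure Om := nu.toMeasure le_rfl

lemma muA_apply (E : Set Om) (hE : MeasurableSet E) : muA E = mm (inc '' E) := by
  unfold muA
  rw [toMeasure_apply _ _ hE, nu_apply]

lemma inc_image_preimage (B : Set GG) : inc '' (inc ⁻¹' B) = B ∩ AA := by
  ext x
  constructor
  · rintro ⟨y, hy, rfl⟩
    exact ⟨hy, y.2⟩
  · rintro ⟨h1, h2⟩
    exact ⟨⟨x, h2⟩, h1, rfl⟩

lemma measurable_inc : Measurable inc := by
  intro B hB
  show nu.IsCaratheodory (inc ⁻¹' B)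
  intro t
  rw [nu_apply, nu_apply, nu_apply]
  have h1 : inc '' (t ∩ inc ⁻¹' B) = inc '' t ∩ B := by
    ext x
    constructor
    · rintro ⟨y, ⟨h1, h2⟩, rfl⟩
      exact ⟨⟨y, h1, rfl⟩, h2⟩
    · rintro ⟨⟨y, h1, rfl⟩, h2⟩
      exact ⟨y, ⟨h1, h2⟩, rfl⟩
  have h2 : inc '' (t \ inc ⁻¹' B) = inc '' t \ B := by
    ext x
    constructor
    · rintro ⟨y, ⟨h1, h2⟩, rfl⟩
      exact ⟨⟨y, h1, rfl⟩, h2⟩
    · rintro ⟨⟨y, h1, rfl⟩, h2⟩
      exact ⟨y, ⟨h1, h2⟩, rfl⟩
  rw [h1, h2, measure_inter_add_sdiff _ hB]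

lemma mm_inter_AA (B : Set GG) (hB : MeasurableSet B) : mm (B ∩ AA) = mm B := by
  apply le_antisymm (measure_mono inter_subset_left)
  have h1 := measure_inter_add_sdiff (μ := mm) AA hB
  rw [AA_full] at h1
  have h2 : mm (AA \ B) ≤ mm Bᶜ := measure_mono (fun x hx => hx.2)
  have h3 := prob_add_prob_compl (μ := mm) hB
  have h4 : mm B + mm Bᶜ ≤ mm (B ∩ AA) + mm Bᶜ := by
    rw [h3, ← h1, inter_comm]
    gcongr
  exact (ENNReal.add_le_add_iff_right (measure_ne_top _ _)).mp h4

lemma inc_preserving : MeasurePreserving inc muA mm := by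
  refine ⟨measurable_inc, ?_⟩
  ext B hB
  rw [map_apply measurable_inc hB, muA_apply _ (measurable_inc hB), inc_image_preimage,
    mm_inter_AA B hB]

instance : IsProbabilityMeasure muA := by
  constructor
  have := inc_preserving.measure_preimage (MeasurableSet.univ (α := GG)).nullMeasurableSet
  rw [preimage_univ] at this
  rw [this]
  exact measure_univ

lemma muA_complete : muA.IsComplete := by
  constructor
  intro s hs
  show nu.IsCaratheodory s
  rw [OuterMeasure.isCaratheodory_iff_le']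
  intro t
  have h0 : nu s = 0 := by
    have := le_toMeasure_apply nu le_rfl s
    exact le_antisymm (this.trans hs.le) bot_le
  have h1 : nu (t ∩ s) = 0 := le_antisymm ((nu.mono inter_subset_right).trans h0.le) bot_le
  rw [h1, zero_add]
  exact nu.mono sdiff_subset

instance : OpensMeasurableSpace Om := by
  constructor
  apply MeasurableSpace.generateFrom_le
  rintro U ⟨V, hV, rfl⟩
  exact measurable_inc hV.measurableSet

lemma muA_innerRegular : muA.InnerRegularWRT IsClosed MeasurableSet := by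
  intro E hE r hr
  set C := toMeasurable mm (inc '' Eᶜ) with hC
  have hCm : MeasurableSet C := measurableSet_toMeasurable _ _
  have h1 : mm C = muA Eᶜ := by
    rw [hC, measure_toMeasurable, muA_apply _ hE.compl]
  have h2 : mm Cᶜ = muA E := by
    have e1 := prob_add_prob_compl (μ := mm) hCm
    have e2 := prob_add_prob_compl (μ := muA) hE
    rw [h1, ← e2, add_comm (muA E)] at e1
    exact (ENNReal.add_right_inj (measure_ne_top _ _)).mp e1
  rw [← h2] at hr
  obtain ⟨K, hK, hKc, hKr⟩ := hCm.compl.exists_lt_isCompact_of_ne_top (measure_ne_top _ _) hr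
  refine ⟨inc ⁻¹' K, ?_, hKc.isClosed.preimage inc_continuous, ?_⟩
  · intro x hx
    by_contra hxE
    exact hK hx (subset_toMeasurable _ _ ⟨x, hxE, rfl⟩)
  · rw [inc_preserving.measure_preimage hKc.isClosed.measurableSet.nullMeasurableSet]
    exact hKr

lemma mm_directed {ι : Type*} (V : ι → Set GG) (hV : ∀ i, IsOpen (V i))
    (hd : Directed (· ⊆ ·) V) [Nonempty ι] : mm (⋃ i, V i) = ⨆ i, mm (V i) := by
  apply le_antisymm
  · apply le_of_forall_lt
    intro r hr
    obtain ⟨K, hK, hKc, hKr⟩ := (isOpen_iUnion hV).exists_lt_isCompact hr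
    obtain ⟨i, hi⟩ := hKc.elim_directed_cover V hV hK hd
    exact hKr.trans_le ((measure_mono hi).trans (le_iSup (fun i => mm (V i)) i))
  · exact iSup_le (fun i => measure_mono (subset_iUnion V i))

lemma muA_tau (𝒰 : Set (Set Om)) (h1 : ∀ U ∈ 𝒰, IsOpen U) (h2 : DirectedOn (· ⊆ ·) 𝒰) :
    muA (⋃₀ 𝒰) = ⨆ U ∈ 𝒰, muA U := by
  rcases 𝒰.eq_empty_or_nonempty with h0 | h0
  · subst h0; simp
  have hne : Nonempty 𝒰 := h0.to_subtype
  -- the largest open set with the given trace
  let V : 𝒰 → Set GG := fun U => ⋃₀ {W | IsOpen W ∧ inc ⁻¹' W ⊆ U.1}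
  have hVo : ∀ U, IsOpen (V U) := fun U => isOpen_sUnion (fun W hW => hW.1)
  have hVt : ∀ U : 𝒰, inc ⁻¹' (V U) = U.1 := by
    intro U
    apply Subset.antisymm
    · intro x hx
      obtain ⟨W, hW, hxW⟩ := hx
      exact hW.2 hxW
    · obtain ⟨W, hW, hWU⟩ := h1 U.1 U.2
      intro x hx
      rw [← hWU] at hx
      exact ⟨W, ⟨hW, hWU.subset⟩, hx⟩
  have hVm : ∀ U U' : 𝒰, U.1 ⊆ U'.1 → V U ⊆ V U' := by
    intro U U' h x hx
    obtain ⟨W, hW, hxW⟩ := hx
    exact ⟨W, ⟨hW.1, hW.2.trans h⟩, hxW⟩
  have hVd : Directed (· ⊆ ·) V := by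
    intro U U'
    obtain ⟨W, hW, hUW, hUW'⟩ := h2 U.1 U.2 U'.1 U'.2
    exact ⟨⟨W, hW⟩, hVm _ _ hUW, hVm _ _ hUW'⟩
  have h3 : ⋃₀ 𝒰 = inc ⁻¹' (⋃ U, V U) := by
    rw [preimage_iUnion, sUnion_eq_iUnion]
    congr 1
    funext U
    exact (hVt U).symm
  rw [h3, inc_preserving.measure_preimage (isOpen_iUnion hVo).measurableSet.nullMeasurableSet,
    mm_directed V hVo hVd, iSup_subtype']
  congr 1
  funext U
  rw [← hVt U, inc_preserving.measure_preimage (hVo U).measurableSet.nullMeasurableSet]

end Pool.Agent.Helper882.QR
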