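import Pool.Agent.Helper882.QRProd

set_option autoImplicit false
set_option linter.unusedSectionVars false

open MeasureTheory Measure Set Topology Filter ProbabilityTheory
open scoped ENNReal

namespace Pool.Agent.Helper882.QR

/-- A set of boolean sequences which does not depend on finitely many coordinates. -/
def Tail (S : Set (ℕ → Bool)) : Prop :=
  ∀ x y : ℕ → Bool, {n | x n ≠ y n}.Finite → x ∈ S → y ∈ S

lemma dense_finite_support : Dense {g : ℕ → Bool | {n | g n ≠ false}.Finite} := by
  intro x
  apply mem_closure_of_tendsto (f := fun N n => if n < N then x n else false) (b := atTop)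
  · rw [tendsto_pi_nhds]
    intro n
    apply tendsto_const_nhds.congr'
    filter_upwards [eventually_gt_atTop n] with N hN
    rw [if_pos hN]
  · apply Eventually.of_forall
    intro N
    apply (Set.finite_lt_nat N).subset
    intro n hn
    by_contra h
    apply hn
    show (if n < N then x n else false) = false
    have h' : ¬ n < N := h
    rw [if_neg h']

/-- zero-one law for the outer measure of a tail set -/
lemma zero_one (S : Set (ℕ → Bool)) (hS : Tail S) : fair S = 0 ∨ fair S = 1 := by
  set B := toMeasurable fair S with hB
  have hBm : MeasurableSet B := measurableSet_toMeasurable _ _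
  have hBS : fair B = fair S := measure_toMeasurable S
  have hsub : S ⊆ B := subset_toMeasurable _ _
  have hd : Dense {g : ℕ → Bool | (fun x => g +ᵥ x) ⁻¹' B =ᵐ[fair] B} := by
    apply dense_finite_support.mono
    intro g hg
    have h1 : S ⊆ (fun x => g +ᵥ x) ⁻¹' B := by
      intro x hx
      apply hsub
      apply hS x _ _ hx
      apply Set.Finite.subset hg
      intro n hn hgn
      apply hn
      show x n = xor (g n) (x n)
      rw [hgn]; simp
    have h2 : fair ((fun x => g +ᵥ x) ⁻¹' B) = fair B := measure_preimage_add fair g B
    have hm2 : MeasurableSet ((fun x => g +ᵥ x) ⁻¹' B) := (measurable_const_vadd g) hBm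
    have h3 : fair S ≤ fair (((fun x => g +ᵥ x) ⁻¹' B) ∩ B) :=
      measure_mono (subset_inter h1 hsub)
    have h4 : (((fun x => g +ᵥ x) ⁻¹' B) ∩ B : Set (ℕ → Bool)) =ᵐ[fair] B :=
      ae_eq_of_subset_of_measure_ge inter_subset_right (by rw [hBS]; exact h3)
        (hm2.inter hBm).nullMeasurableSet (measure_ne_top _ _)
    have h5 : (((fun x => g +ᵥ x) ⁻¹' B) ∩ B : Set (ℕ → Bool)) =ᵐ[fair] ((fun x => g +ᵥ x) ⁻¹' B) :=
      ae_eq_of_subset_of_measure_ge inter_subset_left (by rw [h2, hBS]; exact h3)
        (hm2.inter hBm).nullMeasurableSet (measure_ne_top _ _)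
    exact h5.symm.trans h4
  have h := aeconst_of_dense_setOfPred_preimage_vadd_ae hBm.nullMeasurableSet hd
  rw [eventuallyConst_set'] at h
  rcases h with h | h
  · left
    rw [← hBS, measure_congr h, measure_empty]
  · right
    rw [← hBS, measure_congr h, measure_univ]

end Pool.Agent.Helper882.QR
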