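import Pool.Agent.Helper882.Defs

set_option autoImplicit false
set_option linter.unusedSectionVars false

open MeasureTheory Set Topology Filter
open scoped NNReal ENNReal

namespace Pool.Agent.Helper882.UniformAlgebra

/-- Lebesgue measure on the circle weighted by the distance to the origin. -/
noncomputable def WW : Measure TT := (volume : Measure TT).withDensity (fun x => ‖x‖ₑ)

lemma norm_le_one' (x : TT) : ‖x‖ ≤ 1 := by
  have := AddCircle.norm_le_half_period (1:ℝ) one_ne_zero (x := x)
  rw [abs_one] at this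
  linarith

instance : IsFiniteMeasure WW := by
  constructor
  unfold WW
  rw [withDensity_apply _ MeasurableSet.univ, Measure.restrict_univ]
  calc ∫⁻ x : TT, ‖x‖ₑ ≤ ∫⁻ x : TT, 1 := by
        apply lintegral_mono
        intro x
        show ‖x‖ₑ ≤ 1
        rw [← ofReal_norm]
        exact ENNReal.ofReal_le_one.mpr (norm_le_one' x)
    _ = 1 := by rw [lintegral_one, UnitAddCircle.measure_univ]
    _ < ⊤ := ENNReal.one_lt_top

lemma vol_ac_WW : (volume : Measure TT) ≪ WW := by
  apply withDensity_absolutelyContinuous' (by fun_prop)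
  rw [ae_iff]
  have h1 : {x : TT | ¬ ‖x‖ₑ ≠ 0} ⊆ Metric.closedBall (0 : TT) 0 := by
    intro x hx
    simp only [ne_eq, not_not, Set.mem_ofPred_eq] at hx
    have : x = 0 := enorm_eq_zero.mp hx
    simp [this]
  apply measure_mono_null h1
  rw [AddCircle.volume_closedBall]
  simp

/-- A measure whose density is arbitrarily small on suitable sets of positive measure. -/
def Small (ρ : Measure TT) : Prop :=
  ∀ ε : ℝ, 0 < ε → ∃ B, MeasurableSet B ∧ (volume : Measure TT) B ≠ 0 ∧
    ρ B ≤ ENNReal.ofReal ε * (volume : Measure TT) B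

lemma small_WW (c : ℝ≥0) : Small (c • WW) := by
  intro ε hε
  set δ : ℝ := ε / (c + 1) with hδ
  have hδ0 : 0 < δ := by positivity
  refine ⟨Metric.closedBall 0 δ, Metric.isClosed_closedBall.measurableSet, ?_, ?_⟩
  · rw [AddCircle.volume_closedBall]
    have : 0 < min (1:ℝ) (2 * δ) := lt_min one_pos (by positivity)
    simpa using this
  · rw [Measure.smul_apply]
    unfold WW
    rw [withDensity_apply _ Metric.isClosed_closedBall.measurableSet]
    have h1 : ∫⁻ x in Metric.closedBall (0 : TT) δ, ‖x‖ₑ ≤
        ENNReal.ofReal δ * (volume : Measure TT) (Metric.closedBall (0 : TT) δ) := by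
      rw [← setLIntegral_const]
      apply setLIntegral_mono measurable_const
      intro x hx
      rw [← ofReal_norm]
      apply ENNReal.ofReal_le_ofReal
      simpa using hx
    calc c • ∫⁻ x in Metric.closedBall (0 : TT) δ, ‖x‖ₑ
        ≤ c • (ENNReal.ofReal δ * (volume : Measure TT) (Metric.closedBall (0 : TT) δ)) := by
          gcongr
      _ = (c * ENNReal.ofReal δ) * (volume : Measure TT) (Metric.closedBall (0 : TT) δ) := by
          rw [ENNReal.smul_def, smul_eq_mul, mul_assoc]
      _ ≤ ENNReal.ofReal ε * (volume : Measure TT) (Metric.closedBall (0 : TT) δ) := by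
          gcongr
          rw [← ENNReal.ofReal_coe_nnreal, ← ENNReal.ofReal_mul (by positivity)]
          apply ENNReal.ofReal_le_ofReal
          rw [hδ, ← mul_div_assoc, div_le_iff₀ (by positivity)]
          nlinarith [c.2]

lemma small_le {c : ℝ≥0∞} (h : ∀ ε : ℝ, 0 < ε → c ≤ ENNReal.ofReal ε) : c = 0 := by
  by_contra hc
  have h1 := h 1 one_pos
  have hct : c ≠ ⊤ := ne_top_of_le_ne_top ENNReal.ofReal_ne_top h1
  have hpos : 0 < c.toReal := ENNReal.toReal_pos hc hct
  have h2 := h (c.toReal / 2) (half_pos hpos)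
  have h3 := ENNReal.toReal_mono ENNReal.ofReal_ne_top h2
  rw [ENNReal.toReal_ofReal (half_pos hpos).le] at h3
  linarith

lemma small_zero (ρ ρ' : Measure TT) (c : ℝ≥0∞) (C : ℝ≥0) (hs : Small ρ)
    (h : ρ' + c • (volume : Measure TT) ≤ C • ρ) : c = 0 := by
  apply small_le
  intro ε hε
  obtain ⟨B, hB, hB0, hB1⟩ := hs (ε / (C + 1)) (by positivity)
  have h1 := h B
  rw [Measure.add_apply, Measure.smul_apply, Measure.smul_apply, smul_eq_mul, ENNReal.smul_def,
    smul_eq_mul] at h1
  have h2 : c * (volume : Measure TT) B ≤ ENNReal.ofReal ε * (volume : Measure TT) B := by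
    calc c * (volume : Measure TT) B ≤ ρ' B + c * (volume : Measure TT) B := le_add_self
      _ ≤ C * ρ B := h1
      _ ≤ C * (ENNReal.ofReal (ε / (C + 1)) * (volume : Measure TT) B) := by gcongr
      _ = (C * ENNReal.ofReal (ε / (C + 1))) * (volume : Measure TT) B := by rw [mul_assoc]
      _ ≤ ENNReal.ofReal ε * (volume : Measure TT) B := by
          gcongr
          rw [← ENNReal.ofReal_coe_nnreal, ← ENNReal.ofReal_mul (by positivity)]
          apply ENNReal.ofReal_le_ofReal
          rw [← mul_div_assoc, div_le_iff₀ (by positivity)]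
          nlinarith [C.2]
  exact (ENNReal.mul_le_mul_iff_left hB0 (measure_ne_top _ _)).mp h2

section general

variable {ι : Type} [DecidableEq ι] [Countable ι]

/-- If two finite measures on the circles agree on the algebra, and the densities of the second
are small, then each circle component of the first dominates that of the second. -/
lemma comap_eq_of_small (ω : ι → Measure TT) [IsFiniteMeasure (PP ω)] (ν : Measure (PolyDisc ι))
    [IsFiniteMeasure ν] (hac : ν ≪ PP ω)
    (heq : ∀ f ∈ polyAlg ι, ∫ s, f s ∂ν = ∫ s, f s ∂(PP ω)) (k : ι) (hs : Small (ω k)) :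
    ν.comap (circ k) = ω k + ENNReal.ofReal ((ν.comap (circ k)).real univ - (ω k).real univ) •
        (volume : Measure TT) := by
  have h1 := coef ω ν hac heq k
  rcases le_total ((ω k).real univ) ((ν.comap (circ k)).real univ) with h2 | h2
  · have h3 : ENNReal.ofReal ((ω k).real univ - (ν.comap (circ k)).real univ) = 0 :=
      ENNReal.ofReal_eq_zero.mpr (by linarith)
    rw [h3, zero_smul, add_zero] at h1
    exact h1
  · have h3 : ENNReal.ofReal ((ν.comap (circ k)).real univ - (ω k).real univ) = 0 :=
      ENNReal.ofReal_eq_zero.mpr (by linarith)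
    rw [h3, zero_smul, add_zero] at h1
    have h4 : ENNReal.ofReal ((ω k).real univ - (ν.comap (circ k)).real univ) = 0 := by
      apply small_zero (ω k) (ν.comap (circ k)) _ 1 hs
      rw [h1, one_smul]
    rw [h4, zero_smul, add_zero] at h1
    rw [h3, zero_smul, add_zero]
    exact h1

/-- The measure `PP ω` as a finite measure. -/
noncomputable def PPf (ω : ι → Measure TT) (hfin : IsFiniteMeasure (PP ω)) :
    FiniteMeasure (PolyDisc ι) := ⟨PP ω, hfin⟩

lemma regular_all (μ : FiniteMeasure (PolyDisc ι)) : (μ : Measure (PolyDisc ι)).Regular :=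
  inferInstance

lemma extremal_of_small (ω : ι → Measure TT) (hfin : IsFiniteMeasure (PP ω))
    (hs : ∀ k, Small (ω k)) : Extremal (polyAlg ι) (PPf ω hfin) := by
  apply extremal_of _ _ (regular_all _)
  intro ν heq C hle
  have hac : (ν : Measure (PolyDisc ι)) ≪ PP ω := by
    intro E hE
    have h1 : (ν : Measure (PolyDisc ι)) E ≤ (C • (PP ω)) E := hle E
    rw [Measure.smul_apply, hE, smul_zero] at h1
    exact le_antisymm h1 bot_le
  have h0 : (ν : Measure (PolyDisc ι)) = PP (fun k => (ν : Measure (PolyDisc ι)).comap (circ k)) :=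
    eq_PP _ (hac (PP_compl ω))
  apply FiniteMeasure.toMeasure_injective
  show (ν : Measure (PolyDisc ι)) = PP ω
  rw [h0]
  congr 1
  funext k
  have h1 := comap_eq_of_small ω ν hac heq k (hs k)
  have h2 : (ν : Measure (PolyDisc ι)).comap (circ k) ≤ C • ω k := by
    intro E
    have h4 : PP ω (circ k '' E) = ω k E := by
      rw [← (circ_embedding k).comap_apply, PP_comap]
    rw [(circ_embedding k).comap_apply, Measure.smul_apply, ← h4]
    exact hle _
  rw [h1] at h2 ⊢
  rw [small_zero (ω k) (ω k) _ C (hs k) h2, zero_smul, add_zero]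

lemma univ_eq_of_equiv (μ ν : Measure (PolyDisc ι)) [IsFiniteMeasure μ] [IsFiniteMeasure ν]
    (heq : ∀ f ∈ polyAlg ι, ∫ s, f s ∂ν = ∫ s, f s ∂μ) : ν univ = μ univ := by
  have h1 := heq 1 (Subalgebra.one_mem _)
  simp only [ContinuousMap.one_apply, integral_const, Complex.real_smul, mul_one] at h1
  have h2 : ν.real univ = μ.real univ := by exact_mod_cast h1
  rw [measureReal_def, measureReal_def] at h2
  exact (ENNReal.toReal_eq_toReal_iff' (measure_ne_top _ _) (measure_ne_top _ _)).mp h2

lemma EE_of_small (ω : ι → Measure TT) (hfin : IsFiniteMeasure (PP ω))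
    (hs : ∀ k, Small (ω k)) :
    EE (polyAlg ι) (PPf ω hfin) = {PPf ω hfin} := by
  apply Set.eq_singleton_iff_unique_mem.mpr
  refine ⟨self_mem_EE _ _ (regular_all _), ?_⟩
  rintro ν ⟨_, hac, heq⟩
  apply FiniteMeasure.toMeasure_injective
  have h0 : (ν : Measure (PolyDisc ι)) = PP (fun k => (ν : Measure (PolyDisc ι)).comap (circ k)) :=
    eq_PP _ (hac (PP_compl ω))
  symm
  have hfin' : IsFiniteMeasure (PPf ω hfin : Measure (PolyDisc ι)) := hfin
  apply Measure.eq_of_le_of_measure_univ_eq
  · rw [h0]
    show PP ω ≤ _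
    intro E
    apply Measure.le_iff.mpr _ E
    intro E hE
    rw [PP_apply _ _ hE, PP_apply _ _ hE]
    apply ENNReal.tsum_le_tsum
    intro i
    have h1 := comap_eq_of_small ω ν hac heq i (hs i)
    rw [h1, Measure.add_apply]
    exact le_self_add
  · exact (univ_eq_of_equiv _ _ heq).symm

/-- The density of Lebesgue measure on the i-th circle, as an element of `L^1`. -/
lemma exists_density (ω : ι → Measure TT) [IsFiniteMeasure (PP ω)] (i : ι)
    (hac : (volume : Measure TT) ≪ ω i) :
    ∃ h : Lp ℂ 1 (PP ω), ∀ u : PolyDisc ι → ℂ, AEStronglyMeasurable u (PP ω) →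
      ∫ s, u s * h s ∂(PP ω) = ∫ x : TT, u (circ i x) := by
  set ρ : Measure (PolyDisc ι) := (volume : Measure TT).map (circ i) with hρ
  have hfin : IsFiniteMeasure ρ := Measure.isFiniteMeasure_map _ _
  have hρac : ρ ≪ PP ω := by
    have h1 : ρ ≪ (ω i).map (circ i) := hac.map (circ_embedding i).measurable
    exact h1.trans (Measure.absolutelyContinuous_of_le (Measure.le_sum _ i))
  set g : PolyDisc ι → ℂ := fun s => (((ρ.rnDeriv (PP ω) s).toReal : ℝ) : ℂ) with hg
  have hgi : Integrable g (PP ω) := (Measure.integrable_toReal_rnDeriv).ofReal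
  refine ⟨hgi.toL1 g, ?_⟩
  intro u hu
  have h1 : ∫ s, u s * (hgi.toL1 g) s ∂(PP ω) = ∫ s, (ρ.rnDeriv (PP ω) s).toReal • u s ∂(PP ω) := by
    apply integral_congr_ae
    filter_upwards [hgi.coeFn_toL1] with s hs
    rw [hs, hg, Complex.real_smul, mul_comm]
  have hdec : ρ.HaveLebesgueDecomposition (PP ω) :=
    Measure.haveLebesgueDecomposition_of_sigmaFinite ρ (PP ω)
  rw [h1, integral_rnDeriv_smul hρac, hρ, (circ_embedding i).integral_map]

end general

end Pool.Agent.Helper882.UniformAlgebra
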