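import Mathlib

set_option autoImplicit false

open MeasureTheory Set Topology Filter
open scoped NNReal ENNReal

namespace Pool.Agent.Helper882.UniformAlgebra

/-- The standing hypotheses on the function algebra: `A` is a uniformly closed subalgebra (with
constants) of the complex continuous functions on the compact space `S`; every nonzero continuous
multiplicative linear functional on `A` is evaluation at exactly one point of `S`; every
invertible element of `A` is the exponential of an element of `A`. -/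
structure Admissible {S : Type} [TopologicalSpace S] [CompactSpace S]
    (A : Subalgebra ℂ C(S, ℂ)) : Prop where
  closed : IsClosed (A : Set C(S, ℂ))
  char : ∀ φ : A →L[ℂ] ℂ, φ ≠ 0 → (∀ f g : A, φ (f * g) = φ f * φ g) →
    ∃! s : S, ∀ f : A, φ f = (f : C(S, ℂ)) s
  exp : ∀ f ∈ A, (∃ g ∈ A, f * g = 1) → ∃ h ∈ A, ∀ s, f s = Complex.exp (h s)

/-- The polydisc with coordinates indexed by `ι`. -/
abbrev PolyDisc (ι : Type) : Type := ι → Metric.closedBall (0 : ℂ) 1

/-- The coordinate functions. -/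
def coord {ι : Type} (i : ι) : C(PolyDisc ι, ℂ) where
  toFun := fun s => (s i : ℂ)
  continuous_toFun := continuous_subtype_val.comp (continuous_apply i)

/-- The polydisc algebra: the uniformly closed algebra generated by the coordinates. -/
noncomputable def polyAlg (ι : Type) : Subalgebra ℂ C(PolyDisc ι, ℂ) :=
  (Algebra.adjoin ℂ (Set.range (coord (ι := ι)))).topologicalClosure

variable {ι : Type}

lemma coord_norm_le (i : ι) (s : PolyDisc ι) : ‖coord i s‖ ≤ 1 := by
  have := (s i).2
  rw [mem_closedBall_zero_iff] at this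
  exact this

lemma coord_mem (i : ι) : coord i ∈ polyAlg ι :=
  Subalgebra.le_topologicalClosure _ (Algebra.subset_adjoin ⟨i, rfl⟩)

lemma polyAlg_closed : IsClosed (polyAlg ι : Set C(PolyDisc ι, ℂ)) :=
  Subalgebra.isClosed_topologicalClosure _

/-- scaling by a real number in the unit interval -/
noncomputable def scale (ι : Type) : C(unitInterval × PolyDisc ι, PolyDisc ι) where
  toFun := fun p i => ⟨(p.1 : ℝ) * (p.2 i : ℂ), by
    rw [mem_closedBall_zero_iff, norm_mul, Complex.norm_real, Real.norm_eq_abs,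
      abs_of_nonneg p.1.2.1]
    exact mul_le_one₀ p.1.2.2 (norm_nonneg _) (coord_norm_le i p.2)⟩
  continuous_toFun := by
    apply continuous_pi
    intro i
    apply Continuous.subtype_mk
    apply Continuous.mul
    · exact Complex.continuous_ofReal.comp (continuous_subtype_val.comp continuous_fst)
    · exact continuous_subtype_val.comp ((continuous_apply i).comp continuous_snd)

/-- the dilation of a function -/
noncomputable def dil (f : C(PolyDisc ι, ℂ)) : C(unitInterval, C(PolyDisc ι, ℂ)) :=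
  (f.comp (scale ι)).curry

lemma dil_apply (f : C(PolyDisc ι, ℂ)) (r : unitInterval) (s : PolyDisc ι) :
    dil f r s = f (scale ι (r, s)) := rfl

lemma dil_one (f : C(PolyDisc ι, ℂ)) : dil f 1 = f := by
  ext s
  rw [dil_apply]
  congr 1
  funext i
  apply Subtype.ext
  show ((1 : ℝ) : ℂ) * (s i : ℂ) = s i
  simp

lemma dil_zero (f : C(PolyDisc ι, ℂ)) (s : PolyDisc ι) :
    dil f 0 s = f (fun _ => ⟨0, by simp⟩) := by
  rw [dil_apply]
  congr 1
  funext i
  apply Subtype.ext
  show ((0 : ℝ) : ℂ) * (s i : ℂ) = 0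
  simp

lemma dil_mem (f : C(PolyDisc ι, ℂ)) (hf : f ∈ polyAlg ι) (r : unitInterval) :
    dil f r ∈ polyAlg ι := by
  let g : C(PolyDisc ι, PolyDisc ι) := (scale ι).comp ⟨fun s => (r, s), by fun_prop⟩
  let Φ : C(PolyDisc ι, ℂ) →ₐ[ℂ] C(PolyDisc ι, ℂ) := ContinuousMap.compRightAlgHom ℂ ℂ g
  have hΦ : ∀ f, Φ f = dil f r := fun f => rfl
  have hcont : Continuous Φ := ContinuousMap.continuous_precomp g
  have h1 : polyAlg ι ≤ (polyAlg ι).comap Φ := by
    apply Subalgebra.topologicalClosure_minimal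
    · apply Algebra.adjoin_le
      rintro _ ⟨i, rfl⟩
      show Φ (coord i) ∈ polyAlg ι
      have : Φ (coord i) = (r : ℂ) • coord i := by
        ext s
        rfl
      rw [this]
      exact Subalgebra.smul_mem _ (coord_mem i) _
    · exact polyAlg_closed.preimage hcont
  exact h1 hf

lemma log_mem (u : C(PolyDisc ι, ℂ)) (hu : u ∈ polyAlg ι) (h1 : ‖u - 1‖ < 1) :
    ∃ h ∈ polyAlg ι, ∀ s, u s = Complex.exp (h s) := by
  set x := u - 1 with hx
  have hxm : x ∈ polyAlg ι := Subalgebra.sub_mem _ hu (Subalgebra.one_mem _)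
  let F : ℕ → C(PolyDisc ι, ℂ) := fun n => ((-1 : ℂ) ^ (n + 1) / (n : ℂ)) • x ^ n
  have hFm : ∀ n, F n ∈ polyAlg ι := fun n =>
    Subalgebra.smul_mem _ (Subalgebra.pow_mem _ hxm n) _
  have hFs : Summable F := by
    apply Summable.of_norm_bounded (g := fun n => ‖x‖ ^ n) (summable_geometric_of_lt_one (norm_nonneg _) h1)
    intro n
    rw [norm_smul]
    rcases Nat.eq_zero_or_pos n with h0 | h0
    · subst h0
      simp
    · have h2 : ‖((-1 : ℂ) ^ (n + 1) / (n : ℂ))‖ ≤ 1 := by
        rw [norm_div, norm_pow, norm_neg, norm_one, one_pow, Complex.norm_natCast]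
        rw [div_le_one (by exact_mod_cast h0)]
        exact_mod_cast h0
      calc ‖((-1 : ℂ) ^ (n + 1) / (n : ℂ))‖ * ‖x ^ n‖ ≤ 1 * ‖x‖ ^ n := by
            gcongr
            exact norm_pow_le' x h0
        _ = ‖x‖ ^ n := one_mul _
  refine ⟨∑' n, F n, ?_, ?_⟩
  · apply polyAlg_closed.mem_of_tendsto hFs.hasSum
    apply Eventually.of_forall
    intro s
    exact Subalgebra.sum_mem _ (fun n _ => hFm n)
  · intro s
    have h3 : (∑' n, F n) s = ∑' n, F n s := by
      have := (ContinuousMap.evalCLM ℂ s).map_tsum hFs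
      exact this
    have h4 : ‖x s‖ < 1 := lt_of_le_of_lt (x.norm_coe_le_norm s) h1
    have h5 := Complex.hasSum_taylorSeries_log h4
    have h6 : ∀ n, F n s = (-1) ^ (n + 1) * x s ^ n / n := by
      intro n
      show ((-1 : ℂ) ^ (n + 1) / (n : ℂ)) * (x s) ^ n = _
      ring
    rw [h3]
    simp_rw [h6]
    rw [h5.tsum_eq, Complex.exp_log]
    · show u s = 1 + (u s - 1)
      ring
    · intro h7
      have h8 : x s = -1 := by linear_combination h7
      rw [h8] at h4
      simp at h4

lemma exp_mem (f : C(PolyDisc ι, ℂ)) (hf : f ∈ polyAlg ι) (g : C(PolyDisc ι, ℂ))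
    (hg : g ∈ polyAlg ι) (hfg : f * g = 1) :
    ∃ h ∈ polyAlg ι, ∀ s, f s = Complex.exp (h s) := by
  let E : Set C(PolyDisc ι, ℂ) := {u | ∃ h ∈ polyAlg ι, ∀ s, u s = Complex.exp (h s)}
  have hdil : ∀ r s, dil f r s * dil g r s = 1 := by
    intro r s
    rw [dil_apply, dil_apply]
    have := DFunLike.congr_fun hfg (scale ι (r, s))
    exact this
  have hloc : ∀ r0 : unitInterval, ∀ᶠ r in 𝓝 r0, (dil f r ∈ E ↔ dil f r0 ∈ E) := by
    intro r0
    have hc : Continuous (fun r => ‖dil f r * dil g r0 - 1‖) := by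
      apply Continuous.norm
      apply Continuous.sub _ continuous_const
      exact (dil f).continuous.mul continuous_const
    have h0 : ‖dil f r0 * dil g r0 - 1‖ < 1 := by
      have : dil f r0 * dil g r0 = 1 := by
        ext s
        exact hdil r0 s
      rw [this, sub_self, norm_zero]
      exact one_pos
    have hev := hc.continuousAt.eventually (gt_mem_nhds h0)
    filter_upwards [hev] with r hr
    obtain ⟨h, hh, hexp⟩ := log_mem (dil f r * dil g r0)
      (Subalgebra.mul_mem _ (dil_mem f hf r) (dil_mem g hg r0)) hr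
    have hrel : ∀ s, dil f r s = Complex.exp (h s) * dil f r0 s := by
      intro s
      rw [← hexp s]
      show dil f r s = dil f r s * dil g r0 s * dil f r0 s
      have := hdil r0 s
      rw [mul_assoc, mul_comm (dil g r0 s), this, mul_one]
    constructor
    · rintro ⟨k, hk, hk2⟩
      refine ⟨k - h, Subalgebra.sub_mem _ hk hh, fun s => ?_⟩
      have h1 := hrel s
      rw [hk2 s] at h1
      show _ = Complex.exp (k s - h s)
      rw [Complex.exp_sub, h1]
      field_simp
    · rintro ⟨k, hk, hk2⟩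
      refine ⟨h + k, Subalgebra.add_mem _ hh hk, fun s => ?_⟩
      show _ = Complex.exp (h s + k s)
      rw [Complex.exp_add, ← hk2 s]
      exact hrel s
  have hclopen : IsClopen {r | dil f r ∈ E} := by
    constructor
    · rw [← isOpen_compl_iff, isOpen_iff_mem_nhds]
      intro r0 hr0
      filter_upwards [hloc r0] with r hr hmem
      exact hr0 (hr.mp hmem)
    · rw [isOpen_iff_mem_nhds]
      intro r0 hr0
      filter_upwards [hloc r0] with r hr
      exact hr.mpr hr0
  have h0 : (0 : unitInterval) ∈ {r | dil f r ∈ E} := by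
    set c := f (fun _ => ⟨0, by simp⟩) with hc
    have hc0 : c ≠ 0 := by
      intro h
      have := hdil 0 (fun _ => ⟨0, by simp⟩)
      rw [dil_zero f, ← hc, h, zero_mul] at this
      exact zero_ne_one this
    refine ⟨algebraMap ℂ _ (Complex.log c), Subalgebra.algebraMap_mem _ _, fun s => ?_⟩
    rw [dil_zero]
    show c = Complex.exp (Complex.log c)
    rw [Complex.exp_log hc0]
  have huniv := hclopen.eq_univ ⟨0, h0⟩
  have h1 : (1 : unitInterval) ∈ {r | dil f r ∈ E} := by
    rw [huniv]; trivial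
  have h2 : dil f 1 ∈ E := h1
  rw [dil_one] at h2
  exact h2

lemma char_mem (φ : polyAlg ι →L[ℂ] ℂ) (hφ : φ ≠ 0)
    (hm : ∀ f g : polyAlg ι, φ (f * g) = φ f * φ g) :
    ∃! s : PolyDisc ι, ∀ f : polyAlg ι, φ f = (f : C(PolyDisc ι, ℂ)) s := by
  have h1 : φ 1 = 1 := by
    obtain ⟨f, hf⟩ : ∃ f, φ f ≠ 0 := by
      by_contra hcon
      push Not at hcon
      exact hφ (ContinuousLinearMap.ext hcon)
    have := hm f 1
    rw [mul_one] at this
    have h2 : φ f * (φ 1 - 1) = 0 := by rw [mul_sub, mul_one, ← this, sub_self]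
    rcases mul_eq_zero.mp h2 with h | h
    · exact absurd h hf
    · exact sub_eq_zero.mp h
  have hpow : ∀ (f : polyAlg ι) (n : ℕ), φ (f ^ n) = φ f ^ n := by
    intro f n
    induction n with
    | zero => rw [pow_zero, pow_zero, h1]
    | succ n ih => rw [pow_succ, pow_succ, hm, ih]
  have hle : ∀ i : ι, ‖φ ⟨coord i, coord_mem i⟩‖ ≤ 1 := by
    intro i
    by_contra hcon
    push Not at hcon
    set c := ‖φ ⟨coord i, coord_mem i⟩‖ with hc
    have hb : ∀ n : ℕ, c ^ n ≤ ‖φ‖ := by
      intro n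
      rw [hc, ← norm_pow, ← hpow]
      refine le_trans (φ.le_opNorm _) ?_
      have : ‖(⟨coord i, coord_mem i⟩ : polyAlg ι) ^ n‖ ≤ 1 := by
        show ‖(coord i) ^ n‖ ≤ 1
        rw [ContinuousMap.norm_le _ zero_le_one]
        intro s
        show ‖(coord i s) ^ n‖ ≤ 1
        rw [norm_pow]
        exact pow_le_one₀ (norm_nonneg _) (coord_norm_le i s)
      calc ‖φ‖ * _ ≤ ‖φ‖ * 1 := by gcongr
        _ = ‖φ‖ := mul_one _
    obtain ⟨n, hn⟩ := pow_unbounded_of_one_lt ‖φ‖ hcon
    exact absurd (hb n) (not_le.mpr hn)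
  let s : PolyDisc ι := fun i => ⟨φ ⟨coord i, coord_mem i⟩, by
    rw [mem_closedBall_zero_iff]; exact hle i⟩
  have hs : ∀ f : polyAlg ι, φ f = (f : C(PolyDisc ι, ℂ)) s := by
    -- closed set of good functions
    let Z : Set (polyAlg ι) := {f | φ f = (f : C(PolyDisc ι, ℂ)) s}
    have hZc : IsClosed Z := by
      apply isClosed_eq φ.continuous
      exact (ContinuousMap.evalCLM ℂ s).continuous.comp continuous_subtype_val
    have hZi : IsClosed ((Subtype.val) '' Z : Set C(PolyDisc ι, ℂ)) :=
      (polyAlg_closed (ι := ι)).isClosedEmbedding_subtypeVal.isClosedMap _ hZc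
    have hadj : ∀ f, f ∈ Algebra.adjoin ℂ (Set.range (coord (ι := ι))) →
        ∃ hf : f ∈ polyAlg ι, φ ⟨f, hf⟩ = f s := by
      intro f hf
      induction hf using Algebra.adjoin_induction with
      | mem x hx =>
        obtain ⟨i, rfl⟩ := hx
        exact ⟨coord_mem i, rfl⟩
      | algebraMap r =>
        refine ⟨Subalgebra.algebraMap_mem _ r, ?_⟩
        have : (⟨algebraMap ℂ C(PolyDisc ι, ℂ) r, Subalgebra.algebraMap_mem _ r⟩ : polyAlg ι)
            = r • 1 := by
          apply Subtype.ext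
          exact Algebra.algebraMap_eq_smul_one r
        rw [this, map_smul, h1, smul_eq_mul, mul_one]
        rfl
      | add x y hx hy ihx ihy =>
        obtain ⟨hx1, hx2⟩ := ihx
        obtain ⟨hy1, hy2⟩ := ihy
        refine ⟨Subalgebra.add_mem _ hx1 hy1, ?_⟩
        have : (⟨x + y, Subalgebra.add_mem _ hx1 hy1⟩ : polyAlg ι) = ⟨x, hx1⟩ + ⟨y, hy1⟩ := rfl
        rw [this, map_add, hx2, hy2]
        rfl
      | mul x y hx hy ihx ihy =>
        obtain ⟨hx1, hx2⟩ := ihx
        obtain ⟨hy1, hy2⟩ := ihy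
        refine ⟨Subalgebra.mul_mem _ hx1 hy1, ?_⟩
        have : (⟨x * y, Subalgebra.mul_mem _ hx1 hy1⟩ : polyAlg ι) = ⟨x, hx1⟩ * ⟨y, hy1⟩ := rfl
        rw [this, hm, hx2, hy2]
        rfl
    intro f
    have hcl : (f : C(PolyDisc ι, ℂ)) ∈ closure
        (Algebra.adjoin ℂ (Set.range (coord (ι := ι))) : Set C(PolyDisc ι, ℂ)) := f.2
    have hsub : (Algebra.adjoin ℂ (Set.range (coord (ι := ι))) : Set C(PolyDisc ι, ℂ)) ⊆
        Subtype.val '' Z := by
      intro x hx
      obtain ⟨hx1, hx2⟩ := hadj x hx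
      exact ⟨⟨x, hx1⟩, hx2, rfl⟩
    obtain ⟨f', hf', hff⟩ := (closure_minimal hsub hZi) hcl
    have : f' = f := Subtype.ext hff
    rw [← this]
    exact hf'
  refine ⟨s, hs, ?_⟩
  intro s' hs'
  funext i
  apply Subtype.ext
  have := hs' ⟨coord i, coord_mem i⟩
  exact this.symm

/-- The polydisc algebra satisfies the standing hypotheses. -/
theorem polyAlg_admissible (ι : Type) : Admissible (polyAlg ι) where
  closed := polyAlg_closed
  char := char_mem
  exp := fun f hf ⟨g, hg, hfg⟩ => exp_mem f hf g hg hfg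

end Pool.Agent.Helper882.UniformAlgebra
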